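import Mathlib

/-!
Multigraphs `s t : E → V`: boundaries of group-valued edge functions, cuts, connectivity.
-/

namespace Pool.Agent.Lib.MP_c8786f_co.WO

open Finset

set_option linter.unusedSectionVars false

variable {V E : Type} [Fintype V] [DecidableEq V] [Fintype E] [DecidableEq E]
variable {A : Type} [AddCommGroup A]

/-- net out-flow of `g` at `v` -/
def bd (s t : E → V) (g : E → A) (v : V) : A :=
  ∑ e, ((if s e = v then g e else 0) - (if t e = v then g e else 0))

/-- the edge cut of a vertex set -/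
def cut (s t : E → V) (X : Finset V) : Finset E := univ.filter fun e => ¬ (s e ∈ X ↔ t e ∈ X)

/-- the value leaving `X` along a cut edge -/
def out (s : E → V) (X : Finset V) (g : E → A) (e : E) : A := if s e ∈ X then g e else - g e

/-- non-loop edges inside `X` -/
def inn (s t : E → V) (X : Finset V) : Finset E :=
  univ.filter fun e => s e ∈ X ∧ t e ∈ X ∧ s e ≠ t e

/-- `e` joins `u` and `v` -/
def Adj (s t : E → V) (e : E) (u v : V) : Prop := (s e = u ∧ t e = v) ∨ (s e = v ∧ t e = u)

lemma Adj.symm {s t : E → V} {e : E} {u v : V} (h : Adj s t e u v) : Adj s t e v u := Or.symm h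

lemma mem_cut {s t : E → V} {X : Finset V} {e : E} : e ∈ cut s t X ↔ ¬ (s e ∈ X ↔ t e ∈ X) := by
  simp [cut]

lemma mem_inn {s t : E → V} {X : Finset V} {e : E} :
    e ∈ inn s t X ↔ s e ∈ X ∧ t e ∈ X ∧ s e ≠ t e := by
  simp [inn]

lemma cut_compl (s t : E → V) (X : Finset V) : cut s t Xᶜ = cut s t X := by
  ext e; simp only [mem_cut, mem_compl]; tauto

lemma cut_empty (s t : E → V) : cut s t (∅ : Finset V) = ∅ := by
  ext e; simp [mem_cut]

lemma cut_univ (s t : E → V) : cut s t (univ : Finset V) = ∅ := by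
  ext e; simp [mem_cut]

lemma out_compl (s : E → V) (X : Finset V) (g : E → A) (e : E) :
    out s Xᶜ g e = - out s X g e := by
  unfold out
  by_cases h : s e ∈ X <;> simp [h]

lemma Adj.mem_cut {s t : E → V} {e : E} {u v : V} (h : Adj s t e u v) {X : Finset V} :
    e ∈ cut s t X ↔ ¬ (u ∈ X ↔ v ∈ X) := by
  rw [WO.mem_cut]
  rcases h with ⟨rfl, rfl⟩ | ⟨rfl, rfl⟩
  · rfl
  · tauto

lemma Adj.mem_inn {s t : E → V} {e : E} {u v : V} (h : Adj s t e u v) {X : Finset V}
    (hu : u ∈ X) (hv : v ∈ X) (huv : u ≠ v) : e ∈ inn s t X := by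
  rw [WO.mem_inn]
  rcases h with ⟨rfl, rfl⟩ | ⟨rfl, rfl⟩
  · exact ⟨hu, hv, huv⟩
  · exact ⟨hv, hu, huv.symm⟩

lemma Adj.unique {s t : E → V} {e : E} {u v w : V} (h : Adj s t e u v) (h' : Adj s t e u w) :
    v = w := by
  rcases h with ⟨h1, h2⟩ | ⟨h1, h2⟩ <;> rcases h' with ⟨h3, h4⟩ | ⟨h3, h4⟩ <;> simp_all

lemma exists_adj_of_mem_star {s t : E → V} {e : E} {v : V} (h : e ∈ cut s t {v}) :
    ∃ w, w ≠ v ∧ Adj s t e v w := by
  rw [mem_cut, mem_singleton, mem_singleton] at h
  by_cases h1 : s e = v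
  · exact ⟨t e, fun h2 => h (by simp [h1, h2]), Or.inl ⟨h1, rfl⟩⟩
  · have h2 : t e = v := by tauto
    exact ⟨s e, h1, Or.inr ⟨rfl, h2⟩⟩

lemma Adj.mem_star {s t : E → V} {e : E} {v w : V} (h : Adj s t e v w) (hw : w ≠ v) :
    e ∈ cut s t {v} := by
  rw [h.mem_cut]; simp [hw]

lemma exists_adj_of_mem_cut {s t : E → V} {e : E} {X : Finset V} (h : e ∈ cut s t X) :
    ∃ v w, v ∈ X ∧ w ∉ X ∧ Adj s t e v w := by
  rw [mem_cut] at h
  by_cases h1 : s e ∈ X
  · exact ⟨s e, t e, h1, by tauto, Or.inl ⟨rfl, rfl⟩⟩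
  · exact ⟨t e, s e, by tauto, h1, Or.inr ⟨rfl, rfl⟩⟩

lemma sum_bd (s t : E → V) (g : E → A) (X : Finset V) :
    ∑ v ∈ X, bd s t g v = ∑ e ∈ cut s t X, out s X g e := by
  unfold bd cut
  rw [sum_comm, sum_filter]
  refine sum_congr rfl fun e _ => ?_
  rw [sum_sub_distrib, sum_ite_eq, sum_ite_eq]
  unfold out
  by_cases h1 : s e ∈ X <;> by_cases h2 : t e ∈ X <;> simp [h1, h2]

lemma bd_eq_star (s t : E → V) (g : E → A) (v : V) :
    bd s t g v = ∑ e ∈ cut s t {v}, out s {v} g e := by
  rw [← sum_bd, sum_singleton]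

lemma sum_bd_univ (s t : E → V) (g : E → A) : ∑ v, bd s t g v = 0 := by
  rw [sum_bd, cut_univ, sum_empty]

lemma bd_add (s t : E → V) (g h : E → A) (v : V) :
    bd s t (g + h) v = bd s t g v + bd s t h v := by
  unfold bd
  rw [← sum_add_distrib]
  refine sum_congr rfl fun e _ => ?_
  simp only [Pi.add_apply]
  split_ifs <;> abel

lemma bd_neg (s t : E → V) (g : E → A) (v : V) : bd s t (-g) v = - bd s t g v := by
  unfold bd
  rw [← sum_neg_distrib]
  refine sum_congr rfl fun e _ => ?_
  simp only [Pi.neg_apply]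
  split_ifs <;> abel

lemma bd_sub (s t : E → V) (g h : E → A) (v : V) :
    bd s t (g - h) v = bd s t g v - bd s t h v := by
  rw [sub_eq_add_neg, bd_add, bd_neg, sub_eq_add_neg]

lemma bd_zero (s t : E → V) (v : V) : bd s t (0 : E → A) v = 0 := by
  simp [bd]

lemma bd_sum {I : Type} (s t : E → V) (S : Finset I) (g : I → E → A) (v : V) :
    bd s t (∑ i ∈ S, g i) v = ∑ i ∈ S, bd s t (g i) v := by
  classical
  induction S using Finset.induction_on with
  | empty => simp [bd_zero]
  | insert i S hi ih => rw [sum_insert hi, sum_insert hi, bd_add, ih]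

lemma bd_map {B : Type} [AddCommGroup B] (s t : E → V) (f : A →+ B) (g : E → A) (v : V) :
    bd s t (fun e => f (g e)) v = f (bd s t g v) := by
  unfold bd
  rw [map_sum]
  refine sum_congr rfl fun e _ => ?_
  split_ifs <;> simp

lemma bd_single (s t : E → V) (e : E) (a : A) (v : V) :
    bd s t (Pi.single e a) v = (if s e = v then a else 0) - (if t e = v then a else 0) := by
  unfold bd
  rw [sum_eq_single e]
  · simp
  · intro x _ hx; simp [hx]
  · simp

lemma bd_congr (s t : E → V) {g h : E → A} {v : V} (H : ∀ e ∈ cut s t {v}, g e = h e) :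
    bd s t g v = bd s t h v := by
  rw [bd_eq_star, bd_eq_star]
  refine sum_congr rfl fun e he => ?_
  unfold out
  rw [H e he]

lemma bd_eq_filter (s t : E → V) (g : E → A) (v : V) :
    bd s t g v = ∑ e with s e = v, g e - ∑ e with t e = v, g e := by
  unfold bd
  rw [sum_sub_distrib, sum_filter, sum_filter]

/-- degree sum formula -/
lemma sum_deg (s t : E → V) (X : Finset V) :
    ∑ v ∈ X, (cut s t {v}).card = (cut s t X).card + 2 * (inn s t X).card := by
  simp only [cut, inn, card_filter]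
  rw [sum_comm, mul_sum, ← sum_add_distrib]
  refine sum_congr rfl fun e _ => ?_
  by_cases h : s e = t e
  · simp [h]
  · have : ∀ v, (if ¬ (s e ∈ ({v} : Finset V) ↔ t e ∈ ({v} : Finset V)) then 1 else 0) =
        (if s e = v then 1 else 0) + (if t e = v then 1 else 0) := by
      intro v
      by_cases h1 : s e = v <;> by_cases h2 : t e = v
      · exact absurd (h1.trans h2.symm) h
      · simp [h1, h2]
      · simp [h1, h2]
      · simp [h1, h2]
    rw [sum_congr rfl fun v _ => this v, sum_add_distrib, sum_ite_eq, sum_ite_eq]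
    by_cases h1 : s e ∈ X <;> by_cases h2 : t e ∈ X <;> simp [h1, h2, h]

lemma cut_inter_union (s t : E → V) (X Y : Finset V) :
    (cut s t (X ∩ Y)).card + (cut s t (X ∪ Y)).card ≤ (cut s t X).card + (cut s t Y).card := by
  simp only [cut, card_filter]
  rw [← sum_add_distrib, ← sum_add_distrib]
  refine sum_le_sum fun e _ => ?_
  by_cases h1 : s e ∈ X <;> by_cases h2 : t e ∈ X <;> by_cases h3 : s e ∈ Y <;>
    by_cases h4 : t e ∈ Y <;> simp [h1, h2, h3, h4]

/-- connectivity along the edges satisfying `F` -/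
def Conn (s t : E → V) (F : E → Prop) : V → V → Prop :=
  Relation.EqvGen fun x y => ∃ e, F e ∧ s e = x ∧ t e = y

lemma Conn.refl (s t : E → V) (F : E → Prop) (v : V) : Conn s t F v v := Relation.EqvGen.refl v

lemma Conn.symm {s t : E → V} {F : E → Prop} {u v : V} (h : Conn s t F u v) : Conn s t F v u :=
  Relation.EqvGen.symm _ _ h

lemma Conn.trans {s t : E → V} {F : E → Prop} {u v w : V} (h : Conn s t F u v)
    (h' : Conn s t F v w) : Conn s t F u w := Relation.EqvGen.trans _ _ _ h h'

lemma conn_edge {s t : E → V} {F : E → Prop} {e : E} (h : F e) : Conn s t F (s e) (t e) :=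
  Relation.EqvGen.rel _ _ ⟨e, h, rfl, rfl⟩

lemma Adj.conn {s t : E → V} {F : E → Prop} {e : E} {u v : V} (h : Adj s t e u v) (he : F e) :
    Conn s t F u v := by
  rcases h with ⟨rfl, rfl⟩ | ⟨rfl, rfl⟩
  · exact conn_edge he
  · exact (conn_edge he).symm

lemma conn_iff_edge {s t : E → V} {F : E → Prop} {e : E} (h : F e) (v : V) :
    Conn s t F v (s e) ↔ Conn s t F v (t e) :=
  ⟨fun h' => h'.trans (conn_edge h), fun h' => h'.trans (conn_edge h).symm⟩

lemma Conn.closed {s t : E → V} {F : E → Prop} {P : V → Prop}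
    (hP : ∀ e, F e → (P (s e) ↔ P (t e))) {u v : V} (h : Conn s t F u v) : P u ↔ P v := by
  induction h with
  | rel x y h => obtain ⟨e, he, rfl, rfl⟩ := h; exact hP e he
  | refl x => rfl
  | symm x y _ ih => exact ih.symm
  | trans x y z _ _ ih ih' => exact ih.trans ih'

lemma Conn.flow {s t : E → V} {F : E → Prop} {u v : V} (h : Conn s t F u v) (a : A) :
    ∃ g : E → A, (∀ e, ¬ F e → g e = 0) ∧
      ∀ w, bd s t g w = (if u = w then a else 0) - (if v = w then a else 0) := by
  induction h with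
  | rel x y h =>
    obtain ⟨e, he, rfl, rfl⟩ := h
    refine ⟨Pi.single e a, fun e' he' => ?_, fun w => bd_single s t e a w⟩
    have : e' ≠ e := fun h => he' (h ▸ he)
    simp [this]
  | refl x => exact ⟨0, fun _ _ => rfl, fun w => by simp [bd_zero]⟩
  | symm x y _ ih =>
    obtain ⟨g, h1, h2⟩ := ih
    exact ⟨-g, fun e he => by simp [h1 e he], fun w => by rw [bd_neg, h2]; abel⟩
  | trans x y z _ _ ih ih' =>
    obtain ⟨g, h1, h2⟩ := ih
    obtain ⟨g', h1', h2'⟩ := ih'
    exact ⟨g + g', fun e he => by simp [h1 e he, h1' e he],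
      fun w => by rw [bd_add, h2, h2']; abel⟩

/-- a representative of the component -/
lemma exists_rep (s t : E → V) (F : E → Prop) :
    ∃ r : V → V, (∀ v, Conn s t F v (r v)) ∧ ∀ u v, Conn s t F u v ↔ r u = r v := by
  let S : Setoid V := ⟨Conn s t F, Conn.refl s t F, Conn.symm, Conn.trans⟩
  refine ⟨fun v => (Quotient.mk S v).out, fun v => ?_, fun u v => ⟨fun h => ?_, fun h => ?_⟩⟩
  · exact Conn.symm (Quotient.mk_out (s := S) v)
  · have : Quotient.mk S u = Quotient.mk S v := Quotient.sound h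
    simp only [this]
  · have h1 : Conn s t F (Quotient.mk S u).out u := Quotient.mk_out (s := S) u
    have h2 : Conn s t F (Quotient.mk S v).out v := Quotient.mk_out (s := S) v
    simp only at h
    rw [h] at h1
    exact h1.symm.trans h2

/-- a vertex function with zero sum on every component is a boundary -/
lemma exists_of_rep {s t : E → V} {F : E → Prop} {r : V → V} (hr : ∀ v, Conn s t F v (r v))
    (h : V → A) (hh : ∀ w, ∑ v with r v = w, h v = 0) :
    ∃ g : E → A, (∀ e, ¬ F e → g e = 0) ∧ ∀ w, bd s t g w = h w := by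
  choose g hg hg' using fun v => (hr v).flow (h v)
  refine ⟨∑ v, g v, fun e he => ?_, fun w => ?_⟩
  · rw [Finset.sum_apply]; exact sum_eq_zero fun v _ => hg v e he
  · rw [bd_sum, sum_congr rfl fun v _ => hg' v w, sum_sub_distrib, sum_ite_eq', ← sum_filter, hh]
    simp

/-- a nowhere-zero flow with values in `ZMod 5` -/
def HasFlow (s t : E → V) : Prop := ∃ g : E → ZMod 5, (∀ e, g e ≠ 0) ∧ ∀ v, bd s t g v = 0

/-- no cut with exactly one edge -/
def Bridgeless (s t : E → V) : Prop := ∀ X, (cut s t X).card ≠ 1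

/-- `c` is the indicator of an even subgraph, `j` is one outside it -/
structure State (s t : E → V) (c j : E → ZMod 2) : Prop where
  cover : ∀ e, c e = 0 → j e = 1
  even : ∀ v, bd s t c v = 0

/-- vertices of odd `j`-degree -/
def ter (s t : E → V) (j : E → ZMod 2) : Finset V := univ.filter fun v => bd s t j v ≠ 0

lemma mem_ter {s t : E → V} {j : E → ZMod 2} {v : V} : v ∈ ter s t j ↔ bd s t j v ≠ 0 := by
  simp [ter]

lemma z2_cases (a : ZMod 2) : a = 0 ∨ a = 1 := by revert a; decide

lemma z2_ne_zero {a : ZMod 2} : a ≠ 0 ↔ a = 1 := by revert a; decide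

lemma z2_ne_one {a : ZMod 2} : a ≠ 1 ↔ a = 0 := by revert a; decide

lemma bd_eq_ite (s t : E → V) (j : E → ZMod 2) (v : V) :
    bd s t j v = if v ∈ ter s t j then 1 else 0 := by
  by_cases h : v ∈ ter s t j
  · rw [if_pos h]; exact z2_ne_zero.mp (mem_ter.mp h)
  · rw [if_neg h]; simpa [mem_ter] using h

/-- parity of the number of `j`-edges in a cut -/
lemma cut_parity (s t : E → V) (j : E → ZMod 2) (X : Finset V) :
    ((cut s t X).filter fun e => j e = 1).card % 2 = (X ∩ ter s t j).card % 2 := by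
  have h1 := sum_bd s t j X
  have h2 : ∑ v ∈ X, bd s t j v = ((X ∩ ter s t j).card : ZMod 2) := by
    rw [sum_congr rfl fun v _ => bd_eq_ite s t j v, sum_boole, filter_mem_eq_inter]
  have h3 : ∑ e ∈ cut s t X, out s X j e =
      (((cut s t X).filter fun e => j e = 1).card : ZMod 2) := by
    rw [← sum_boole]
    refine sum_congr rfl fun e _ => ?_
    unfold out
    rcases z2_cases (j e) with h | h <;> simp [h]
  rw [h2, h3] at h1
  exact ((ZMod.natCast_eq_natCast_iff' _ _ 2).mp h1).symm

lemma ter_even (s t : E → V) (j : E → ZMod 2) : (ter s t j).card % 2 = 0 := by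
  have := cut_parity s t j univ
  rw [cut_univ, univ_inter] at this
  simpa using this.symm

end Pool.Agent.Lib.MP_c8786f_co.WO
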