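import Pool.Agent.Lib.MP_c8786f_co.WO.Span

/-!
Two non-negative combinations of partition indicators with disjoint supports, on at most five ends.
-/

namespace Pool.Agent.Lib.MP_c8786f_co.WO

open Finset

set_option linter.unusedSectionVars false

variable {E : Type} [DecidableEq E]

/-- nowhere-zero boundary values with sum zero -/
def NZ (D : Finset E) (β : E → ZMod 5) : Prop := (∀ e ∈ D, β e ≠ 0) ∧ ∑ e ∈ D, β e = 0

lemma Form.small {D : Finset E} (hD : D.card ≤ 3) {N : (E → ZMod 5) → ℤ} (h : Form D N)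
    {β β' : E → ZMod 5} (h1 : NZ D β) (h2 : NZ D β') : N β = N β' := by
  have key : ∀ γ : E → ZMod 5, NZ D γ → ∀ e ∈ D, ∀ e' ∈ D, e ≠ e' →
      (γ e + γ e' = 0 ↔ D.card = 2) := by
    intro γ hγ e he e' he' hne
    have hs : ({e, e'} : Finset E) ⊆ D := by
      intro a ha; rcases mem_insert.mp ha with rfl | ha
      · exact he
      · rw [mem_singleton.mp ha]; exact he'
    have k1 := sum_sdiff hs (f := γ)
    have k2 := card_sdiff_of_subset hs
    have k3 := card_le_card hs
    rw [card_pair hne] at k2 k3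
    rw [hγ.2, sum_pair hne] at k1
    by_cases hc : D.card = 2
    · have : D \ {e, e'} = ∅ := card_eq_zero.mp (by omega)
      rw [this, sum_empty, zero_add] at k1
      simp [hc, k1]
    · obtain ⟨a, ha⟩ := card_eq_one.mp (show (D \ {e, e'}).card = 1 by omega)
      have ha' : a ∈ D \ {e, e'} := by rw [ha]; simp
      rw [ha, sum_singleton] at k1
      simp only [hc, iff_false]
      intro h0
      rw [h0, add_zero] at k1
      exact hγ.1 a (mem_sdiff.mp ha').1 k1
  obtain ⟨x0, x, hx⟩ := h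
  rw [hx β h1.1 h1.2, hx β' h2.1 h2.2]
  congr 1
  refine sum_congr rfl fun e he => sum_congr rfl fun e' he' => ?_
  by_cases hne : e = e'
  · simp [hne]
  · simp only [key β h1 e he e' he' hne, key β' h2 e he e' he' hne]

/-- a labelling of a set with four elements -/
structure Lab4 (D : Finset E) (i j k l : E) : Prop where
  eq : D = {i, j, k, l}
  ij : i ≠ j
  ik : i ≠ k
  il : i ≠ l
  jk : j ≠ k
  jl : j ≠ l
  kl : k ≠ l

/-- a labelling of a set with five elements -/
structure Lab5 (D : Finset E) (i j k l m : E) : Prop where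
  eq : D = {i, j, k, l, m}
  ij : i ≠ j
  ik : i ≠ k
  il : i ≠ l
  im : i ≠ m
  jk : j ≠ k
  jl : j ≠ l
  jm : j ≠ m
  kl : k ≠ l
  km : k ≠ m
  lm : l ≠ m

lemma exists_notMem_of_lt {D S : Finset E} (h : S.card < D.card) : ∃ a ∈ D, a ∉ S := by
  by_contra hc
  push Not at hc
  exact absurd (card_le_card hc) (by omega)

lemma Lab4.of_mem {D : Finset E} (hD : D.card = 4) {i j k l : E} (hi : i ∈ D) (hj : j ∈ D)
    (hk : k ∈ D) (hl : l ∈ D) (ij : i ≠ j) (ik : i ≠ k) (il : i ≠ l) (jk : j ≠ k) (jl : j ≠ l)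
    (kl : k ≠ l) : Lab4 D i j k l := by
  refine ⟨(eq_of_subset_of_card_le ?_ ?_).symm, ij, ik, il, jk, jl, kl⟩
  · intro a ha; simp only [mem_insert, mem_singleton] at ha
    rcases ha with rfl | rfl | rfl | rfl <;> assumption
  · rw [card_insert_of_notMem (by simp [*]), card_insert_of_notMem (by simp [*]), card_pair kl, hD]

lemma Lab5.of_mem {D : Finset E} (hD : D.card = 5) {i j k l m : E} (hi : i ∈ D) (hj : j ∈ D)
    (hk : k ∈ D) (hl : l ∈ D) (hm : m ∈ D) (ij : i ≠ j) (ik : i ≠ k) (il : i ≠ l) (im : i ≠ m)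
    (jk : j ≠ k) (jl : j ≠ l) (jm : j ≠ m) (kl : k ≠ l) (km : k ≠ m) (lm : l ≠ m) :
    Lab5 D i j k l m := by
  refine ⟨(eq_of_subset_of_card_le ?_ ?_).symm, ij, ik, il, im, jk, jl, jm, kl, km, lm⟩
  · intro a ha; simp only [mem_insert, mem_singleton] at ha
    rcases ha with rfl | rfl | rfl | rfl | rfl <;> assumption
  · rw [card_insert_of_notMem (by simp [*]), card_insert_of_notMem (by simp [*]),
      card_insert_of_notMem (by simp [*]), card_pair lm, hD]

lemma Lab4.mem {D : Finset E} {i j k l : E} (h : Lab4 D i j k l) :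
    i ∈ D ∧ j ∈ D ∧ k ∈ D ∧ l ∈ D := by rw [h.eq]; simp

lemma Lab5.mem {D : Finset E} {i j k l m : E} (h : Lab5 D i j k l m) :
    i ∈ D ∧ j ∈ D ∧ k ∈ D ∧ l ∈ D ∧ m ∈ D := by rw [h.eq]; simp

lemma Lab4.sum {A : Type} [AddCommMonoid A] {D : Finset E} {i j k l : E} (h : Lab4 D i j k l)
    (f : E → A) : ∑ e ∈ D, f e = f i + f j + f k + f l := by
  rw [h.eq, sum_insert (by simp [h.ij, h.ik, h.il]), sum_insert (by simp [h.jk, h.jl]),
    sum_pair h.kl]
  simp only [add_assoc]

lemma Lab5.sum {A : Type} [AddCommMonoid A] {D : Finset E} {i j k l m : E}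
    (h : Lab5 D i j k l m) (f : E → A) : ∑ e ∈ D, f e = f i + f j + f k + f l + f m := by
  rw [h.eq, sum_insert (by simp [h.ij, h.ik, h.il, h.im]), sum_insert (by simp [h.jk, h.jl, h.jm]),
    sum_insert (by simp [h.kl, h.km]), sum_pair h.lm]
  simp only [add_assoc]

lemma exists_lab4 {D : Finset E} (hD : D.card = 4) : ∃ i j k l, Lab4 D i j k l := by
  obtain ⟨i, hi, -⟩ := exists_notMem_of_lt (D := D) (S := ∅) (by simp [hD])
  obtain ⟨j, hj, h2⟩ := exists_notMem_of_lt (D := D) (S := {i}) (by simp [hD])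
  obtain ⟨k, hk, h3⟩ := exists_notMem_of_lt (D := D) (S := {i, j})
    (by have := card_le_two (a := i) (b := j); omega)
  obtain ⟨l, hl, h4⟩ := exists_notMem_of_lt (D := D) (S := {i, j, k})
    (by have := card_le_three (a := i) (b := j) (c := k); omega)
  simp only [mem_insert, mem_singleton, not_or] at h2 h3 h4
  exact ⟨i, j, k, l, Lab4.of_mem hD hi hj hk hl (Ne.symm h2) (Ne.symm h3.1) (Ne.symm h4.1)
    (Ne.symm h3.2) (Ne.symm h4.2.1) (Ne.symm h4.2.2)⟩

lemma exists_lab5_four {D : Finset E} (hD : D.card = 5) {i j k l : E} (hi : i ∈ D) (hj : j ∈ D)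
    (hk : k ∈ D) (hl : l ∈ D) (ij : i ≠ j) (ik : i ≠ k) (il : i ≠ l) (jk : j ≠ k) (jl : j ≠ l)
    (kl : k ≠ l) : ∃ m, Lab5 D i j k l m := by
  obtain ⟨m, hm, h⟩ := exists_notMem_of_lt (D := D) (S := {i, j, k, l})
    (by have := card_le_four (a := i) (b := j) (c := k) (d := l); omega)
  simp only [mem_insert, mem_singleton, not_or] at h
  exact ⟨m, Lab5.of_mem hD hi hj hk hl hm ij ik il (Ne.symm h.1) jk jl (Ne.symm h.2.1) kl
    (Ne.symm h.2.2.1) (Ne.symm h.2.2.2)⟩

lemma exists_lab5_three {D : Finset E} (hD : D.card = 5) {i j k : E} (hi : i ∈ D) (hj : j ∈ D)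
    (hk : k ∈ D) (ij : i ≠ j) (ik : i ≠ k) (jk : j ≠ k) : ∃ l m, Lab5 D i j k l m := by
  obtain ⟨l, hl, h⟩ := exists_notMem_of_lt (D := D) (S := {i, j, k})
    (by have := card_le_three (a := i) (b := j) (c := k); omega)
  simp only [mem_insert, mem_singleton, not_or] at h
  exact ⟨l, exists_lab5_four hD hi hj hk hl ij ik (Ne.symm h.1) jk (Ne.symm h.2.1) (Ne.symm h.2.2)⟩

lemma exists_lab5_two {D : Finset E} (hD : D.card = 5) {i j : E} (hi : i ∈ D) (hj : j ∈ D)
    (ij : i ≠ j) : ∃ k l m, Lab5 D i j k l m := by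
  obtain ⟨k, hk, h⟩ := exists_notMem_of_lt (D := D) (S := {i, j})
    (by have := card_le_two (a := i) (b := j); omega)
  simp only [mem_insert, mem_singleton, not_or] at h
  exact ⟨k, exists_lab5_three hD hi hj hk ij (Ne.symm h.1) (Ne.symm h.2)⟩

lemma exists_lab5 {D : Finset E} (hD : D.card = 5) : ∃ i j k l m, Lab5 D i j k l m := by
  obtain ⟨i, hi, -⟩ := exists_notMem_of_lt (D := D) (S := ∅) (by simp [hD])
  obtain ⟨j, hj, h2⟩ := exists_notMem_of_lt (D := D) (S := {i}) (by simp [hD])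
  exact ⟨i, j, exists_lab5_two hD hi hj (Ne.symm (by simpa using h2))⟩

lemma Lab4.nz {D : Finset E} {i j k l : E} (h : Lab4 D i j k l) {β : E → ZMod 5} :
    NZ D β ↔ β i ≠ 0 ∧ β j ≠ 0 ∧ β k ≠ 0 ∧ β l ≠ 0 ∧ β i + β j + β k + β l = 0 := by
  unfold NZ
  rw [h.sum, h.eq]
  simp only [forall_mem_insert, mem_singleton, forall_eq, and_assoc]

lemma Lab5.nz {D : Finset E} {i j k l m : E} (h : Lab5 D i j k l m) {β : E → ZMod 5} :
    NZ D β ↔ β i ≠ 0 ∧ β j ≠ 0 ∧ β k ≠ 0 ∧ β l ≠ 0 ∧ β m ≠ 0 ∧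
      β i + β j + β k + β l + β m = 0 := by
  unfold NZ
  rw [h.sum, h.eq]
  simp only [forall_mem_insert, mem_singleton, forall_eq, and_assoc]

lemma Lab4.val {D : Finset E} {i j k l : E} (h : Lab4 D i j k l) (p q r u : ZMod 5) :
    ∃ β : E → ZMod 5, β i = p ∧ β j = q ∧ β k = r ∧ β l = u :=
  ⟨fun e => if e = i then p else if e = j then q else if e = k then r else u, by simp,
    by simp [h.ij.symm], by simp [h.ik.symm, h.jk.symm], by simp [h.il.symm, h.jl.symm, h.kl.symm]⟩

lemma Lab5.val {D : Finset E} {i j k l m : E} (h : Lab5 D i j k l m) (p q r u v : ZMod 5) :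
    ∃ β : E → ZMod 5, β i = p ∧ β j = q ∧ β k = r ∧ β l = u ∧ β m = v :=
  ⟨fun e => if e = i then p else if e = j then q else if e = k then r else if e = l then u else v,
    by simp, by simp [h.ij.symm], by simp [h.ik.symm, h.jk.symm],
    by simp [h.il.symm, h.jl.symm, h.kl.symm],
    by simp [h.im.symm, h.jm.symm, h.km.symm, h.lm.symm]⟩

/-- the value of a combination of pairing indicators on four ends -/
def val4 (x0 p q r : ℤ) (a b c d : ZMod 5) : ℤ :=
  x0 + (if a + b = 0 then p else 0) + (if a + c = 0 then q else 0) + (if a + d = 0 then r else 0)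

lemma Form.lab4 {D : Finset E} {N : (E → ZMod 5) → ℤ} (hF : Form D N) :
    ∃ (x0 : ℤ) (x : E → E → ℤ), (∀ a b, x a b = x b a) ∧ ∀ i j k l, Lab4 D i j k l → ∀ β, NZ D β →
      N β = val4 x0 (x i j + x k l) (x i k + x j l) (x i l + x j k) (β i) (β j) (β k) (β l) := by
  obtain ⟨x0, x, hx⟩ := hF
  refine ⟨x0, fun a b => x a b + x b a, fun a b => add_comm _ _, fun i j k l h β hβ => ?_⟩
  have h0 := (h.nz.mp hβ).2.2.2.2
  have e1 : β k + β l = 0 ↔ β i + β j = 0 := by
    constructor <;> intro h' <;> linear_combination h0 - h'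
  have e2 : β j + β l = 0 ↔ β i + β k = 0 := by
    constructor <;> intro h' <;> linear_combination h0 - h'
  have e3 : β j + β k = 0 ↔ β i + β l = 0 := by
    constructor <;> intro h' <;> linear_combination h0 - h'
  rw [hx β hβ.1 hβ.2]
  simp only [h.sum, val4, ne_eq, not_true_eq_false, false_and, if_false, h.ij, h.ik, h.il, h.jk,
    h.jl, h.kl, h.ij.symm, h.ik.symm, h.il.symm, h.jk.symm, h.jl.symm, h.kl.symm,
    not_false_eq_true, true_and, add_comm (β j) (β i), add_comm (β k) (β i), add_comm (β l) (β i),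
    add_comm (β k) (β j), add_comm (β l) (β j), add_comm (β l) (β k), e1, e2, e3, ite_add_zero]
  ring

/-- first outcome: `P` lives on the pair `i j`, `P'` avoids it -/
def OutPair (D : Finset E) (P P' : (E → ZMod 5) → Prop) (i j : E) : Prop :=
  (∀ β, NZ D β → P β → β i + β j = 0) ∧ ∀ β, NZ D β → P' β → β i + β j ≠ 0

/-- second outcome: `P` avoids two pairs, `P'` lives on them -/
def OutTree (D : Finset E) (P P' : (E → ZMod 5) → Prop) (i j k l : E) : Prop :=
  (∀ β, NZ D β → P β → β i + β j ≠ 0 ∧ β k + β l ≠ 0) ∧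
    ∀ β, NZ D β → P' β → β i + β j = 0 ∨ β k + β l = 0

lemma cone4_aux {D : Finset E} (hD : D.card = 4) {N N' : (E → ZMod 5) → ℤ} (hF : Form D N)
    (hF' : Form D N') (h0' : ∀ β, 0 ≤ N' β) (hd : ∀ β, NZ D β → N β = 0 ∨ N' β = 0)
    {a b c d : E} (H : Lab4 D a b c d) {γ : E → ZMod 5} (hγ : γ a = 1 ∧ γ b = 1 ∧ γ c = 1 ∧ γ d = 2)
    (hz : N' γ = 0) :
    (∀ β, NZ D β → N β = 0) ∨ (∀ β, NZ D β → N' β = 0) ∨
      ∃ i j k l, Lab4 D i j k l ∧ OutPair D (N' · ≠ 0) (N · ≠ 0) i j := by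
  obtain ⟨x0, x, -, hx⟩ := hF.lab4
  obtain ⟨y0, y, sy, hy⟩ := hF'.lab4
  have hy0 : y0 = 0 := by
    have := hy a b c d H γ (H.nz.mpr (by simp only [hγ]; decide))
    rw [hz] at this
    simp only [hγ, val4] at this
    rw [if_neg (by decide), if_neg (by decide), if_neg (by decide)] at this
    omega
  have hq : ∀ i j k l, Lab4 D i j k l → 0 ≤ y i j + y k l := by
    intro i j k l h
    obtain ⟨β, hβ⟩ := h.val 1 4 2 3
    have := hy i j k l h β (h.nz.mpr (by simp only [hβ]; decide))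
    have h2 := h0' β
    simp only [hβ, val4] at this
    rw [if_pos (by decide), if_neg (by decide), if_neg (by decide)] at this
    omega
  have perm : ∀ i j k l, Lab4 D i j k l → Lab4 D i k j l ∧ Lab4 D i l j k := by
    intro i j k l h
    obtain ⟨hi, hj, hk, hl⟩ := h.mem
    exact ⟨Lab4.of_mem hD hi hk hj hl h.ik h.ij h.il h.jk.symm h.kl h.jl,
      Lab4.of_mem hD hi hl hj hk h.il h.ij h.ik h.jl.symm h.kl.symm h.jk⟩
  by_cases hp : ∃ i j k l, Lab4 D i j k l ∧ 0 < y i j + y k l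
  · obtain ⟨i, j, k, l, h, hpos⟩ := hp
    have q2 := hq _ _ _ _ (perm _ _ _ _ h).1
    have q3 := hq _ _ _ _ (perm _ _ _ _ h).2
    have hz : ∀ β, NZ D β → β i + β j = 0 → N β = 0 := by
      intro β hβ hij
      have := hy i j k l h β hβ
      have := hd β hβ
      simp only [val4, hij, if_true] at *
      split_ifs at * <;> omega
    have e1 : x0 + (x i j + x k l) = 0 := by
      obtain ⟨β, hβ⟩ := h.val 1 4 2 3
      have hβ' : NZ D β := h.nz.mpr (by simp only [hβ]; decide)
      have := hx i j k l h β hβ'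
      rw [hz β hβ' (by simp only [hβ]; decide)] at this
      simp only [hβ, val4] at this
      rw [if_pos (by decide), if_neg (by decide), if_neg (by decide)] at this
      omega
    have e2 : x i k + x j l = 0 := by
      obtain ⟨β, hβ⟩ := h.val 1 4 4 1
      have hβ' : NZ D β := h.nz.mpr (by simp only [hβ]; decide)
      have := hx i j k l h β hβ'
      rw [hz β hβ' (by simp only [hβ]; decide)] at this
      simp only [hβ, val4] at this
      rw [if_pos (by decide), if_pos (by decide), if_neg (by decide)] at this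
      omega
    have e3 : x i l + x j k = 0 := by
      obtain ⟨β, hβ⟩ := h.val 1 4 1 4
      have hβ' : NZ D β := h.nz.mpr (by simp only [hβ]; decide)
      have := hx i j k l h β hβ'
      rw [hz β hβ' (by simp only [hβ]; decide)] at this
      simp only [hβ, val4] at this
      rw [if_pos (by decide), if_neg (by decide), if_pos (by decide)] at this
      omega
    by_cases hx0 : x0 = 0
    · left
      intro β hβ
      rw [hx i j k l h β hβ, e2, e3, show x i j + x k l = 0 by omega, hx0]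
      simp [val4]
    · right; right
      refine ⟨i, j, k, l, h, fun β hβ hN => ?_, fun β hβ hN hij => hN (hz β hβ hij)⟩
      by_contra hij
      have := hx i j k l h β hβ
      rw [e2, e3] at this
      have := hd β hβ
      simp only [val4, hij, if_false, ite_self] at *
      omega
  · push Not at hp
    right; left
    intro β hβ
    have k1 := hp _ _ _ _ H
    have k2 := hp _ _ _ _ (perm _ _ _ _ H).1
    have k3 := hp _ _ _ _ (perm _ _ _ _ H).2
    have q1 := hq _ _ _ _ H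
    have q2 := hq _ _ _ _ (perm _ _ _ _ H).1
    have q3 := hq _ _ _ _ (perm _ _ _ _ H).2
    rw [hy a b c d H β hβ, hy0, show y a b + y c d = 0 by omega, show y a c + y b d = 0 by omega,
      show y a d + y b c = 0 by omega]
    simp [val4]

theorem cone4 {D : Finset E} (hD : D.card = 4) {N N' : (E → ZMod 5) → ℤ} (hF : Form D N)
    (hF' : Form D N') (h0 : ∀ β, 0 ≤ N β) (h0' : ∀ β, 0 ≤ N' β)
    (hd : ∀ β, NZ D β → N β = 0 ∨ N' β = 0) :
    (∀ β, NZ D β → N β = 0) ∨ (∀ β, NZ D β → N' β = 0) ∨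
      ∃ i j k l, Lab4 D i j k l ∧
        (OutPair D (N · ≠ 0) (N' · ≠ 0) i j ∨ OutPair D (N' · ≠ 0) (N · ≠ 0) i j) := by
  obtain ⟨a, b, c, d, H⟩ := exists_lab4 hD
  obtain ⟨γ, hγ⟩ := H.val 1 1 1 2
  rcases hd γ (H.nz.mpr (by simp only [hγ]; decide)) with h | h
  · rcases cone4_aux hD hF' hF h0 (fun β hβ => (hd β hβ).symm) H hγ h with k | k | ⟨i, j, k, l, h1, h2⟩
    · exact Or.inr (Or.inl k)
    · exact Or.inl k
    · exact Or.inr (Or.inr ⟨i, j, k, l, h1, Or.inl h2⟩)
  · rcases cone4_aux hD hF hF' h0' hd H hγ h with k | k | ⟨i, j, k, l, h1, h2⟩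
    · exact Or.inl k
    · exact Or.inr (Or.inl k)
    · exact Or.inr (Or.inr ⟨i, j, k, l, h1, Or.inr h2⟩)

/-- the value of a combination of partition indicators on five ends -/
def val5 (x0 : ℤ) (x : E → E → ℤ) (β : E → ZMod 5) (i j k l m : E) : ℤ :=
  x0 + (if β i + β j = 0 then x i j else 0) + (if β i + β k = 0 then x i k else 0) +
    (if β i + β l = 0 then x i l else 0) + (if β i + β m = 0 then x i m else 0) +
    (if β j + β k = 0 then x j k else 0) + (if β j + β l = 0 then x j l else 0) +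
    (if β j + β m = 0 then x j m else 0) + (if β k + β l = 0 then x k l else 0) +
    (if β k + β m = 0 then x k m else 0) + (if β l + β m = 0 then x l m else 0)

lemma Form.lab5 {D : Finset E} {N : (E → ZMod 5) → ℤ} (hF : Form D N) :
    ∃ (x0 : ℤ) (x : E → E → ℤ), (∀ a b, x a b = x b a) ∧ ∀ i j k l m, Lab5 D i j k l m →
      ∀ β, NZ D β → N β = val5 x0 x β i j k l m := by
  obtain ⟨x0, x, hx⟩ := hF
  refine ⟨x0, fun a b => x a b + x b a, fun a b => add_comm _ _, fun i j k l m h β hβ => ?_⟩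
  rw [hx β hβ.1 hβ.2]
  simp only [h.sum, val5, ne_eq, not_true_eq_false, false_and, if_false, h.ij, h.ik, h.il, h.im,
    h.jk, h.jl, h.jm, h.kl, h.km, h.lm, h.ij.symm, h.ik.symm, h.il.symm, h.im.symm, h.jk.symm,
    h.jl.symm, h.jm.symm, h.kl.symm, h.km.symm, h.lm.symm,
    not_false_eq_true, true_and, add_comm (β j) (β i), add_comm (β k) (β i), add_comm (β l) (β i),
    add_comm (β m) (β i), add_comm (β k) (β j), add_comm (β l) (β j), add_comm (β m) (β j),
    add_comm (β l) (β k), add_comm (β m) (β k), add_comm (β m) (β l), ite_add_zero]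
  ring

lemma cone5_aux {D : Finset E} (hD : D.card = 5) {N N' : (E → ZMod 5) → ℤ} (hF : Form D N)
    (hF' : Form D N') (h0' : ∀ β, 0 ≤ N' β) (hd : ∀ β, NZ D β → N β = 0 ∨ N' β = 0)
    (hz : N' (fun _ => 1) = 0) :
    (∀ β, NZ D β → N β = 0) ∨ (∀ β, NZ D β → N' β = 0) ∨
      ∃ i j k l m, Lab5 D i j k l m ∧ (OutPair D (N · ≠ 0) (N' · ≠ 0) i j ∨
        OutPair D (N' · ≠ 0) (N · ≠ 0) i j ∨ OutTree D (N · ≠ 0) (N' · ≠ 0) i j k l) := by
  obtain ⟨x0, x, sx, hx⟩ := hF.lab5
  obtain ⟨y0, y, sy, hy⟩ := hF'.lab5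
  obtain ⟨a, b, c, d, e, H⟩ := exists_lab5 hD
  have hy0 : y0 = 0 := by
    have := hy a b c d e H (fun _ => 1) (H.nz.mpr (by decide))
    rw [hz] at this
    have h1 : ¬ ((1 : ZMod 5) + 1 = 0) := by decide
    simp only [val5, h1, if_false] at this
    omega
  subst hy0
  have hA : ∀ {i j k : E}, i ∈ D → j ∈ D → k ∈ D → i ≠ j → i ≠ k → j ≠ k →
      0 ≤ y i j + y i k ∧ (x0 + x i j + x i k = 0 ∨ y i j + y i k = 0) := by
    intro i j k hi hj hk ij ik jk
    obtain ⟨l, m, h⟩ := exists_lab5_three hD hi hj hk ij ik jk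
    obtain ⟨β, hβ⟩ := h.val 4 1 1 2 2
    have hβ' : NZ D β := h.nz.mpr (by simp only [hβ]; decide)
    have k1 := hx i j k l m h β hβ'
    have k2 := hy i j k l m h β hβ'
    have k3 := hd β hβ'
    have k4 := h0' β
    have h1 : (4 : ZMod 5) + 1 = 0 := by decide
    have h2 : ¬ ((4 : ZMod 5) + 2 = 0) := by decide
    have h3 : ¬ ((1 : ZMod 5) + 1 = 0) := by decide
    have h4 : ¬ ((1 : ZMod 5) + 2 = 0) := by decide
    have h5 : ¬ ((2 : ZMod 5) + 2 = 0) := by decide
    simp only [val5, hβ, h1, h2, h3, h4, h5, if_true, if_false] at k1 k2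
    omega
  have hB : ∀ {i j k l : E}, i ∈ D → j ∈ D → k ∈ D → l ∈ D → i ≠ j → i ≠ k → i ≠ l → j ≠ k →
      j ≠ l → k ≠ l → x0 + x i j + x i k + x i l = 0 ∨ y i j + y i k + y i l = 0 := by
    intro i j k l hi hj hk hl ij ik il jk jl kl
    obtain ⟨m, h⟩ := exists_lab5_four hD hi hj hk hl ij ik il jk jl kl
    obtain ⟨β, hβ⟩ := h.val 4 1 1 1 3
    have hβ' : NZ D β := h.nz.mpr (by simp only [hβ]; decide)
    have k1 := hx i j k l m h β hβ'
    have k2 := hy i j k l m h β hβ'
    have k3 := hd β hβ'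
    have h1 : (4 : ZMod 5) + 1 = 0 := by decide
    have h2 : ¬ ((4 : ZMod 5) + 3 = 0) := by decide
    have h3 : ¬ ((1 : ZMod 5) + 1 = 0) := by decide
    have h4 : ¬ ((1 : ZMod 5) + 3 = 0) := by decide
    simp only [val5, hβ, h1, h2, h3, h4, if_true, if_false] at k1 k2
    omega
  by_cases hneg : ∃ i ∈ D, ∃ j ∈ D, i ≠ j ∧ y i j < 0
  · obtain ⟨i, hi, j, hj, ij, hij⟩ := hneg
    obtain ⟨k, l, m, h⟩ := exists_lab5_two hD hi hj ij
    obtain ⟨-, -, hk, hl, hm⟩ := h.mem
    have p1 := (hA hi hj hk ij h.ik h.jk).1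
    have p2 := (hA hi hj hl ij h.il h.jl).1
    have p3 := (hA hi hj hm ij h.im h.jm).1
    have p4 := (hA hj hi hk ij.symm h.jk h.ik).1
    have p5 := (hA hj hi hl ij.symm h.jl h.il).1
    have p6 := (hA hj hi hm ij.symm h.jm h.im).1
    have p7 := (hA hk hi hl h.ik.symm h.kl h.il).1
    have p8 := (hA hk hi hm h.ik.symm h.km h.im).1
    have p9 := (hA hl hi hm h.il.symm h.lm h.im).1
    rw [sy j i] at p4 p5 p6
    have e1 := (hA hi hk hl h.ik h.il h.kl).2.resolve_right (by omega)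
    have e2 := (hA hi hk hm h.ik h.im h.km).2.resolve_right (by omega)
    have e3 := (hA hi hl hm h.il h.im h.lm).2.resolve_right (by omega)
    have e4 := (hB hi hk hl hm h.ik h.il h.im h.kl h.km h.lm).resolve_right (by omega)
    have e5 := (hB hi hj hk hl ij h.ik h.il h.jk h.jl h.kl).resolve_right (by omega)
    have e6 := (hA hj hk hl h.jk h.jl h.kl).2.resolve_right (by omega)
    have e7 := (hA hj hk hm h.jk h.jm h.km).2.resolve_right (by omega)
    have e8 := (hA hj hl hm h.jl h.jm h.lm).2.resolve_right (by omega)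
    have e9 := (hB hk hi hj hl h.ik.symm h.jk.symm h.kl ij h.il h.jl).resolve_right
      (by rw [sy k j]; omega)
    have e10 := (hB hk hi hj hm h.ik.symm h.jk.symm h.km ij h.im h.jm).resolve_right
      (by rw [sy k j]; omega)
    have e11 := (hB hl hi hj hm h.il.symm h.jl.symm h.lm ij h.im h.jm).resolve_right
      (by rw [sy l j]; omega)
    rw [sx k i, sx k j] at e9 e10
    rw [sx l i, sx l j] at e11
    left
    intro β hβ
    rw [hx i j k l m h β hβ, val5, show x0 = 0 by omega, show x i j = 0 by omega,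
      show x i k = 0 by omega, show x i l = 0 by omega, show x i m = 0 by omega,
      show x j k = 0 by omega, show x j l = 0 by omega, show x j m = 0 by omega,
      show x k l = 0 by omega, show x k m = 0 by omega, show x l m = 0 by omega]
    simp
  push Not at hneg
  have piece : ∀ i j k l m, Lab5 D i j k l m → 0 < y i j → x0 + x i j = 0 ∧ x i k = 0 ∧
      x i l = 0 ∧ x i m = 0 ∧ x j k = 0 ∧ x j l = 0 ∧ x j m = 0 := by
    intro i j k l m h hij
    obtain ⟨hi, hj, hk, hl, hm⟩ := h.mem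
    have p1 := hneg i hi k hk h.ik
    have p2 := hneg i hi l hl h.il
    have p3 := hneg i hi m hm h.im
    have p4 := hneg j hj k hk h.jk
    have p5 := hneg j hj l hl h.jl
    have p6 := hneg j hj m hm h.jm
    have e1 := (hA hi hj hk h.ij h.ik h.jk).2.resolve_right (by omega)
    have e2 := (hA hi hj hl h.ij h.il h.jl).2.resolve_right (by omega)
    have e3 := (hB hi hj hk hl h.ij h.ik h.il h.jk h.jl h.kl).resolve_right (by omega)
    have e4 := (hB hi hj hk hm h.ij h.ik h.im h.jk h.jm h.km).resolve_right (by omega)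
    have e5 := (hA hj hi hk h.ij.symm h.jk h.ik).2.resolve_right (by rw [sy j i]; omega)
    have e6 := (hA hj hi hl h.ij.symm h.jl h.il).2.resolve_right (by rw [sy j i]; omega)
    have e7 := (hA hj hi hm h.ij.symm h.jm h.im).2.resolve_right (by rw [sy j i]; omega)
    rw [sx j i] at e5 e6 e7
    omega
  by_cases hadj : ∃ i ∈ D, ∃ j ∈ D, ∃ k ∈ D, i ≠ j ∧ i ≠ k ∧ j ≠ k ∧ 0 < y i j ∧ 0 < y i k
  · obtain ⟨i, hi, j, hj, k, hk, ij, ik, jk, hij, hik⟩ := hadj
    obtain ⟨l, m, h⟩ := exists_lab5_three hD hi hj hk ij ik jk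
    obtain ⟨-, -, -, hl, hm⟩ := h.mem
    have e1 := piece _ _ _ _ _ h hij
    have e2 := piece _ _ _ _ _
      (Lab5.of_mem hD hi hk hj hl hm ik ij h.il h.im jk.symm h.kl h.km h.jl h.jm h.lm) hik
    have hN : ∀ β, NZ D β → N β = if β l + β m = 0 then x l m else 0 := by
      intro β hβ
      rw [hx i j k l m h β hβ, val5, show x0 = 0 by omega, show x i j = 0 by omega,
        show x i k = 0 by omega, show x i l = 0 by omega, show x i m = 0 by omega,
        show x j k = 0 by omega, show x j l = 0 by omega, show x j m = 0 by omega,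
        show x k l = 0 by omega, show x k m = 0 by omega]
      simp
    by_cases hlm : x l m = 0
    · left; intro β hβ; rw [hN β hβ, hlm, ite_self]
    · right; right
      refine ⟨l, m, i, j, k, Lab5.of_mem hD hl hm hi hj hk h.lm h.il.symm h.jl.symm h.kl.symm
        h.im.symm h.jm.symm h.km.symm ij ik jk, Or.inl ⟨fun β hβ h1 => ?_, fun β hβ h1 h2 => ?_⟩⟩
      · by_contra h2
        exact h1 (by rw [hN β hβ, if_neg h2])
      · have := hd β hβ
        rw [hN β hβ, if_pos h2] at this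
        tauto
  push Not at hadj
  have hadj' : ∀ {i j k : E}, i ∈ D → j ∈ D → k ∈ D → i ≠ j → i ≠ k → j ≠ k → 0 < y i j →
      y i k = 0 := fun hi hj hk ij ik jk h =>
    le_antisymm (hadj _ hi _ hj _ hk ij ik jk h) (hneg _ hi _ hk ik)
  by_cases hpos : ∃ i ∈ D, ∃ j ∈ D, i ≠ j ∧ 0 < y i j
  · obtain ⟨i, hi, j, hj, ij, hij⟩ := hpos
    have hji : 0 < y j i := by rwa [sy]
    right; right
    by_cases hdis : ∃ k l m, Lab5 D i j k l m ∧ 0 < y k l
    · obtain ⟨k, l, m, h, hkl⟩ := hdis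
      obtain ⟨-, -, hk, hl, hm⟩ := h.mem
      have hN : ∀ β, NZ D β → N' β =
          (if β i + β j = 0 then y i j else 0) + if β k + β l = 0 then y k l else 0 := by
        intro β hβ
        rw [hy i j k l m h β hβ, val5, hadj' hi hj hk ij h.ik h.jk hij,
          hadj' hi hj hl ij h.il h.jl hij, hadj' hi hj hm ij h.im h.jm hij,
          hadj' hj hi hk ij.symm h.jk h.ik hji, hadj' hj hi hl ij.symm h.jl h.il hji,
          hadj' hj hi hm ij.symm h.jm h.im hji, hadj' hk hl hm h.kl h.km h.lm hkl,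
          hadj' hl hk hm h.kl.symm h.lm h.km (by rwa [sy])]
        simp
      refine ⟨i, j, k, l, m, h, Or.inr (Or.inr ⟨fun β hβ h1 => ?_, fun β hβ h1 => ?_⟩)⟩
      · have h2 := (hd β hβ).resolve_left h1
        rw [hN β hβ] at h2
        constructor <;> intro h3 <;> simp only [h3, if_true] at h2 <;> split_ifs at h2 <;> omega
      · by_contra h2
        push Not at h2
        exact h1 (by rw [hN β hβ, if_neg h2.1, if_neg h2.2, add_zero])
    · push Not at hdis
      obtain ⟨k, l, m, h⟩ := exists_lab5_two hD hi hj ij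
      obtain ⟨-, -, hk, hl, hm⟩ := h.mem
      have hN : ∀ β, NZ D β → N' β = if β i + β j = 0 then y i j else 0 := by
        intro β hβ
        rw [hy i j k l m h β hβ, val5, hadj' hi hj hk ij h.ik h.jk hij,
          hadj' hi hj hl ij h.il h.jl hij, hadj' hi hj hm ij h.im h.jm hij,
          hadj' hj hi hk ij.symm h.jk h.ik hji, hadj' hj hi hl ij.symm h.jl h.il hji,
          hadj' hj hi hm ij.symm h.jm h.im hji,
          le_antisymm (hdis k l m h) (hneg k hk l hl h.kl),
          le_antisymm (hdis k m l (Lab5.of_mem hD hi hj hk hm hl ij h.ik h.im h.il h.jk h.jm h.jl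
            h.km h.kl h.lm.symm)) (hneg k hk m hm h.km),
          le_antisymm (hdis l m k (Lab5.of_mem hD hi hj hl hm hk ij h.il h.im h.ik h.jl h.jm h.jk
            h.lm h.kl.symm h.km.symm)) (hneg l hl m hm h.lm)]
        simp
      refine ⟨i, j, k, l, m, h, Or.inr (Or.inl ⟨fun β hβ h1 => ?_, fun β hβ h1 h2 => ?_⟩)⟩
      · by_contra h2
        exact h1 (by rw [hN β hβ, if_neg h2])
      · have := (hd β hβ).resolve_left h1
        rw [hN β hβ, if_pos h2] at this
        omega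
  · push Not at hpos
    have h0 : ∀ {i j : E}, i ∈ D → j ∈ D → i ≠ j → y i j = 0 := fun hi hj ij =>
      le_antisymm (hpos _ hi _ hj ij) (hneg _ hi _ hj ij)
    obtain ⟨ha, hb, hc, hd', he⟩ := H.mem
    right; left
    intro β hβ
    rw [hy a b c d e H β hβ, val5, h0 ha hb H.ij, h0 ha hc H.ik, h0 ha hd' H.il, h0 ha he H.im,
      h0 hb hc H.jk, h0 hb hd' H.jl, h0 hb he H.jm, h0 hc hd' H.kl, h0 hc he H.km, h0 hd' he H.lm]
    simp

theorem cone5 {D : Finset E} (hD : D.card = 5) {N N' : (E → ZMod 5) → ℤ} (hF : Form D N)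
    (hF' : Form D N') (h0 : ∀ β, 0 ≤ N β) (h0' : ∀ β, 0 ≤ N' β)
    (hd : ∀ β, NZ D β → N β = 0 ∨ N' β = 0) :
    (∀ β, NZ D β → N β = 0) ∨ (∀ β, NZ D β → N' β = 0) ∨
      ∃ i j k l m, Lab5 D i j k l m ∧ (OutPair D (N · ≠ 0) (N' · ≠ 0) i j ∨
        OutPair D (N' · ≠ 0) (N · ≠ 0) i j ∨ OutTree D (N · ≠ 0) (N' · ≠ 0) i j k l ∨
          OutTree D (N' · ≠ 0) (N · ≠ 0) i j k l) := by
  obtain ⟨a, b, c, d, e, H⟩ := exists_lab5 hD
  rcases hd (fun _ => 1) (H.nz.mpr (by decide)) with h | h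
  · rcases cone5_aux hD hF' hF h0 (fun β hβ => (hd β hβ).symm) h with k | k | ⟨i, j, k, l, m, h1, h2⟩
    · exact Or.inr (Or.inl k)
    · exact Or.inl k
    · exact Or.inr (Or.inr ⟨i, j, k, l, m, h1, by tauto⟩)
  · rcases cone5_aux hD hF hF' h0' hd h with k | k | ⟨i, j, k, l, m, h1, h2⟩
    · exact Or.inl k
    · exact Or.inr (Or.inl k)
    · exact Or.inr (Or.inr ⟨i, j, k, l, m, h1, by tauto⟩)

end Pool.Agent.Lib.MP_c8786f_co.WO
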