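import Pool.Agent.Lib.MP_c8786f_co.WO.Basic
import Pool.Agent.Shared.HoffmanCirc

/-!
Orientations of the odd subgraph, the balance criterion for a nowhere-zero 5-flow, bad cuts.
-/

namespace Pool.Agent.Lib.MP_c8786f_co.WO

open Finset

set_option linter.unusedSectionVars false

variable {V E : Type} [Fintype V] [DecidableEq V] [Fintype E] [DecidableEq E]

lemma hoffman' (s t : E → V) (l u : E → ℤ) (b : V → ℤ) (hb : ∑ v, b v = 0) (hlu : ∀ e, l e ≤ u e)
    (h : ∀ X : Finset V, ∑ v ∈ X, b v ≤ ∑ e ∈ cut s t X, if s e ∈ X then u e else - l e) :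
    ∃ f : E → ℤ, (∀ e, l e ≤ f e ∧ f e ≤ u e) ∧ ∀ v, bd s t f v = b v := by
  obtain ⟨f, h1, h2⟩ := Pool.Agent.Shared.HoffmanCirc.hoffman s t l u b hb hlu (fun X => by
    refine (h X).trans (le_of_eq ?_)
    unfold cut
    rw [sum_filter, sum_filter, sum_filter, ← sum_sub_distrib]
    refine sum_congr rfl fun e _ => ?_
    by_cases h1 : s e ∈ X <;> by_cases h2 : t e ∈ X <;> simp [h1, h2])
  exact ⟨f, h1, fun v => by rw [bd_eq_filter, h2]⟩

lemma bd_cast {n : ℕ} (s t : E → V) (g : E → ℤ) (v : V) :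
    bd s t (fun e => (g e : ZMod n)) v = ((bd s t g v : ℤ) : ZMod n) :=
  bd_map s t (Int.castAddHom (ZMod n)) g v

lemma bd_mul (s t : E → V) (k : ℤ) (g : E → ℤ) (v : V) :
    bd s t (fun e => k * g e) v = k * bd s t g v :=
  bd_map s t (AddMonoidHom.mulLeft k) g v

/-- a `ZMod 5` flow gives an integer 5-flow -/
lemma HasFlow.int {s t : E → V} (h : HasFlow s t) :
    ∃ f : E → ℤ, (∀ e, f e ≠ 0 ∧ |f e| ≤ 4) ∧ ∀ v, bd s t f v = 0 := by
  obtain ⟨g, hg, hg'⟩ := h
  let r : E → ℤ := fun e => ((g e).val : ℤ)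
  have hr : ∀ e, 1 ≤ r e ∧ r e ≤ 4 := by
    intro e
    have h1 := ZMod.val_lt (g e)
    have h2 : (g e).val ≠ 0 := fun h => hg e ((ZMod.val_eq_zero _).mp h)
    simp only [r]; omega
  have hd : ∀ v, (5 : ℤ) ∣ bd s t r v := by
    intro v
    have h1 := bd_cast (n := 5) s t r v
    have h2 : (fun e => ((r e : ℤ) : ZMod 5)) = g := by funext e; simp [r]
    rw [h2, hg'] at h1
    exact_mod_cast (ZMod.intCast_zmod_eq_zero_iff_dvd _ 5).mp h1.symm
  choose b hb using hd
  obtain ⟨y, hy, hy'⟩ := hoffman' s t 0 1 b (by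
      have := sum_bd_univ s t r
      rw [sum_congr rfl fun v _ => hb v, ← mul_sum] at this
      omega) (fun e => by simp) (by
      intro X
      have h1 := sum_bd s t r X
      rw [sum_congr rfl fun v _ => hb v, ← mul_sum] at h1
      have h2 : ∑ e ∈ cut s t X, out s X r e ≤
          ∑ e ∈ cut s t X, 5 * (if s e ∈ X then (1 : E → ℤ) e else - (0 : E → ℤ) e) := by
        refine sum_le_sum fun e _ => ?_
        have := hr e
        unfold out
        split_ifs <;> simp <;> omega
      rw [← mul_sum] at h2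
      omega)
  refine ⟨r - fun e => 5 * y e, fun e => ?_, fun v => ?_⟩
  · have h1 := hr e
    have h2 := hy e
    simp only [Pi.zero_apply, Pi.one_apply] at h2
    simp only [Pi.sub_apply]
    exact ⟨by omega, abs_le.mpr ⟨by omega, by omega⟩⟩
  · rw [bd_sub, bd_mul, hy', hb, sub_self]

/-- `σ` orients the edges with `j e = 1` -/
def Ori (j : E → ZMod 2) (σ : E → ℤ) : Prop :=
  ∀ e, (j e = 0 ∧ σ e = 0) ∨ (j e = 1 ∧ (σ e = 1 ∨ σ e = -1))

lemma exists_ori (s t : E → V) (j : E → ZMod 2) (z : V → ℤ) (hz : ∑ v, z v = 0)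
    (hpar : ∀ v, (z v : ZMod 2) = bd s t j v)
    (h : ∀ X : Finset V, ∑ v ∈ X, z v ≤ (((cut s t X).filter fun e => j e = 1).card : ℤ)) :
    ∃ σ, Ori j σ ∧ ∀ v, bd s t σ v = z v := by
  let o : E → ℤ := fun e => if j e = 1 then 1 else 0
  have hd : ∀ v, (2 : ℤ) ∣ z v + bd s t o v := by
    intro v
    have h1 := bd_cast (n := 2) s t o v
    have h2 : (fun e => ((o e : ℤ) : ZMod 2)) = j := by
      funext e; rcases z2_cases (j e) with h | h <;> simp [o, h]
    rw [h2] at h1
    have h3 : ((z v + bd s t o v : ℤ) : ZMod 2) = 0 := by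
      push_cast
      rw [hpar, ← h1]
      exact CharTwo.add_self_eq_zero _
    exact_mod_cast (ZMod.intCast_zmod_eq_zero_iff_dvd _ 2).mp h3
  choose b hb using hd
  have hs : ∀ X : Finset V, 2 * ∑ v ∈ X, b v = ∑ v ∈ X, z v + ∑ e ∈ cut s t X, out s X o e := by
    intro X
    rw [← sum_bd, ← sum_add_distrib, mul_sum]
    exact sum_congr rfl fun v _ => (hb v).symm
  obtain ⟨y, hy, hy'⟩ := hoffman' s t 0 o b (by
      have := hs univ
      rw [cut_univ, sum_empty, hz] at this
      omega) (fun e => by simp only [o, Pi.zero_apply]; split_ifs <;> omega) (by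
      intro X
      have h1 := hs X
      have h2 := h X
      have h3 : 2 * ∑ e ∈ cut s t X, (if s e ∈ X then o e else - (0 : E → ℤ) e) =
          (((cut s t X).filter fun e => j e = 1).card : ℤ) + ∑ e ∈ cut s t X, out s X o e := by
        rw [← sum_boole, ← sum_add_distrib, mul_sum]
        refine sum_congr rfl fun e _ => ?_
        unfold out
        simp only [o]
        split_ifs <;> simp
      omega)
  refine ⟨(fun e => 2 * y e) - o, fun e => ?_, fun v => ?_⟩
  · have h2 := hy e
    simp only [Pi.zero_apply, o] at h2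
    simp only [Pi.sub_apply, o]
    rcases z2_cases (j e) with h | h
    · left; simp only [h] at h2 ⊢; simp at h2 ⊢; omega
    · right; simp only [h] at h2 ⊢; simp only [if_true] at h2 ⊢; exact ⟨trivial, by omega⟩
  · rw [bd_sub, bd_mul, hy']
    have := hb v
    omega

/-- the part of `σ` outside the even subgraph -/
def apart (c : E → ZMod 2) (σ : E → ℤ) : E → ℤ := fun e => if c e = 0 then σ e else 0

lemma flow_of_balanced {s t : E → V} {c j : E → ZMod 2} (hS : State s t c j) {σ : E → ℤ}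
    (hσ : Ori j σ)
    (h : ∀ X : Finset V, 5 * ∑ v ∈ X, bd s t (apart c σ) v ≤ 3 * ((cut s t X).card : ℤ)) :
    HasFlow s t := by
  let w : E → ℤ := fun e => if j e = 0 then 1 else if c e = 0 then 0 else - σ e
  have hd : ∀ v, (2 : ℤ) ∣ bd s t w v := by
    intro v
    have h1 := bd_cast (n := 2) s t w v
    have h2 : (fun e => ((w e : ℤ) : ZMod 2)) = c := by
      funext e
      have h3 := hS.cover e
      rcases z2_cases (c e) with hc | hc
      · simp [w, hc, h3 hc]
      · rcases hσ e with ⟨h4, h5⟩ | ⟨h4, h5 | h5⟩ <;> simp [w, hc, h4, h5]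
    rw [h2, hS.even] at h1
    exact_mod_cast (ZMod.intCast_zmod_eq_zero_iff_dvd _ 2).mp h1.symm
  choose b hb using hd
  let l : E → ℤ := fun e => if 0 < σ e + 2 * w e then 1 else -4
  let u : E → ℤ := fun e => if 0 < σ e + 2 * w e then 4 else -1
  have hs : ∀ X : Finset V, 2 * ∑ v ∈ X, b v = ∑ e ∈ cut s t X, out s X w e := by
    intro X
    rw [← sum_bd, mul_sum]
    exact sum_congr rfl fun v _ => (hb v).symm
  obtain ⟨y, hy, hy'⟩ := hoffman' s t l u (fun v => 5 * b v) (by
      have := hs univ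
      rw [cut_univ, sum_empty] at this
      rw [← mul_sum]
      omega) (fun e => by simp only [l, u]; split_ifs <;> omega) (by
      intro X
      have h1 := hs X
      have h2 := h Xᶜ
      rw [sum_bd, cut_compl, sum_congr rfl fun e _ => out_compl s X _ e, sum_neg_distrib] at h2
      have h3 : 4 * ∑ e ∈ cut s t X, (if s e ∈ X then u e else - l e) =
          10 * ∑ e ∈ cut s t X, out s X w e + 6 * ((cut s t X).card : ℤ) +
            10 * ∑ e ∈ cut s t X, out s X (apart c σ) e := by
        rw [card_eq_sum_ones, Nat.cast_sum, mul_sum, mul_sum, mul_sum, mul_sum, ← sum_add_distrib,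
          ← sum_add_distrib]
        refine sum_congr rfl fun e _ => ?_
        have h3 := hS.cover e
        unfold out apart
        rcases z2_cases (c e) with hc | hc
        · have h4 := h3 hc
          rcases hσ e with ⟨h4', h5⟩ | ⟨_, h5 | h5⟩
          · simp [h4] at h4'
          · by_cases hX : s e ∈ X <;> simp [l, u, w, hc, h4, h5, hX]
          · by_cases hX : s e ∈ X <;> simp [l, u, w, hc, h4, h5, hX]
        · rcases hσ e with ⟨h4, h5⟩ | ⟨h4, h5 | h5⟩ <;> by_cases hX : s e ∈ X <;>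
            simp [l, u, w, hc, h4, h5, hX]
      rw [← mul_sum]
      omega)
  refine ⟨fun e => (y e : ZMod 5), fun e he => ?_, fun v => ?_⟩
  · have h1 := hy e
    have h2 : (5 : ℤ) ∣ y e := by exact_mod_cast (ZMod.intCast_zmod_eq_zero_iff_dvd _ 5).mp he
    simp only [l, u] at h1
    split_ifs at h1 <;> omega
  · rw [bd_cast, hy']
    exact (ZMod.intCast_zmod_eq_zero_iff_dvd _ 5).mpr (by simp)

/-- number of cut edges outside the even subgraph -/
def na (s t : E → V) (c : E → ZMod 2) (X : Finset V) : ℕ :=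
  ((cut s t X).filter fun e => c e = 0).card

/-- number of cut edges in both subgraphs -/
def nb (s t : E → V) (c j : E → ZMod 2) (X : Finset V) : ℕ :=
  ((cut s t X).filter fun e => c e = 1 ∧ j e = 1).card

/-- number of cut edges outside the odd subgraph -/
def nm (s t : E → V) (j : E → ZMod 2) (X : Finset V) : ℕ :=
  ((cut s t X).filter fun e => j e = 0).card

lemma State.counts {s t : E → V} {c j : E → ZMod 2} (hS : State s t c j) (X : Finset V) :
    na s t c X + nb s t c j X + nm s t j X = (cut s t X).card ∧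
    (nb s t c j X + nm s t j X) % 2 = 0 ∧
    (na s t c X + nb s t c j X) % 2 = (X ∩ ter s t j).card % 2 := by
  have h1 := cut_parity s t c X
  have h2 := cut_parity s t j X
  have h3 : ter s t c = ∅ := by ext v; simp [mem_ter, hS.even v]
  rw [h3, inter_empty, card_empty, Nat.zero_mod] at h1
  have key : ∀ e, (c e = 0 ∧ j e = 1) ∨ (c e = 1 ∧ j e = 1) ∨ (c e = 1 ∧ j e = 0) := by
    intro e
    have := hS.cover e
    rcases z2_cases (c e) with h | h <;> rcases z2_cases (j e) with h' | h' <;> simp_all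
  refine ⟨?_, ?_, ?_⟩
  · simp only [na, nb, nm, card_filter]
    rw [card_eq_sum_ones, ← sum_add_distrib, ← sum_add_distrib]
    refine sum_congr rfl fun e _ => ?_
    rcases key e with h | h | h <;> simp [h.1, h.2]
  · rw [← h1]
    congr 1
    simp only [nb, nm, card_filter]
    rw [← sum_add_distrib]
    refine sum_congr rfl fun e _ => ?_
    rcases key e with h | h | h <;> simp [h.1, h.2]
  · rw [← h2]
    congr 1
    simp only [na, nb, card_filter]
    rw [← sum_add_distrib]
    refine sum_congr rfl fun e _ => ?_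
    rcases key e with h | h | h <;> simp [h.1, h.2]

lemma sum_pm {D : Finset E} {P : E → Prop} [DecidablePred P] {f : E → ℤ}
    (h : ∀ e ∈ D, (P e ∧ (f e = 1 ∨ f e = -1)) ∨ (¬ P e ∧ f e = 0)) :
    ∃ n : ℕ, n ≤ (D.filter P).card ∧ ∑ e ∈ D, f e = 2 * (n : ℤ) - (D.filter P).card ∧
      (n = (D.filter P).card → ∀ e ∈ D, P e → f e = 1) ∧ (n = 0 → ∀ e ∈ D, f e ≠ 1) := by
  have hsub : (D.filter fun e => f e = 1) ⊆ D.filter P := by
    intro e he
    rw [mem_filter] at he ⊢
    rcases h e he.1 with h1 | h1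
    · exact ⟨he.1, h1.1⟩
    · omega
  refine ⟨(D.filter fun e => f e = 1).card, card_le_card hsub, ?_, fun hn e he hP => ?_,
    fun hn e he h1 => ?_⟩
  · rw [← sum_boole, ← sum_boole, mul_sum, ← sum_sub_distrib]
    refine sum_congr rfl fun e he => ?_
    rcases h e he with ⟨h1, h2 | h2⟩ | ⟨h1, h2⟩ <;> simp [h1, h2]
  · have := eq_of_subset_of_card_le hsub hn.ge
    have h1 : e ∈ D.filter P := mem_filter.mpr ⟨he, hP⟩
    rw [← this] at h1
    exact (mem_filter.mp h1).2
  · rw [card_eq_zero] at hn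
    have : e ∈ D.filter fun e => f e = 1 := mem_filter.mpr ⟨he, h1⟩
    rw [hn] at this
    simp at this

lemma State.facts {s t : E → V} {c j : E → ZMod 2} (hS : State s t c j) {σ : E → ℤ}
    (hσ : Ori j σ) (X : Finset V) :
    ∃ n n' : ℕ, n ≤ na s t c X ∧ n' ≤ nb s t c j X ∧
      ∑ v ∈ X, bd s t (apart c σ) v = 2 * (n : ℤ) - na s t c X ∧
      ∑ v ∈ X, bd s t (apart c σ) v - ∑ v ∈ X, bd s t σ v = 2 * (n' : ℤ) - nb s t c j X ∧
      (n = na s t c X → ∀ e ∈ cut s t X, c e = 0 → out s X σ e = 1) ∧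
      (n' = nb s t c j X → ∀ e ∈ cut s t X, c e = 1 → j e = 1 → out s X σ e = -1) ∧
      (n = 0 → ∀ e ∈ cut s t X, c e = 0 → out s X σ e ≠ 1) ∧
      (n' = 0 → ∀ e ∈ cut s t X, c e = 1 → out s X σ e ≠ -1) := by
  obtain ⟨n, h1, h2, h3, h4⟩ := sum_pm (D := cut s t X) (P := fun e => c e = 0)
    (f := out s X (apart c σ)) (by
      intro e _
      have := hS.cover e
      unfold out apart
      by_cases hc : c e = 0
      · rcases hσ e with ⟨h4, h5⟩ | ⟨h4, h5 | h5⟩
        · simp [this hc] at h4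
        · by_cases hX : s e ∈ X <;> simp [hc, h5, hX]
        · by_cases hX : s e ∈ X <;> simp [hc, h5, hX]
      · simp [hc])
  obtain ⟨n', h1', h2', h3', h4'⟩ := sum_pm (D := cut s t X) (P := fun e => c e = 1 ∧ j e = 1)
    (f := out s X (apart c σ - σ)) (by
      intro e _
      unfold out apart
      rcases z2_cases (c e) with hc | hc
      · simp [hc]
      · rcases hσ e with ⟨h4, h5⟩ | ⟨h4, h5 | h5⟩ <;> by_cases hX : s e ∈ X <;>
          simp [hc, h4, h5, hX])
  refine ⟨n, n', h1, h1', by rw [sum_bd, h2]; rfl, ?_, fun hn e he hc => ?_,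
    fun hn e he hc hj => ?_, fun hn e he hc => ?_, fun hn e he hc => ?_⟩
  · rw [← sum_sub_distrib, sum_congr rfl fun v _ => (bd_sub s t _ _ v).symm, sum_bd, h2']; rfl
  · have := h3 hn e he hc
    simpa [out, apart, hc] using this
  · have := h3' hn e he ⟨hc, hj⟩
    unfold out apart at *
    by_cases hX : s e ∈ X <;> simp [hc, hX] at this ⊢ <;> omega
  · have := h4 hn e he
    simpa [out, apart, hc] using this
  · have := h4' hn e he
    unfold out apart at *
    by_cases hX : s e ∈ X <;> simp [hc, hX] at this ⊢ <;> omega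

/-- plus one on `P`, minus one on `Q` -/
def zPQ (P Q : Finset V) (v : V) : ℤ := (if v ∈ P then 1 else 0) - (if v ∈ Q then 1 else 0)

lemma sum_zPQ (P Q X : Finset V) :
    ∑ v ∈ X, zPQ P Q v = ((X ∩ P).card : ℤ) - (X ∩ Q).card := by
  unfold zPQ
  rw [sum_sub_distrib, sum_boole, sum_boole, filter_mem_eq_inter, filter_mem_eq_inter]

/-- a cut violating the balance condition -/
structure Bad (s t : E → V) (c j : E → ZMod 2) (σ : E → ℤ) (X : Finset V) : Prop where
  six : (cut s t X).card = 6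
  closed : ∀ e ∈ cut s t X, j e = 1
  aout : ∀ e ∈ cut s t X, c e = 0 → out s X σ e = 1
  bin : ∀ e ∈ cut s t X, c e = 1 → out s X σ e = -1
  four : ∑ v ∈ X, bd s t (apart c σ) v = 4

lemma core {s t : E → V} {c j : E → ZMod 2} (hS : State s t c j) (hb : Bridgeless s t)
    {P Q : Finset V} (hT : ter s t j = P ∪ Q) (hd : Disjoint P Q) (hc : P.card = Q.card)
    (h2 : P.card ≤ 2)
    (hsep : ∀ X, P.card = 2 → P ⊆ X → Disjoint X Q → ∃ e ∈ cut s t X, j e = 1)
    (hcut : ∀ X, P.card = 2 → P ⊆ X → Disjoint X Q → (cut s t X).card ≠ 2)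
    (hn : ¬ HasFlow s t) :
    ∃ σ X, Ori j σ ∧ (∀ v, bd s t σ v = zPQ P Q v) ∧ P.card = 2 ∧ P ⊆ X ∧ Disjoint X Q ∧
      Bad s t c j σ X := by
  have hfull : ∀ X : Finset V, ((X ∩ P).card : ℤ) - (X ∩ Q).card = 2 →
      P.card = 2 ∧ P ⊆ X ∧ Disjoint X Q := by
    intro X hX
    have h1 : (X ∩ P).card ≤ P.card := card_le_card inter_subset_right
    have h3 : X ∩ P = P := eq_of_subset_of_card_le inter_subset_right (by omega)
    exact ⟨by omega, inter_eq_right.mp h3,
      disjoint_iff_inter_eq_empty.mpr (card_eq_zero.mp (by omega))⟩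
  have hle : ∀ X : Finset V, (X ∩ P).card ≤ 2 := fun X =>
    (card_le_card inter_subset_right).trans h2
  have hcard : ∀ X : Finset V, (X ∩ ter s t j).card = (X ∩ P).card + (X ∩ Q).card := by
    intro X
    rw [hT, inter_union_distrib_left,
      card_union_of_disjoint (hd.mono inter_subset_right inter_subset_right)]
  obtain ⟨σ, hσ, hz⟩ := exists_ori s t j (zPQ P Q) (by rw [sum_zPQ]; simp [hc]) (by
      intro v
      rw [bd_eq_ite, hT]
      have : v ∈ P → v ∉ Q := fun h => disjoint_left.mp hd h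
      unfold zPQ
      by_cases h1 : v ∈ P <;> by_cases h2 : v ∈ Q <;> simp_all) (by
      intro X
      rw [sum_zPQ]
      have h1 := cut_parity s t j X
      have h3 := hcard X
      have h4 := hle X
      by_cases h5 : ((X ∩ P).card : ℤ) - (X ∩ Q).card = 2
      · obtain ⟨k1, k2, k3⟩ := hfull X h5
        obtain ⟨e, he, he'⟩ := hsep X k1 k2 k3
        have : 0 < ((cut s t X).filter fun e => j e = 1).card :=
          card_pos.mpr ⟨e, mem_filter.mpr ⟨he, he'⟩⟩
        omega
      · omega)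
  obtain ⟨X, hX⟩ : ∃ X : Finset V,
      3 * ((cut s t X).card : ℤ) < 5 * ∑ v ∈ X, bd s t (apart c σ) v := by
    by_contra hcon
    push Not at hcon
    exact hn (flow_of_balanced hS hσ hcon)
  obtain ⟨n, n', f1, f2, f3, f4, f5, f6, -, -⟩ := hS.facts hσ X
  obtain ⟨c1, c2, -⟩ := hS.counts X
  rw [sum_congr rfl fun v _ => hz v, sum_zPQ] at f4
  have h4 := hle X
  have h5 := hb X
  have h6 : ((X ∩ P).card : ℤ) - (X ∩ Q).card = 2 := by omega
  obtain ⟨k1, k2, k3⟩ := hfull X h6
  have h7 := hcut X k1 k2 k3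
  have hm : nm s t j X = 0 := by omega
  have hcl : ∀ e ∈ cut s t X, j e = 1 := by
    intro e he
    by_contra hj
    have : 0 < nm s t j X := card_pos.mpr ⟨e, mem_filter.mpr ⟨he, z2_ne_one.mp hj⟩⟩
    omega
  exact ⟨σ, X, hσ, hz, k1, k2, k3, by omega, hcl, f5 (by omega),
    fun e he hc => f6 (by omega) e he hc (hcl e he), by omega⟩

/-- at most two odd vertices -/
lemma flow_of_two {s t : E → V} {c j : E → ZMod 2} (hS : State s t c j) (hb : Bridgeless s t)
    (h : (ter s t j).card ≤ 3) : HasFlow s t := by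
  by_contra hn
  have h1 := ter_even s t j
  obtain ⟨P, hP, hP'⟩ := exists_subset_card_eq (s := ter s t j) (n := (ter s t j).card / 2)
    (by omega)
  obtain ⟨σ, X, -, -, h2, -⟩ := core hS hb (P := P) (Q := ter s t j \ P)
    (union_sdiff_of_subset hP).symm disjoint_sdiff (by rw [card_sdiff_of_subset hP]; omega)
    (by omega) (fun X h2 => by omega) (fun X h2 => by omega) hn
  omega

end Pool.Agent.Lib.MP_c8786f_co.WO
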