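import Pool.Agent.Lib.MP_c8786f_co.WO.Final

/-!
The corner argument: two crossing bad cuts cannot exist.
-/

namespace Pool.Agent.Lib.MP_c8786f_co.WO

open Finset

set_option linter.unusedSectionVars false

variable {V E : Type} [Fintype V] [DecidableEq V] [Fintype E] [DecidableEq E]
variable {s t : E → V} {c o : E → ZMod 2}

lemma Ori.neg {σ : E → ℤ} (h : Ori o σ) : Ori o (-σ) := by
  intro e
  rcases h e with h | ⟨h, h' | h'⟩ <;> simp [*]

lemma Bad.compl {σ : E → ℤ} {X : Finset V} (h : Bad s t c o σ X) : Bad s t c o (-σ) Xᶜ := by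
  have h1 : ∀ e, out s Xᶜ (-σ) e = out s X σ e := by
    intro e; unfold out; by_cases h : s e ∈ X <;> simp [h]
  refine ⟨by rw [cut_compl, h.six], by rw [cut_compl]; exact h.closed, ?_, ?_, ?_⟩
  · rw [cut_compl]; intro e he hc; rw [h1, h.aout e he hc]
  · rw [cut_compl]; intro e he hc; rw [h1, h.bin e he hc]
  · rw [← h.four, sum_bd, sum_bd, cut_compl]
    refine sum_congr rfl fun e _ => ?_
    unfold out apart
    by_cases h : s e ∈ X <;> by_cases h' : c e = 0 <;> simp [h, h']

lemma Nice.three (H : Six s t) (N : Nice s t c o) {Y : Finset V}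
    (hY : ∀ e ∈ cut s t Y, o e = 1) {v : V} (hv : v ∈ Y) (hv' : v ∈ ter s t o)
    (hi : ¬ Iso s t c v) : ∃ e e' a b, c e = 1 ∧ c e' = 1 ∧ Adj s t e v a ∧ Adj s t e' v b ∧
      ({v, a, b} : Finset V).card = 3 ∧ {v, a, b} ⊆ Y := by
  obtain ⟨e, e', a, b, p1, p2, p3, p4, p5⟩ :=
    H.two_nbrs (N.four ▸ card_le_univ _) (Six.c_deg N.st hi)
  have key : ∀ e a, c e = 1 → Adj s t e v a → a ∈ Y := by
    intro e a h1 h2
    by_contra ha
    have h3 : a ≠ v := by rintro rfl; exact ha hv
    have h4 := hY e (by rw [h2.mem_cut]; tauto)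
    rw [N.nob v hv' e (h2.mem_star h3) h1] at h4
    exact zero_ne_one h4
  exact ⟨e, e', a, b, p1, p2, p3, p4, p5,
    insert_subset hv (insert_subset (key e a p1 p3) (singleton_subset_iff.mpr (key e' b p2 p4)))⟩

lemma Nice.three_le (H : Six s t) (N : Nice s t c o) {Y : Finset V}
    (hY : ∀ e ∈ cut s t Y, o e = 1) {v : V} (hv : v ∈ Y) (hv' : v ∈ ter s t o)
    (hi : ¬ Iso s t c v) : 3 ≤ Y.card := by
  obtain ⟨e, e', a, b, -, -, -, -, p5, p6⟩ := N.three H hY hv hv' hi
  exact p5 ▸ card_le_card p6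

lemma Nice.not_six (H : Six s t) (hn : 9 ≤ Fintype.card V) (N : Nice s t c o) {σ : E → ℤ}
    (hσ : Ori o σ) {X : Finset V} (B : Bad s t c o σ X)
    (hz : ∀ v ∈ X, bd s t σ v = if v ∈ ter s t o then 1 else 0) : X.card ≠ 6 := by
  intro h6
  have key : ∀ w ∈ X, 2 * ((cut s t {w} ∩ cut s t X).card : ℤ) - 1 ≤ bd s t (apart c σ) w := by
    intro w hw
    have k1 := cut_sdiff_card s t (singleton_subset_iff.mpr hw)
    have k2 := card_sdiff_add_card_inter (cut s t {w}) (cut s t X)
    have k3 := card_sdiff_add_card_inter (cut s t X) (cut s t {w})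
    have k4 := card_sdiff_add_card_eq_card (singleton_subset_iff.mpr hw)
    rw [inter_comm, B.six] at k3
    rw [H.cub] at k2
    rw [card_singleton] at k4
    have k5 : (cut s t {w} ∩ cut s t X).card ≤ 1 := by
      by_contra h
      have := H.sparse hn (X := X \ {w}) (by omega) (card_pos.mp (by omega)) (by omega)
      omega
    obtain ⟨n, n', f1, f2, f3, f4, -, -, f7, f8⟩ := N.st.facts hσ {w}
    obtain ⟨c1, c2, c3⟩ := N.st.counts {w}
    rw [H.cub] at c1
    simp only [sum_singleton] at f3 f4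
    rw [hz w hw] at f4
    by_cases hT : w ∈ ter s t o
    · have : nb s t c o {w} = 0 := by
        unfold nb
        rw [card_eq_zero, filter_eq_empty_iff]
        intro e he h
        have := N.nob w hT e he h.1
        rw [h.2] at this
        exact one_ne_zero this
      rw [if_pos hT] at f4
      omega
    · rw [if_neg hT] at f4
      rw [singleton_inter_of_notMem hT, card_empty] at c3
      by_cases h0 : (cut s t {w} ∩ cut s t X).card = 0
      · omega
      obtain ⟨e, he⟩ := card_ne_zero.mp h0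
      obtain ⟨he, he'⟩ := mem_inter.mp he
      have ho : out s {w} σ e = out s X σ e := by
        rw [mem_cut] at he he'
        simp only [mem_singleton] at he
        unfold out
        by_cases h : s e = w
        · simp [h, hw]
        · have h1 : t e = w := by tauto
          rw [h1] at he'
          have h2 : s e ∉ X := by tauto
          simp [h, h2]
      rcases z2_cases (c e) with hc | hc
      · have : n ≠ 0 := fun h => f7 h e he hc (ho.trans (B.aout e he' hc))
        omega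
      · have : n' ≠ 0 := fun h => f8 h e he hc (ho.trans (B.bin e he' hc))
        omega
  have k1 := sum_le_sum key
  rw [B.four, sum_sub_distrib, ← mul_sum, sum_const, h6, ← Nat.cast_sum] at k1
  have k2 : (cut s t X).card ≤ ∑ w ∈ X, (cut s t {w} ∩ cut s t X).card := by
    refine le_trans (card_le_card fun e he => ?_) card_biUnion_le
    obtain ⟨v, w, hv, hw, ha⟩ := exists_adj_of_mem_cut he
    exact mem_biUnion.mpr ⟨v, hv, mem_inter.mpr ⟨ha.mem_star (by rintro rfl; exact hw hv), he⟩⟩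
  rw [B.six] at k2
  simp only [nsmul_eq_mul] at k1
  omega

lemma Nice.split_aux (H : Six s t) (hn : 9 ≤ Fintype.card V) (N : Nice s t c o) {σ : E → ℤ}
    (hσ : Ori o σ) {X : Finset V} (B : Bad s t c o σ X)
    (hz : ∀ v ∈ X, bd s t σ v = if v ∈ ter s t o then 1 else 0) {R : Finset V} (hR : R ⊆ X)
    (hRc : ∀ e ∈ cut s t R, o e = 1) {a b : V} (ha : a ∈ ter s t o) (hb : b ∈ ter s t o)
    (haR : a ∈ R) (hbR : b ∈ X \ R) (h1 : R.card ≤ 3) (h2 : (X \ R).card ≤ 3)
    (hi : ¬ Iso s t c a) : False := by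
  have hR' : ∀ e ∈ cut s t (X \ R), o e = 1 := fun e he =>
    (mem_cut_sdiff he).elim (B.closed e) (hRc e)
  obtain ⟨e1, e2, v1, v2, p1, p2, p3, p4, p5, p6⟩ := N.three H hRc haR ha hi
  have hRe := eq_of_subset_of_card_le p6 (by omega)
  have k0 : R.card = 3 := by rw [← hRe, p5]
  have k1 := card_sdiff_add_card_eq_card hR
  have k2 := H.deg_sum X
  have k3 := N.not_six H hn hσ B hz
  have k4 := card_pos.mpr ⟨b, hbR⟩
  rw [B.six] at k2
  have k5 : X \ R = {b} :=
    (eq_of_subset_of_card_le (by simpa using mem_sdiff.mp hbR) (by rw [card_singleton]; omega)).symm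
  have k6 : Iso s t c b := by
    by_contra h
    have := N.three_le H hR' hbR hb h
    omega
  have k7 := H.deg_sum R
  have k8 : 5 ≤ (cut s t R).card := by
    by_contra h
    have := H.sparse hn (X := R) (by omega) ⟨a, haR⟩ (by omega)
    omega
  obtain ⟨e, he, he'⟩ := exists_notMem_of_lt (D := inn s t X) (S := inn s t R) (by omega)
  obtain ⟨w, hw, hw', hwb⟩ : ∃ w, w ∈ R ∧ Adj s t e b w ∧ w ≠ b := by
    rw [mem_inn] at he he'
    have q : ∀ x ∈ X, x ∉ R → x = b := fun x hx hx' =>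
      mem_singleton.mp (k5 ▸ mem_sdiff.mpr ⟨hx, hx'⟩)
    by_cases hs : s e ∈ R
    · have := q _ he.2.1 (by tauto)
      exact ⟨s e, hs, Or.inr ⟨rfl, this⟩, this ▸ he.2.2⟩
    · have := q _ he.1 hs
      refine ⟨t e, ?_, Or.inl ⟨this, rfl⟩, this ▸ he.2.2.symm⟩
      by_contra h
      exact he.2.2 (this.trans (q _ he.2.1 h).symm)
  obtain ⟨f1, f2⟩ := N.far b hb k6 e w hw' hwb
  rw [← hRe] at hw
  simp only [mem_insert, mem_singleton] at hw
  rcases hw with rfl | rfl | rfl
  exacts [f1 ha, f2 e1 a p3.symm p1 ha, f2 e2 a p4.symm p2 ha]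

lemma Nice.split (H : Six s t) (hn : 9 ≤ Fintype.card V) (N : Nice s t c o) {σ : E → ℤ}
    (hσ : Ori o σ) {X : Finset V} (B : Bad s t c o σ X)
    (hz : ∀ v ∈ X, bd s t σ v = if v ∈ ter s t o then 1 else 0) {Y : Finset V}
    (hY : ∀ e ∈ cut s t Y, o e = 1) {a b x y : V} (L : Lab4 (ter s t o) a b x y)
    (ha : a ∈ X) (hb : b ∈ X) (hx : x ∉ X) (hy : y ∉ X) (ha' : a ∈ Y) (hb' : b ∉ Y)
    (h1 : (cut s t (X ∩ Y)).card ≤ 5) (h2 : (cut s t (X \ Y)).card ≤ 5) : False := by
  obtain ⟨ta, tb, tx, ty⟩ := L.mem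
  have k1 : 3 ≤ Xᶜ.card := by
    by_cases h : Iso s t c x
    · exact N.three_le H B.compl.closed (mem_compl.mpr hy) ty fun h' => L.kl (N.one x tx y ty h h')
    · exact N.three_le H B.compl.closed (mem_compl.mpr hx) tx h
  have k2 := card_add_card_compl X
  have k3 := card_inter_add_card_sdiff X Y
  have m1 : a ∈ X ∩ Y := mem_inter.mpr ⟨ha, ha'⟩
  have m2 : b ∈ X \ Y := mem_sdiff.mpr ⟨hb, hb'⟩
  have k4 := card_pos.mpr ⟨a, m1⟩
  have k5 := card_pos.mpr ⟨b, m2⟩
  have small : ∀ R : Finset V, 0 < R.card → R.card < X.card → (cut s t R).card ≤ 5 →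
      R.card ≤ 3 := by
    intro R h0 h1 h2
    have k6 := card_add_card_compl R
    rcases H.p6 R h2 with (k | k) | (k | k)
    · omega
    · rw [k]; simp
    · rw [cut_compl] at k; omega
    · rw [k, card_empty] at k6; omega
  have s1 := small _ k4 (by omega) h1
  have s2 := small _ k5 (by omega) h2
  by_cases h : Iso s t c a
  · exact N.split_aux H hn hσ B hz (R := X \ Y) sdiff_subset
      (fun e he => (mem_cut_sdiff he).elim (B.closed e) (hY e)) tb ta m2
      (by rwa [sdiff_sdiff_self_left]) s2 (by rwa [sdiff_sdiff_self_left])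
      fun h' => L.ij (N.one a ta b tb h h')
  · exact N.split_aux H hn hσ B hz (R := X ∩ Y) inter_subset_left
      (fun e he => (mem_cut_inter he).elim (B.closed e) (hY e)) ta tb m1
      (by rwa [sdiff_inter_self_left]) s1 (by rwa [sdiff_inter_self_left]) h

/-- the odd subgraph does not join `a b` to `x y` -/
def Sep (s t : E → V) (o : E → ZMod 2) (a b x y : V) : Prop :=
  ∃ X : Finset V, a ∈ X ∧ b ∈ X ∧ x ∉ X ∧ y ∉ X ∧ ∀ e ∈ cut s t X, o e ≠ 1

lemma Lab4.card_inter {T : Finset V} {a b x y : V} (L : Lab4 T a b x y) (X : Finset V) :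
    (X ∩ T).card = (if a ∈ X then 1 else 0) + (if b ∈ X then 1 else 0) +
      (if x ∈ X then 1 else 0) + (if y ∈ X then 1 else 0) := by
  rw [inter_comm, ← filter_mem_eq_inter, card_filter, L.sum]

lemma Nice.bad (H : Six s t) (N : Nice s t c o) {a b x y : V} (L : Lab4 (ter s t o) a b x y)
    (h : ¬ Sep s t o a b x y) : ∃ σ X, Ori o σ ∧ Bad s t c o σ X ∧ a ∈ X ∧ b ∈ X ∧ x ∉ X ∧ y ∉ X ∧
      (∀ v ∈ X, bd s t σ v = if v ∈ ter s t o then 1 else 0) ∧
      ∀ v ∈ Xᶜ, bd s t (-σ) v = if v ∈ ter s t o then 1 else 0 := by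
  obtain ⟨σ, X, h1, h2, -, h3, h4, h5⟩ := core N.st H.br (P := {a, b}) (Q := {x, y})
    (by rw [L.eq]; ext v; simp only [mem_insert, mem_singleton, mem_union]; tauto)
    (by simp [L.ik.symm, L.il.symm, L.jk.symm, L.jl.symm]) (by rw [card_pair L.ij, card_pair L.kl]) card_le_two
    (fun X _ h1 h2 => by
      by_contra hc
      push Not at hc
      exact h ⟨X, h1 (by simp), h1 (by simp), disjoint_right.mp h2 (by simp),
        disjoint_right.mp h2 (by simp), hc⟩)
    (fun X _ h1 h2 h3 => by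
      have k1 := card_pos.mpr ⟨a, h1 (mem_insert_self _ _)⟩
      have k2 := card_pos.mpr ⟨x, mem_compl.mpr (disjoint_right.mp h2 (mem_insert_self _ _))⟩
      rcases H.p6 X (by omega) with (k | k) | (k | k)
      · omega
      · rw [k] at k1; simp at k1
      · rw [cut_compl] at k; omega
      · rw [k] at k2; simp at k2) H.nf
  have ha : a ∈ X := h3 (by simp)
  have hb : b ∈ X := h3 (by simp)
  have hx : x ∉ X := disjoint_right.mp h4 (by simp)
  have hy : y ∉ X := disjoint_right.mp h4 (by simp)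
  refine ⟨σ, X, h1, h5, ha, hb, hx, hy, fun v hv => ?_, fun v hv => ?_⟩
  · have k1 : v ≠ x := by rintro rfl; exact hx hv
    have k2 : v ≠ y := by rintro rfl; exact hy hv
    rw [h2, L.eq]; simp [zPQ, k1, k2]
  · have k1 : v ≠ a := by rintro rfl; exact mem_compl.mp hv ha
    have k2 : v ≠ b := by rintro rfl; exact mem_compl.mp hv hb
    rw [bd_neg, h2, L.eq]; simp [zPQ, k1, k2]

lemma Nice.corner (H : Six s t) (hn : 9 ≤ Fintype.card V) (N : Nice s t c o) {a b x y : V}
    (L : Lab4 (ter s t o) a b x y) (h : ¬ Sep s t o a b x y) (h' : ¬ Sep s t o a x b y) :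
    False := by
  obtain ⟨ta, tb, tx, ty⟩ := L.mem
  have L' := Lab4.of_mem N.four ta tx tb ty L.ik L.ij L.il L.jk.symm L.kl L.jl
  obtain ⟨σ, X, h1, B, ha, hb, hx, hy, z1, z2⟩ := N.bad H L h
  obtain ⟨σ', Y, h1', B', ha', hx', hb', hy', z1', z2'⟩ := N.bad H L' h'
  have odd : ∀ R : Finset V, (∀ e ∈ cut s t R, o e = 1) → (R ∩ ter s t o).card = 1 →
      (cut s t R).card % 2 = 1 := by
    intro R h1 h2
    have := cut_parity s t o R
    rwa [filter_true_of_mem h1, h2] at this
  have o1 := odd (X ∩ Y) (fun e he => (mem_cut_inter he).elim (B.closed e) (B'.closed e))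
    (by rw [L.card_inter]; simp [*])
  have o2 := odd (Xᶜ ∩ Yᶜ)
    (fun e he => (mem_cut_inter he).elim (B.compl.closed e) (B'.compl.closed e))
    (by rw [L.card_inter]; simp [*])
  have o3 := odd (X \ Y) (fun e he => (mem_cut_sdiff he).elim (B.closed e) (B'.closed e))
    (by rw [L.card_inter]; simp [*])
  have o4 := odd (Y \ X) (fun e he => (mem_cut_sdiff he).elim (B'.closed e) (B.closed e))
    (by rw [L.card_inter]; simp [*])
  have k1 := cut_inter_union s t X Y
  have k2 := cut_inter_union s t X Yᶜ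
  rw [← cut_compl s t (X ∪ Y), compl_union, B.six, B'.six] at k1
  rw [← cut_compl s t (X ∪ Yᶜ), compl_union, compl_compl, cut_compl, B.six, B'.six,
    ← sdiff_eq_inter_compl, inter_comm, ← sdiff_eq_inter_compl] at k2
  have e1 : Xᶜ \ Yᶜ = Y \ X := by ext v; simp [and_comm]
  have e2 : Yᶜ \ Xᶜ = X \ Y := by ext v; simp [and_comm]
  by_cases c1 : (cut s t (X ∩ Y)).card ≤ 5 <;> by_cases c2 : (cut s t (X \ Y)).card ≤ 5
  · exact N.split H hn h1 B z1 B'.closed L ha hb hx hy ha' hb' c1 c2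
  · exact N.split H hn h1' B' z1' B.closed L' ha' hx' hb' hy' ha hx (by rwa [inter_comm])
      (by omega)
  · exact N.split H hn h1'.neg B'.compl z2' B.compl.closed
      (Lab4.of_mem N.four ty tb ta tx L.jl.symm L.il.symm L.kl.symm L.ij.symm L.jk L.ik)
      (by simpa) (by simpa) (by simpa) (by simpa) (by simpa) (by simpa)
      (by rw [inter_comm]; omega) (by rwa [e2])
  · exact N.split H hn h1.neg B.compl z2 B'.compl.closed
      (Lab4.of_mem N.four ty tx ta tb L.kl.symm L.il.symm L.jl.symm L.ik.symm L.jk.symm L.ij)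
      (by simpa) (by simpa) (by simpa) (by simpa) (by simpa) (by simpa)
      (by omega) (by rw [e1]; omega)

lemma Nice.false (H : Six s t) (hn : 9 ≤ Fintype.card V) (N : Nice s t c o) : False := by
  obtain ⟨a, b, x, y, L⟩ := exists_lab4 N.four
  obtain ⟨ta, tb, tx, ty⟩ := L.mem
  have key : ∀ X Y : Finset V, (∀ e ∈ cut s t X, o e ≠ 1) → (∀ e ∈ cut s t Y, o e ≠ 1) →
      ((X ∩ Y) ∩ ter s t o).card ≠ 1 := by
    intro X Y h1 h2 h3
    have := cut_parity s t o (X ∩ Y)
    rw [h3, filter_false_of_mem fun e he => (mem_cut_inter he).elim (h1 e) (h2 e)] at this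
    simp at this
  have sw : ∀ {a b x y : V}, Sep s t o a b x y → Sep s t o a b y x :=
    fun ⟨X, h1, h2, h3, h4, h5⟩ => ⟨X, h1, h2, h4, h3, h5⟩
  by_cases h1 : Sep s t o a b x y
  · obtain ⟨X, p1, p2, p3, p4, p5⟩ := h1
    refine N.corner H hn (Lab4.of_mem N.four ta tx ty tb L.ik L.il L.ij L.kl L.jk.symm L.jl.symm)
      ?_ ?_
    · rintro ⟨Y, q1, q2, q3, q4, q5⟩
      exact key X Y p5 q5 (by rw [L.card_inter]; simp [*])
    · rintro ⟨Y, q1, q2, q3, q4, q5⟩
      exact key X Y p5 q5 (by rw [L.card_inter]; simp [*])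
  by_cases h2 : Sep s t o a x b y
  · obtain ⟨X, p1, p2, p3, p4, p5⟩ := h2
    refine N.corner H hn (Lab4.of_mem N.four ta tb ty tx L.ij L.il L.ik L.jl L.jk L.kl.symm)
      (fun h => h1 (sw h)) ?_
    rintro ⟨Y, q1, q2, q3, q4, q5⟩
    exact key X Y p5 q5 (by rw [L.card_inter]; simp [*])
  · exact N.corner H hn L h1 h2

/-- Every bridgeless graph of maximum degree at most three with a state having at most four odd
vertices has a nowhere-zero `ZMod 5` flow. -/
theorem four_base : ∀ n, Smaller 4 0 n := by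
  refine reduce (K := 4) rfl le_rfl ?_
  intro V E _ _ _ _ s t h1 h2 h3 c o h4 h5
  by_contra nf
  have H : Six s t := ⟨h1, h2, h3, nf⟩
  obtain ⟨hn, c, o, N⟩ := H.exists_nice h4 h5
  exact N.false H hn

end Pool.Agent.Lib.MP_c8786f_co.WO
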