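import Pool.Agent.Lib.MP_c8786f_co.WO.Reduce

/-!
Vertices of degree at least four are expanded or split.
-/

namespace Pool.Agent.Lib.MP_c8786f_co.WO

open Finset

set_option linter.unusedSectionVars false

variable {V E : Type} [Fintype V] [DecidableEq V] [Fintype E] [DecidableEq E]

/-- the ends at `v` of two edges move to a new vertex; the new edge has the end `u` -/
def spl (v : V) (e1 e2 : E) (s : E → V) (u : Option V) : Option E → Option V
  | none => u
  | some e => if (e = e1 ∨ e = e2) ∧ s e = v then none else some (s e)

section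
variable {s t : E → V} {v : V} {e1 e2 : E} {u : Option V}

lemma bd_proj {A : Type} [AddCommGroup A] (hu : u = none ∨ u = some v) (g : Option E → A) (w : V) :
    bd s t (fun e => g (some e)) w = bd (spl v e1 e2 s none) (spl v e1 e2 t u) g (some w) +
      if w = v then bd (spl v e1 e2 s none) (spl v e1 e2 t u) g none else 0 := by
  unfold bd
  rw [Fintype.sum_option, Fintype.sum_option]
  by_cases hw : w = v
  · subst hw
    rw [if_pos rfl, add_add_add_comm, ← sum_add_distrib]
    have : ((if spl w e1 e2 s none none = some w then g none else 0) -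
        (if spl w e1 e2 t u none = some w then g none else 0)) +
        ((if spl w e1 e2 s none none = none then g none else 0) -
        (if spl w e1 e2 t u none = none then g none else 0)) = 0 := by
      rcases hu with rfl | rfl <;> simp [spl]
    rw [this, zero_add]
    refine sum_congr rfl fun e _ => ?_
    simp only [spl]
    by_cases h : e = e1 ∨ e = e2 <;> by_cases h1 : s e = w <;> by_cases h2 : t e = w <;>
      simp [h, h1, h2]
  · rw [if_neg hw, add_zero]
    have : ((if spl v e1 e2 s none none = some w then g none else 0) -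
        (if spl v e1 e2 t u none = some w then g none else 0)) = 0 := by
      rcases hu with rfl | rfl <;> simp [spl, Ne.symm hw]
    rw [this, zero_add]
    refine sum_congr rfl fun e _ => ?_
    simp only [spl]
    by_cases h : e = e1 ∨ e = e2 <;> by_cases h1 : s e = v <;> by_cases h2 : t e = v <;>
      simp [h, h1, h2, Ne.symm hw]

lemma bd_new (h1 : e1 ∈ cut s t {v}) (h2 : e2 ∈ cut s t {v}) (hne : e1 ≠ e2)
    (g : Option E → ZMod 2) : bd (spl v e1 e2 s none) (spl v e1 e2 t u) g none =
      (if u = none then 0 else g none) + (g (some e1) + g (some e2)) := by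
  unfold bd
  rw [Fintype.sum_option, ← sum_subset (subset_univ {e1, e2}), sum_pair hne]
  · simp only [mem_cut, mem_singleton] at h1 h2
    congr 1
    · simp only [spl]; split_ifs <;> simp_all
    · congr 1
      · by_cases h : s e1 = v <;> simp_all [spl]
      · by_cases h : s e2 = v <;> simp_all [spl]
  · intro e _ he
    simp only [mem_insert, mem_singleton] at he
    simp [spl, he]

lemma cut_spl (hu : u = none ∨ u = some v) (h1 : e1 ∈ cut s t {v}) (h2 : e2 ∈ cut s t {v})
    (hne : e1 ≠ e2) (Y' : Finset (Option V)) (Y : Finset V) (hv : v ∉ Y)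
    (hY : ∀ w, some w ∈ Y' ↔ w ∈ Y) :
    (none ∉ Y' → (cut (spl v e1 e2 s none) (spl v e1 e2 t u) Y').card = (cut s t Y).card) ∧
    (none ∈ Y' → (cut (spl v e1 e2 s none) (spl v e1 e2 t u) Y').card +
      2 * ((if e1 ∈ cut s t Y then 1 else 0) + (if e2 ∈ cut s t Y then 1 else 0)) =
      (cut s t Y).card + 2 + if u = none then 0 else 1) := by
  have hv' : some v ∉ Y' := fun h => hv ((hY v).mp h)
  simp only [mem_cut, mem_singleton] at h1 h2
  constructor
  · intro hn
    unfold cut
    rw [card_filter, card_filter, Fintype.sum_option]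
    have : ∀ (s : E → V) (u : Option V) e, spl v e1 e2 s u (some e) ∈ Y' ↔ s e ∈ Y := by
      intro s u e
      simp only [spl]
      split_ifs with h
      · simp [hn, h.2, hv]
      · exact hY _
    simp only [this]
    rcases hu with rfl | rfl <;> simp [spl, hn, hv']
  · intro hn
    have k1 : (if e1 ∈ cut s t Y then 1 else 0) + (if e2 ∈ cut s t Y then 1 else 0) =
        ∑ e, if (e = e1 ∨ e = e2) ∧ e ∈ cut s t Y then 1 else 0 := by
      rw [← sum_subset (subset_univ {e1, e2}), sum_pair hne]
      · simp
      · intro e _ he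
        simp only [mem_insert, mem_singleton] at he
        simp [he]
    have k2 : 2 = ∑ e, if e = e1 ∨ e = e2 then 1 else 0 := by
      rw [← card_filter, ← card_pair hne]
      congr 1; ext e; simp
    have k3 : (cut s t Y).card = ∑ e, if e ∈ cut s t Y then 1 else 0 := by simp
    rw [k1, k3]
    conv_rhs => rw [k2]
    conv_lhs => unfold cut
    rw [card_filter, Fintype.sum_option, add_assoc, mul_sum, ← sum_add_distrib, ← sum_add_distrib,
      add_comm]
    congr 1
    · refine sum_congr rfl fun e _ => ?_
      simp only [spl, mem_cut, mem_filter, mem_univ, true_and]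
      by_cases h : e = e1 ∨ e = e2
      · have h3 : ¬ (s e = v ↔ t e = v) := by rcases h with rfl | rfl <;> assumption
        by_cases h4 : s e = v
        · have h5 : ¬ t e = v := by tauto
          by_cases h6 : t e ∈ Y <;> simp [h, h4, h5, h6, hn, hv, hY]
        · have h5 : t e = v := by tauto
          by_cases h6 : s e ∈ Y <;> simp [h, h4, h5, h6, hn, hv, hY]
      · simp [h, hY]
    · rcases hu with rfl | rfl <;> simp [spl, hn, hv']

end

lemma Minimal.deg_le {K m : ℕ} {s t : E → V} {c o : E → ZMod 2} (H : Minimal K (m + 1) s t c o)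
    (IH : ∀ n, Smaller K m n) (v : V) : (cut s t {v}).card ≤ 3 := by
  by_contra hv
  obtain ⟨e1, h1⟩ := card_pos.mp (show 0 < (cut s t {v}).card by omega)
  obtain ⟨y, hy, ha⟩ := exists_adj_of_mem_star h1
  obtain ⟨e2, h2, hne, h3⟩ : ∃ e2 ∈ cut s t {v}, e1 ≠ e2 ∧
      (e2 ∈ cut s t {y} → 4 ≤ (cut s t {y}).card) := by
    by_cases h : cut s t {v} ⊆ cut s t {y}
    · obtain ⟨e2, h2, h3⟩ := exists_mem_ne (s := cut s t {v}) (by omega) e1
      have := card_le_card h
      exact ⟨e2, h2, h3.symm, fun _ => by omega⟩
    · obtain ⟨e2, h2, h3⟩ := not_subset.mp h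
      exact ⟨e2, h2, by rintro rfl; exact h3 (ha.symm.mem_star hy.symm), fun h => absurd h h3⟩
  have key : ∀ Y : Finset V, v ∉ Y → e1 ∈ cut s t Y → e2 ∈ cut s t Y → 4 ≤ (cut s t Y).card := by
    intro Y hY k1 k2
    by_contra hc
    rcases H.cut_three Y (by omega) with h | h
    · have : y ∈ Y := by rw [ha.mem_cut] at k1; tauto
      have : Y = {y} := (eq_of_subset_of_card_le (by simpa using this) (by simpa using h)).symm
      rw [this] at k2 hc
      exact hc (h3 k2)
    · have : Yᶜ = {v} := (eq_of_subset_of_card_le (by simpa using hY) (by simpa using h)).symm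
      rw [← cut_compl, this] at hc
      omega
  let u : Option V := if c e1 = c e2 ∧ o e1 = o e2 then none else some v
  have hu : u = none ∨ u = some v := by simp only [u]; split_ifs <;> simp
  have ext : ∀ g : E → ZMod 2, (u = none → g e1 = g e2) → ∀ x : ZMod 2, ∃ g' : Option E → ZMod 2,
      (∀ e, g' (some e) = g e) ∧ g' none = (if u = none then x else g e1 + g e2) ∧
      bd (spl v e1 e2 s none) (spl v e1 e2 t u) g' none = 0 ∧
      ∀ w, bd (spl v e1 e2 s none) (spl v e1 e2 t u) g' (some w) = bd s t g w := by
    intro g hg x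
    let g' : Option E → ZMod 2 := fun e => e.elim (if u = none then x else g e1 + g e2) g
    have : bd (spl v e1 e2 s none) (spl v e1 e2 t u) g' none = 0 := by
      rw [bd_new h1 h2 hne]
      by_cases h : u = none
      · simp [g', h, hg h, CharTwo.add_self_eq_zero]
      · simp [g', h, CharTwo.add_self_eq_zero]
    refine ⟨g', fun e => rfl, rfl, this, fun w => ?_⟩
    have k := bd_proj (s := s) (t := t) (e1 := e1) (e2 := e2) hu g' w
    rw [this, ite_self, add_zero] at k
    exact k.symm
  have hu' : u = none ↔ c e1 = c e2 ∧ o e1 = o e2 := by simp only [u]; split_ifs <;> simp [*]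
  obtain ⟨c', a1, a2, a3, a4⟩ := ext c (fun h => (hu'.mp h).1) 1
  obtain ⟨o', b1, b2, b3, b4⟩ := ext o (fun h => (hu'.mp h).2) 1
  have hbr : ∀ Y' : Finset (Option V), some v ∉ Y' →
      (cut (spl v e1 e2 s none) (spl v e1 e2 t u) Y').card ≠ 1 := by
    intro Y' hY'
    have hvY : v ∉ univ.filter fun w => some w ∈ Y' := by simpa using hY'
    obtain ⟨k1, k2⟩ := cut_spl hu h1 h2 hne Y' _ hvY (by simp)
    have k3 := H.br (univ.filter fun w => some w ∈ Y')
    by_cases hn : none ∈ Y'
    · have k4 := k2 hn
      have k5 := key _ hvY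
      by_cases p1 : e1 ∈ cut s t (univ.filter fun w => some w ∈ Y') <;>
        by_cases p2 : e2 ∈ cut s t (univ.filter fun w => some w ∈ Y')
      · have := k5 p1 p2
        simp only [p1, p2, if_true] at k4
        omega
      · have := card_pos.mpr ⟨e1, p1⟩
        simp only [p1, p2, if_true, if_false] at k4
        omega
      · have := card_pos.mpr ⟨e2, p2⟩
        simp only [p1, p2, if_true, if_false] at k4
        omega
      · simp only [p1, p2, if_false] at k4
        omega
    · rw [k1 hn]; exact k3
  obtain ⟨g, hg, hg'⟩ := IH _ _ _ (spl v e1 e2 s none) (spl v e1 e2 t u) (Nat.lt_succ_self _)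
    ⟨fun Y' => by
      by_cases h : some v ∈ Y'
      · rw [← cut_compl]; exact hbr _ (by simpa using h)
      · exact hbr _ h, by
      have k1 := (cut_spl hu h1 h2 hne {none} ∅ (by simp) (by simp)).2 (by simp)
      have k2 := (cut_spl hu h1 h2 hne {some v}ᶜ {v}ᶜ (by simp) (by simp)).2 (by simp)
      rw [cut_empty] at k1
      simp only [cut_compl, h1, h2, if_true] at k2
      simp only [notMem_empty, if_false, card_empty] at k1
      have k3 : ∑ w, ((cut (spl v e1 e2 s none) (spl v e1 e2 t u) {some w}).card - 3) <
          ∑ w, ((cut s t {w}).card - 3) := by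
        refine sum_lt_sum (fun w _ => ?_) ⟨v, mem_univ v, by split_ifs at k2 <;> omega⟩
        by_cases hw : w = v
        · rw [hw]; split_ifs at k2 <;> omega
        · rw [(cut_spl hu h1 h2 hne {some w} {w} (by simpa using Ne.symm hw) (by simp)).1 (by simp)]
      have k4 := H.exc
      rw [Fintype.sum_option]
      split_ifs at k1 <;> omega,
      c', o', ⟨by
        rintro (_ | e) he
        · rw [a2] at he
          rw [b2]
          by_cases h : u = none
          · rw [if_pos h]
          · rw [if_neg h] at he ⊢
            rw [hu'] at h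
            revert h he
            generalize c e1 = a; generalize c e2 = b; generalize o e1 = x; generalize o e2 = y
            revert a b x y; decide
        · rw [a1] at he; rw [b1]; exact H.st.cover e he, by
        rintro (_ | w)
        · exact a3
        · rw [a4]; exact H.st.even w⟩, by
      refine le_trans (le_of_eq ?_) H.few
      unfold ter
      rw [card_filter, card_filter, Fintype.sum_option]
      simp [b3, b4]⟩
  refine H.nf ⟨fun e => g (some e), fun e => hg _, fun w => ?_⟩
  rw [bd_proj (e1 := e1) (e2 := e2) hu, hg', hg', ite_self, add_zero]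

/-- the reduction to graphs of maximum degree at most three -/
theorem reduce_deg {K : ℕ} (hK : K % 2 = 0) (h4 : 4 ≤ K) (base : ∀ n, Smaller K 0 n) :
    ∀ m n, Smaller K m n := by
  intro m
  induction m with
  | zero => exact base
  | succ m ihm =>
    intro n
    induction n with
    | zero => intro V E _ _ _ _ s t h; omega
    | succ n ih =>
      intro V E _ _ _ _ s t h hC
      by_cases hn : Fintype.card V < n
      · exact ih V E s t hn hC
      obtain ⟨h1, h2, c, o, h3, h5⟩ := hC
      by_contra nf
      have H : Minimal K (m + 1) s t c o :=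
        ⟨hK, h4, by rwa [show Fintype.card V = n by omega], h1, h2, h3, h5, nf⟩
      refine nf (base _ V E s t (Nat.lt_succ_self _) ⟨h1, ?_, c, o, h3, h5⟩)
      exact (sum_eq_zero fun v _ => Nat.sub_eq_zero_of_le (H.deg_le ihm v)).le

end Pool.Agent.Lib.MP_c8786f_co.WO
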