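import Pool.Agent.Lib.MP_c8786f_co.WO.Reduce

/-!
Cubic graphs whose cuts with at most five edges are trivial, four odd vertices:
preparation of a good state.
-/

namespace Pool.Agent.Lib.MP_c8786f_co.WO

open Finset

set_option linter.unusedSectionVars false

variable {V E : Type} [Fintype V] [DecidableEq V] [Fintype E] [DecidableEq E]

/-- cubic, trivial small cuts, no flow -/
structure Six (s t : E → V) : Prop where
  br : Bridgeless s t
  cub : ∀ v, (cut s t {v}).card = 3
  p6 : ∀ X, (cut s t X).card ≤ 5 → Triv s t X ∨ Triv s t Xᶜ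
  nf : ¬ HasFlow s t

/-- no edge of the even subgraph at `v` -/
def Iso (s t : E → V) (c : E → ZMod 2) (v : V) : Prop := ∀ e ∈ cut s t {v}, c e = 0

lemma mem_cut_inter {s t : E → V} {X Y : Finset V} {e : E} (h : e ∈ cut s t (X ∩ Y)) :
    e ∈ cut s t X ∨ e ∈ cut s t Y := by
  simp only [mem_cut, mem_inter] at *
  tauto

lemma mem_cut_sdiff {s t : E → V} {X Y : Finset V} {e : E} (h : e ∈ cut s t (X \ Y)) :
    e ∈ cut s t X ∨ e ∈ cut s t Y := by
  simp only [mem_cut, mem_sdiff] at *
  tauto

lemma State.c_eq_one {s t : E → V} {c o : E → ZMod 2} (hS : State s t c o) {e : E}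
    (h : o e = 0) : c e = 1 := by
  by_contra h'
  have := hS.cover e (z2_ne_one.mp h')
  rw [h] at this
  exact zero_ne_one this

namespace Six

variable {s t : E → V} {c o : E → ZMod 2}

lemma four (H : Six s t) (hS : State s t c o) (h : (ter s t o).card ≤ 4) :
    (ter s t o).card = 4 := by
  by_contra h'
  exact H.nf (flow_of_two hS H.br (by omega))

lemma not_conn (H : Six s t) (hS : State s t c o) (h : (ter s t o).card ≤ 4) {u v : V}
    (hu : u ∈ ter s t o) (hv : v ∈ ter s t o) (hc : Conn s t (fun e => c e = 1) u v) : u = v := by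
  by_contra huv
  obtain ⟨J, h1, h2⟩ := hc.flow (1 : ZMod 2)
  refine H.nf (flow_of_two (c := c) (j := o + J) ⟨fun e he => ?_, hS.even⟩ H.br ?_)
  · rw [Pi.add_apply, hS.cover e he, h1 e (by simp [he]), add_zero]
  · have : ter s t (o + J) ⊆ (ter s t o).erase u := by
      intro w hw
      rw [mem_ter, bd_add, h2, bd_eq_ite] at hw
      rw [mem_erase]
      by_cases h3 : u = w
      · subst h3
        exact absurd (by simp [hu, Ne.symm huv]; rfl) hw
      · refine ⟨Ne.symm h3, ?_⟩
        by_contra h4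
        have : v ≠ w := fun h => h4 (h ▸ hv)
        simp [h3, h4, this] at hw
    have := card_le_card this
    rw [card_erase_of_mem hu] at this
    omega

lemma exists_min (hS : State s t c o) (h : (ter s t o).card ≤ 4) :
    ∃ c o, State s t c o ∧ (ter s t o).card ≤ 4 ∧ ∀ c', State s t c' o → ∀ v ∈ ter s t o,
      ∀ e ∈ cut s t {v}, c' e = 1 → o e = 0 := by
  classical
  obtain ⟨⟨c, o⟩, h1, h2⟩ := exists_min_image
    (univ.filter fun p : (E → ZMod 2) × (E → ZMod 2) =>
      State s t p.1 p.2 ∧ (ter s t p.2).card ≤ 4)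
    (fun p => (univ.filter fun e => p.2 e = 1).card) ⟨(c, o), by simp [hS, h]⟩
  simp only [mem_filter, mem_univ, true_and] at h1 h2
  refine ⟨c, o, h1.1, h1.2, fun c' hc' v hv e he hce => ?_⟩
  by_contra ho
  have ho' := z2_ne_zero.mp ho
  obtain ⟨w, hw, ha⟩ := exists_adj_of_mem_star he
  have k := h2 (c', o + Pi.single e 1) ⟨⟨fun e' he' => ?_, hc'.even⟩, ?_⟩
  · refine absurd k (not_le.mpr (card_lt_card ⟨fun e' he' => ?_, fun hs => ?_⟩))
    · simp only [mem_filter, mem_univ, true_and, Pi.add_apply] at he' ⊢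
      by_cases h3 : e' = e
      · rw [h3, ho']
      · simpa [h3] using he'
    · have := hs (mem_filter.mpr ⟨mem_univ e, ho'⟩)
      simp only [mem_filter, mem_univ, true_and, Pi.add_apply, Pi.single_eq_same, ho'] at this
      exact absurd this (by decide)
  · have h3 : e' ≠ e := by rintro rfl; simp only at he'; rw [hce] at he'; exact one_ne_zero he'
    simpa [h3] using hc'.cover e' he'
  · have : ter s t (o + Pi.single e 1) ⊆ insert w ((ter s t o).erase v) := by
      intro x hx
      rw [mem_ter, bd_add, bd_single, bd_eq_ite] at hx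
      rw [mem_insert, mem_erase]
      by_contra hc
      push Not at hc
      by_cases h3 : x = v
      · subst h3
        rcases ha with ⟨k1, k2⟩ | ⟨k1, k2⟩
        · exact hx (by simp [hv, k1, k2, hw]; rfl)
        · exact hx (by simp [hv, k1, k2, hw]; rfl)
      · rcases ha with ⟨k1, k2⟩ | ⟨k1, k2⟩ <;>
          exact hx (by simp [hc.2 h3, k1, k2, Ne.symm h3, Ne.symm hc.1])
    have k1 := card_le_card this
    have k2 := card_insert_le w ((ter s t o).erase v)
    rw [card_erase_of_mem hv] at k2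
    have k3 := card_pos.mpr ⟨v, hv⟩
    have := h1.2
    simp only
    omega

lemma exists_side (hS : State s t c o)
    (hm : ∀ c', State s t c' o → ∀ v ∈ ter s t o, ∀ e ∈ cut s t {v}, c' e = 1 → o e = 0)
    {p : V} (hp : p ∈ ter s t o) {e : E} (he : e ∈ cut s t {p}) (ho : o e = 1) :
    ∃ S : Finset V, p ∉ S ∧ e ∈ cut s t S ∧ ∀ e' ∈ cut s t S, o e' = 1 → e' = e := by
  classical
  obtain ⟨y, hy, ha⟩ := exists_adj_of_mem_star he
  have hpS : ¬ Conn s t (fun e' => o e' = 1 ∧ e' ≠ e) y p := by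
    intro hc
    obtain ⟨J, h1, h2⟩ := hc.flow (1 : ZMod 2)
    have hJ : J e = 0 := h1 e (by simp)
    have hce : c e = 0 := by
      by_contra h
      have := hm c hS p hp e he (z2_ne_zero.mp h)
      rw [ho] at this; exact one_ne_zero this
    have := hm (c + (J + Pi.single e 1)) ⟨fun e' he' => ?_, fun v => ?_⟩ p hp e he
      (by simp [hJ, hce])
    · rw [ho] at this; exact one_ne_zero this
    · by_contra h
      have h3 := z2_ne_one.mp h
      have h4 : e' ≠ e := by rintro rfl; exact h ho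
      simp [h4, h1 e' (by simp [h3]), hS.c_eq_one h3] at he'
    · rw [bd_add, bd_add, hS.even, h2, bd_single]
      rcases ha with ⟨k1, k2⟩ | ⟨k1, k2⟩
      · rw [k1, k2]; abel
      · rw [k1, k2, zero_add]; exact CharTwo.add_self_eq_zero _
  refine ⟨univ.filter (Conn s t (fun e' => o e' = 1 ∧ e' ≠ e) y), by simpa using hpS, ?_,
    fun e' he' ho' => ?_⟩
  · rw [ha.mem_cut]; simp [hpS, Conn.refl]
  · by_contra hne
    rw [mem_cut] at he'
    exact he' (by simpa using conn_iff_edge (F := fun e' => o e' = 1 ∧ e' ≠ e) ⟨ho', hne⟩ y)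

lemma exists_trace (H : Six s t) (hS : State s t c o) (h4 : (ter s t o).card = 4)
    (hm : ∀ c', State s t c' o → ∀ v ∈ ter s t o, ∀ e ∈ cut s t {v}, c' e = 1 → o e = 0)
    {p x : V} (hp : p ∈ ter s t o) (hi : Iso s t c p) (hx : x ∈ ter s t o) (hxp : x ≠ p) :
    ∃ (S : Finset V) (e : E), e ∈ cut s t {p} ∧ p ∉ S ∧
      (∀ e' ∈ cut s t S, o e' = 1 → e' = e) ∧ S ∩ ter s t o = {x} := by
  have ho : ∀ e ∈ cut s t {p}, o e = 1 := fun e he => hS.cover e (hi e he)
  choose! S h1 h2 h3 using fun e (he : e ∈ cut s t {p}) => exists_side hS hm hp he (ho e he)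
  have odd : ∀ e ∈ cut s t {p}, (S e ∩ ter s t o).card % 2 = 1 := by
    intro e he
    rw [← cut_parity, show ((cut s t (S e)).filter fun e' => o e' = 1) = {e} from ?_]
    · rfl
    · ext e'
      simp only [mem_filter, mem_singleton]
      exact ⟨fun h => h3 e he e' h.1 h.2, fun h => by rw [h]; exact ⟨h2 e he, ho e he⟩⟩
  have ev : ∀ e ∈ cut s t {p}, ∀ e' ∈ cut s t {p}, e ≠ e' →
      ((S e ∩ ter s t o) ∩ (S e' ∩ ter s t o)).card % 2 = 0 := by
    intro e he e' he' hne
    have key : ∀ a ∈ cut s t {p}, ∀ b ∈ cut s t {p}, a ≠ b → a ∉ cut s t (S a ∩ S b) := by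
      intro a ha b hb ab h
      obtain ⟨y, -, hy⟩ := exists_adj_of_mem_star ha
      refine ab (h3 b hb a ?_ (ho a ha))
      rw [hy.mem_cut] at h ⊢
      have := h1 a ha
      have := h1 b hb
      simp only [mem_inter] at h
      tauto
    rw [← inter_inter_distrib_right, ← cut_parity, filter_false_of_mem, card_empty]
    intro a ha hoa
    rcases mem_cut_inter ha with h | h
    · rw [h3 e he a h hoa] at ha; exact key e he e' he' hne ha
    · rw [h3 e' he' a h hoa, inter_comm] at ha; exact key e' he' e he hne.symm ha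
  have sub : ∀ e ∈ cut s t {p}, S e ∩ ter s t o ⊆ (ter s t o).erase p := by
    intro e he v hv
    rw [mem_inter] at hv
    exact mem_erase.mpr ⟨fun h => h1 e he (h ▸ hv.1), hv.2⟩
  have h5 : ((ter s t o).erase p).card = 3 := by rw [card_erase_of_mem hp, h4]
  have one : ∀ e ∈ cut s t {p}, (S e ∩ ter s t o).card = 1 := by
    intro e he
    obtain ⟨e', he', hne⟩ := exists_mem_ne (s := cut s t {p}) (by rw [H.cub]; omega) e
    have k1 := odd e he
    have k2 := card_le_card (sub e he)
    by_contra hc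
    have k3 := eq_of_subset_of_card_le (sub e he) (by omega)
    have k4 := ev e he e' he' hne.symm
    rw [k3, inter_eq_right.mpr (sub e' he'), odd e' he'] at k4
    omega
  have hU : (cut s t {p}).biUnion (fun e => S e ∩ ter s t o) = (ter s t o).erase p := by
    refine eq_of_subset_of_card_le (biUnion_subset.mpr sub) ?_
    rw [card_biUnion, sum_congr rfl one, h5]
    · simp [H.cub]
    · intro e he e' he' hne
      have k1 := ev e he e' he' hne
      have k2 : ((S e ∩ ter s t o) ∩ (S e' ∩ ter s t o)).card ≤ _ := card_le_card inter_subset_left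
      rw [one e he] at k2
      have k3 : ((S e ∩ ter s t o) ∩ (S e' ∩ ter s t o)).card = 0 := by omega
      exact disjoint_iff_inter_eq_empty.mpr (card_eq_zero.mp k3)
  have : x ∈ (ter s t o).erase p := mem_erase.mpr ⟨hxp, hx⟩
  rw [← hU, mem_biUnion] at this
  obtain ⟨e, he, hxe⟩ := this
  exact ⟨S e, e, he, h1 e he, h3 e he,
    (eq_of_subset_of_card_le (by simpa using hxe) (by simp [one e he])).symm⟩

lemma iso_unique (H : Six s t) (hS : State s t c o) (h4 : (ter s t o).card = 4)
    (hm : ∀ c', State s t c' o → ∀ v ∈ ter s t o, ∀ e ∈ cut s t {v}, c' e = 1 → o e = 0)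
    {p q : V} (hp : p ∈ ter s t o) (hi : Iso s t c p) (hq : q ∈ ter s t o) (hi' : Iso s t c q) :
    p = q := by
  by_contra hpq
  obtain ⟨x, hx, hx'⟩ := exists_notMem_of_lt (D := ter s t o) (S := {p, q})
    (by have := card_le_two (a := p) (b := q); omega)
  simp only [mem_insert, mem_singleton, not_or] at hx'
  obtain ⟨S, e, h1, h2, h3, h5⟩ := H.exists_trace hS h4 hm hp hi hx hx'.1
  obtain ⟨S', e', h1', h2', h3', h5'⟩ := H.exists_trace hS h4 hm hq hi' hx hx'.2
  have key : ∀ {p q : V} {S S' : Finset V} {e e' : E}, p ≠ q → e ∈ cut s t {p} → e' ∈ cut s t {q} →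
      p ∉ S → p ∉ S' → q ∉ S' → (∀ a ∈ cut s t S', o a = 1 → a = e') → o e = 1 →
      e ∉ cut s t (S ∩ S') := by
    intro p q S S' e e' hpq h1 h1' h2 h6 h2' h3' ho h
    obtain ⟨y, -, hy⟩ := exists_adj_of_mem_star h1
    have k1 : y ∈ S' := by
      rw [hy.mem_cut] at h
      simp only [mem_inter] at h
      tauto
    have k2 : e = e' := h3' e (by rw [hy.mem_cut]; tauto) ho
    rw [← k2, hy.mem_cut] at h1'
    have : y = q := by simpa [hpq] using h1'
    exact h2' (this ▸ k1)
  have hpS : p ∉ S' := fun h => hx'.1 (mem_singleton.mp (h5' ▸ mem_inter.mpr ⟨h, hp⟩)).symm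
  have hqS : q ∉ S := fun h => hx'.2 (mem_singleton.mp (h5 ▸ mem_inter.mpr ⟨h, hq⟩)).symm
  have k := cut_parity s t o (S ∩ S')
  rw [inter_inter_distrib_right, h5, h5', inter_self, card_singleton, filter_false_of_mem,
    card_empty] at k
  · omega
  intro a ha hoa
  rcases mem_cut_inter ha with h | h
  · have := h3 a h hoa
    subst this
    exact key hpq h1 h1' h2 hpS h2' h3' hoa ha
  · have := h3' a h hoa
    subst this
    rw [inter_comm] at ha
    exact key (Ne.symm hpq) h1' h1 h2' hqS h2 h3 hoa ha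

lemma no_par (H : Six s t) (hn : 4 ≤ Fintype.card V) {e e' : E} {u v : V} (huv : u ≠ v)
    (h : Adj s t e u v) (h' : Adj s t e' u v) : e = e' := by
  by_contra hne
  have k1 := sum_deg s t {u, v}
  rw [sum_pair huv, H.cub, H.cub] at k1
  have k2 : ({e, e'} : Finset E).card ≤ (inn s t {u, v}).card := card_le_card
    (insert_subset (h.mem_inn (by simp) (by simp) huv)
      (singleton_subset_iff.mpr (h'.mem_inn (by simp) (by simp) huv)))
  rw [card_pair hne] at k2
  have k3 := card_add_card_compl ({u, v} : Finset V)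
  have k4 := card_pair huv
  rcases H.p6 {u, v} (by omega) with (k | k) | (k | k)
  · omega
  · simp at k
  · rw [cut_compl] at k; omega
  · rw [k, card_empty] at k3; omega

lemma two_nbrs (H : Six s t) (hn : 4 ≤ Fintype.card V) {P : E → Prop} [DecidablePred P] {v : V}
    (h : 1 < ((cut s t {v}).filter P).card) :
    ∃ e e' a b, P e ∧ P e' ∧ Adj s t e v a ∧ Adj s t e' v b ∧ ({v, a, b} : Finset V).card = 3 := by
  obtain ⟨e, he, e', he', hne⟩ := one_lt_card.mp h
  rw [mem_filter] at he he'
  obtain ⟨a, ha, ha'⟩ := exists_adj_of_mem_star he.1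
  obtain ⟨b, hb, hb'⟩ := exists_adj_of_mem_star he'.1
  have : a ≠ b := by rintro rfl; exact hne (H.no_par hn ha.symm ha' hb')
  exact ⟨e, e', a, b, he.2, he'.2, ha', hb', by
    rw [card_insert_of_notMem (by simp [ha.symm, hb.symm]), card_pair this]⟩

lemma c_deg (hS : State s t c o) {v : V} (h : ¬ Iso s t c v) :
    1 < ((cut s t {v}).filter fun e => c e = 1).card := by
  have h1 := cut_parity s t c {v}
  have h3 : ter s t c = ∅ := by ext v; simp [mem_ter, hS.even v]
  rw [h3, inter_empty, card_empty] at h1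
  unfold Iso at h
  push Not at h
  obtain ⟨e, he, he'⟩ := h
  have : 0 < ((cut s t {v}).filter fun e => c e = 1).card :=
    card_pos.mpr ⟨e, mem_filter.mpr ⟨he, z2_ne_zero.mp he'⟩⟩
  omega

lemma nine_le (H : Six s t) (hS : State s t c o) (h4 : (ter s t o).card = 4)
    (h1 : ∀ p ∈ ter s t o, ∀ q ∈ ter s t o, Iso s t c p → Iso s t c q → p = q) :
    9 ≤ Fintype.card V := by
  classical
  have hn : 4 ≤ Fintype.card V := h4 ▸ card_le_univ _
  have k1 := card_filter_add_card_filter_not (s := ter s t o) (Iso s t c)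
  have k2 : ((ter s t o).filter (Iso s t c)).card ≤ 1 := card_le_one.mpr fun a ha b hb =>
    h1 a (mem_filter.mp ha).1 b (mem_filter.mp hb).1 (mem_filter.mp ha).2 (mem_filter.mp hb).2
  have k3 := card_le_univ (((ter s t o).filter fun v => ¬ Iso s t c v).biUnion
    fun v => univ.filter (Conn s t (fun e => c e = 1) v))
  rw [card_biUnion] at k3
  · have k4 := card_nsmul_le_sum ((ter s t o).filter fun v => ¬ Iso s t c v)
      (fun v => (univ.filter (Conn s t (fun e => c e = 1) v)).card) 3 (by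
        intro v hv
        obtain ⟨e, e', a, b, p1, p2, p3, p4, p5⟩ := H.two_nbrs hn (c_deg hS (mem_filter.mp hv).2)
        rw [← p5]
        refine card_le_card fun x hx => ?_
        simp only [mem_insert, mem_singleton] at hx
        simp only [mem_filter, mem_univ, true_and]
        rcases hx with rfl | rfl | rfl
        exacts [Conn.refl _ _ _ _, p3.conn p1, p4.conn p2])
    rw [smul_eq_mul] at k4
    omega
  · intro u hu v hv huv
    rw [Function.onFun, disjoint_filter]
    intro x _ hx hx'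
    exact huv (H.not_conn hS h4.le (mem_filter.mp hu).1 (mem_filter.mp hv).1 (hx.trans hx'.symm))

lemma sparse (H : Six s t) (hn : 9 ≤ Fintype.card V) {X : Finset V} (hX : X.card ≤ 5)
    (h0 : X.Nonempty) (hd : (cut s t X).card ≤ 5) : X.card + 2 ≤ (cut s t X).card := by
  have k3 := card_add_card_compl X
  rcases H.p6 X hd with (k | k) | (k | k)
  · exact k
  · exact absurd k h0.ne_empty
  · rw [cut_compl] at k; omega
  · rw [k, card_empty] at k3; omega

lemma deg_sum (H : Six s t) (X : Finset V) :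
    3 * X.card = (cut s t X).card + 2 * (inn s t X).card := by
  rw [← sum_deg, sum_congr rfl fun v _ => H.cub v, sum_const, smul_eq_mul, mul_comm]

lemma acyclic (H : Six s t) (hn : 9 ≤ Fintype.card V) {X : Finset V} {F : Finset E} {n : ℕ}
    (hX : X.card ≤ n) (h5 : n ≤ 5) (h0 : X.Nonempty) (hF : F ⊆ inn s t X) : F.card ≠ n := by
  intro h
  have k1 := H.deg_sum X
  have k2 := card_le_card hF
  have := H.sparse hn (by omega) h0 (by omega)
  omega

lemma exists_far (H : Six s t) (hn : 9 ≤ Fintype.card V) (hS : State s t c o) {p v : V}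
    (hp : Iso s t c p) (hv : ¬ Iso s t c v) :
    ∃ x, Conn s t (fun e => c e = 1) v x ∧ ¬ Iso s t c x ∧ (∀ e, ¬ Adj s t e p x) ∧
      ∀ e w e', Adj s t e p w → w ≠ p → Adj s t e' w x → c e' ≠ 1 := by
  by_cases h : ∃ y e, Conn s t (fun e => c e = 1) v y ∧ Adj s t e p y
  swap
  · push Not at h
    exact ⟨v, Conn.refl _ _ _ _, hv, fun e => h v e (Conn.refl _ _ _ _),
      fun e w e' h1 _ h2 h3 => h w e (h2.symm.conn h3) h1⟩
  obtain ⟨y, e, hy, he⟩ := h
  have niso : ∀ {a b : V} {e : E}, Adj s t e a b → b ≠ a → c e = 1 → ¬ Iso s t c a := by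
    intro a b e h1 h2 h3 h4
    rw [h4 e (h1.mem_star h2)] at h3
    exact zero_ne_one h3
  have hy' : ¬ Iso s t c y := by
    refine (hy.closed (P := fun x => ¬ Iso s t c x) fun e he => ?_).mp hv
    by_cases hl : s e = t e
    · rw [hl]
    · exact iff_of_true (niso (Or.inl ⟨rfl, rfl⟩) (Ne.symm hl) he)
        (niso (Or.inr ⟨rfl, rfl⟩) hl he)
  obtain ⟨e1, he1⟩ := card_pos.mp (zero_lt_one.trans (c_deg hS hy'))
  obtain ⟨he1, c1⟩ := mem_filter.mp he1
  obtain ⟨u, uy, a1⟩ := exists_adj_of_mem_star he1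
  have hu' := niso a1.symm uy.symm c1
  obtain ⟨e2, he2, n21⟩ := exists_mem_ne (c_deg hS hu') e1
  obtain ⟨he2, c2⟩ := mem_filter.mp he2
  obtain ⟨x, xu, a2⟩ := exists_adj_of_mem_star he2
  have hx' := niso a2.symm xu.symm c2
  have yp : y ≠ p := by rintro rfl; exact hy' hp
  have up : u ≠ p := by rintro rfl; exact hu' hp
  have xp : x ≠ p := by rintro rfl; exact hx' hp
  have xy : x ≠ y := by rintro rfl; exact n21 (H.no_par (by omega) uy a2 a1.symm)
  have nc : ∀ {a b : E} {w : V}, Adj s t a p w → w ≠ p → c b = 1 → a ≠ b := by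
    rintro a b w h1 h2 h3 rfl
    rw [hp a (h1.mem_star h2)] at h3
    exact zero_ne_one h3
  have A : ∀ e', ¬ Adj s t e' p x := by
    intro e' he'
    have n0 : e ≠ e' := by rintro rfl; exact xy (he'.unique he)
    refine H.acyclic hn (X := {p, y, u, x}) (F := {e, e', e1, e2}) card_le_four (by omega)
      (by simp) ?_ ?_
    · simp only [insert_subset_iff, singleton_subset_iff]
      exact ⟨he.mem_inn (by simp) (by simp) yp.symm, he'.mem_inn (by simp) (by simp) xp.symm,
        a1.mem_inn (by simp) (by simp) uy.symm, a2.mem_inn (by simp) (by simp) xu.symm⟩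
    · rw [card_insert_of_notMem (by simp [n0, nc he yp c1, nc he yp c2]),
        card_insert_of_notMem (by simp [nc he' xp c1, nc he' xp c2]), card_pair n21.symm]
  refine ⟨x, hy.trans ((a1.conn c1).trans (a2.conn c2)), hx', A, fun e' w e3 he' wp a3 c3 => ?_⟩
  have wx : w ≠ x := by rintro rfl; exact A e' he'
  by_cases wu : w = u
  · subst wu
    have n0 : e ≠ e' := by rintro rfl; exact uy (he'.unique he)
    refine H.acyclic hn (X := {p, y, w}) (F := {e, e', e1}) card_le_three (by omega) (by simp) ?_ ?_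
    · simp only [insert_subset_iff, singleton_subset_iff]
      exact ⟨he.mem_inn (by simp) (by simp) yp.symm, he'.mem_inn (by simp) (by simp) wp.symm,
        a1.mem_inn (by simp) (by simp) uy.symm⟩
    · rw [card_insert_of_notMem (by simp [n0, nc he yp c1]), card_pair (nc he' wp c1)]
  have n23 : e2 ≠ e3 := by rintro rfl; exact wu (a3.symm.unique a2.symm)
  have n13 : e1 ≠ e3 := by
    rintro rfl
    rcases a1 with ⟨k1, k2⟩ | ⟨k1, k2⟩ <;> rcases a3 with ⟨k3, k4⟩ | ⟨k3, k4⟩ <;> simp_all
  by_cases wy : w = y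
  · subst wy
    refine H.acyclic hn (X := {w, u, x}) (F := {e1, e2, e3}) card_le_three (by omega) (by simp) ?_ ?_
    · simp only [insert_subset_iff, singleton_subset_iff]
      exact ⟨a1.mem_inn (by simp) (by simp) uy.symm, a2.mem_inn (by simp) (by simp) xu.symm,
        a3.mem_inn (by simp) (by simp) wx⟩
    · rw [card_insert_of_notMem (by simp [n21.symm, n13]), card_pair n23]
  have n0 : e ≠ e' := by rintro rfl; exact wy (he'.unique he)
  refine H.acyclic hn (X := {p, y, u, x, w}) (F := {e, e', e1, e2, e3}) card_le_five (by omega)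
    (by simp) ?_ ?_
  · simp only [insert_subset_iff, singleton_subset_iff]
    exact ⟨he.mem_inn (by simp) (by simp) yp.symm, he'.mem_inn (by simp) (by simp) wp.symm,
      a1.mem_inn (by simp) (by simp) uy.symm, a2.mem_inn (by simp) (by simp) xu.symm,
      a3.mem_inn (by simp) (by simp) wx⟩
  · rw [card_insert_of_notMem (by simp [n0, nc he yp c1, nc he yp c2, nc he yp c3]),
      card_insert_of_notMem (by simp [nc he' wp c1, nc he' wp c2, nc he' wp c3]),
      card_insert_of_notMem (by simp [n21.symm, n13]), card_pair n23]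

end Six

/-- a state to which the corner argument applies -/
structure Nice (s t : E → V) (c o : E → ZMod 2) : Prop where
  st : State s t c o
  four : (ter s t o).card = 4
  nob : ∀ v ∈ ter s t o, ∀ e ∈ cut s t {v}, c e = 1 → o e = 0
  one : ∀ p ∈ ter s t o, ∀ q ∈ ter s t o, Iso s t c p → Iso s t c q → p = q
  far : ∀ p ∈ ter s t o, Iso s t c p → ∀ e w, Adj s t e p w → w ≠ p →
    w ∉ ter s t o ∧ ∀ e' u, Adj s t e' w u → c e' = 1 → u ∉ ter s t o

lemma Six.kempe {s t : E → V} (H : Six s t) {c o : E → ZMod 2} (hS : State s t c o)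
    (h4 : (ter s t o).card ≤ 4) : ∃ o', State s t c o' ∧ ter s t o' = ter s t o ∧
      ∀ v ∈ ter s t o, ∀ e ∈ cut s t {v}, c e = 1 → o' e = 0 := by
  classical
  let S : V → Prop := fun v => ∃ u ∈ ter s t o, nb s t c o {u} ≠ 0 ∧ Conn s t (fun e => c e = 1) u v
  have hcl : ∀ v, ∀ e ∈ cut s t {v}, c e = 1 → (S (s e) ↔ S v) := by
    intro v e he hc
    obtain ⟨w, -, ⟨h1, -⟩ | ⟨-, h1⟩⟩ := exists_adj_of_mem_star he
    · rw [h1]
    · rw [← h1]
      exact exists_congr fun u => and_congr_right fun _ => and_congr_right fun _ =>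
        conn_iff_edge (F := fun e => c e = 1) hc u
  let q : E → ZMod 2 := fun e => if S (s e) then c e else 0
  have hq : ∀ v, bd s t q v = 0 := by
    intro v
    by_cases hv : S v
    · rw [← hS.even v]
      refine bd_congr s t fun e he => ?_
      rcases z2_cases (c e) with h | h
      · simp [q, h]
      · simp only [q, if_pos ((hcl v e he h).mpr hv)]
    · rw [← bd_zero s t v]
      refine bd_congr s t fun e he => ?_
      rcases z2_cases (c e) with h | h
      · simp [q, h]
      · simp only [q, if_neg (fun h' => hv ((hcl v e he h).mp h')), Pi.zero_apply]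
  refine ⟨o + q, ⟨fun e he => by simp [q, he, hS.cover e he], hS.even⟩, ?_, fun v hv e he hc => ?_⟩
  · ext v; simp only [mem_ter, bd_add, hq, add_zero]
  obtain ⟨k1, k2, k3⟩ := hS.counts {v}
  rw [H.cub] at k1
  rw [singleton_inter_of_mem hv, card_singleton] at k3
  by_cases hb : nb s t c o {v} = 0
  · have h1 : ¬ S v := by
      rintro ⟨u, hu, hu', huv⟩
      rw [H.not_conn hS h4 hu hv huv] at hu'
      exact hu' hb
    have h2 : o e = 0 := by
      by_contra h
      have : 0 < nb s t c o {v} := card_pos.mpr ⟨e, mem_filter.mpr ⟨he, hc, z2_ne_zero.mp h⟩⟩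
      omega
    simp only [Pi.add_apply, q, if_neg (fun h' => h1 ((hcl v e he hc).mp h')), h2, add_zero]
  · have h1 : S v := ⟨v, hv, hb, Conn.refl _ _ _ _⟩
    have h2 : o e = 1 := by
      by_contra h
      have : 0 < nm s t o {v} := card_pos.mpr ⟨e, mem_filter.mpr ⟨he, z2_ne_one.mp h⟩⟩
      omega
    simp only [Pi.add_apply, q, if_pos ((hcl v e he hc).mpr h1), h2, hc]
    rfl

lemma Six.exists_nice {s t : E → V} (H : Six s t) {c o : E → ZMod 2} (hS : State s t c o)
    (h : (ter s t o).card ≤ 4) : 9 ≤ Fintype.card V ∧ ∃ c o, Nice s t c o := by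
  classical
  obtain ⟨c, o, hS, h, hm⟩ := Six.exists_min hS h
  have h4 := H.four hS h
  have h1 : ∀ p ∈ ter s t o, ∀ q ∈ ter s t o, Iso s t c p → Iso s t c q → p = q :=
    fun p hp q hq hi hi' => H.iso_unique hS h4 hm hp hi hq hi'
  have hn := H.nine_le hS h4 h1
  refine ⟨hn, c, ?_⟩
  by_cases hp : ∃ p ∈ ter s t o, Iso s t c p
  swap
  · push Not at hp
    exact ⟨o, hS, h4, hm c hS, h1, fun p hp' hi => absurd hi (hp p hp')⟩
  obtain ⟨p, hp, hi⟩ := hp
  have : ∀ v ∈ ter s t o, ∃ x, Conn s t (fun e => c e = 1) v x ∧ (x = p ∨ (¬ Iso s t c x ∧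
      (∀ e, ¬ Adj s t e p x) ∧ ∀ e w e', Adj s t e p w → w ≠ p → Adj s t e' w x → c e' ≠ 1)) := by
    intro v hv
    by_cases hvp : v = p
    · exact ⟨v, Conn.refl _ _ _ _, Or.inl hvp⟩
    · obtain ⟨x, k1, k2⟩ := H.exists_far hn hS hi (fun h => hvp (h1 v hv p hp h hi))
      exact ⟨x, k1, Or.inr k2⟩
  choose! τ hτ hτ' using this
  choose! J hJ hJ' using fun v (hv : v ∈ ter s t o) => (hτ v hv).flow (1 : ZMod 2)
  have hS1 : State s t c (o + ∑ v ∈ ter s t o, J v) := ⟨fun e he => by
    rw [Pi.add_apply, Finset.sum_apply, hS.cover e he,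
      sum_eq_zero fun v hv => hJ v hv e (by simp [he]), add_zero], hS.even⟩
  have hsub : ter s t (o + ∑ v ∈ ter s t o, J v) ⊆ (ter s t o).image τ := by
    intro w hw
    by_contra hc
    rw [mem_ter, bd_add, bd_sum, sum_congr rfl fun v hv => hJ' v hv w, sum_sub_distrib,
      sum_ite_eq', ← bd_eq_ite, sum_eq_zero (f := fun v => if τ v = w then (1 : ZMod 2) else 0)
        fun v hv => if_neg fun h => hc (mem_image.mpr ⟨v, hv, h⟩), sub_zero] at hw
    exact hw (CharTwo.add_self_eq_zero _)
  have h5 := (card_le_card hsub).trans (card_image_le.trans h)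
  obtain ⟨o', k1, k2, k3⟩ := H.kempe hS1 h5
  rw [← k2] at k3 hsub h5
  have hx : ∀ x ∈ ter s t o', x = p ∨ (¬ Iso s t c x ∧
      (∀ e, ¬ Adj s t e p x) ∧ ∀ e w e', Adj s t e p w → w ≠ p → Adj s t e' w x → c e' ≠ 1) := by
    intro x hx
    obtain ⟨v, hv, rfl⟩ := mem_image.mp (hsub hx)
    exact hτ' v hv
  have hx' : ∀ x ∈ ter s t o', Iso s t c x → x = p := fun x h hi' =>
    (hx x h).resolve_right fun h => h.1 hi'
  refine ⟨o', k1, H.four k1 h5, k3, fun a ha b hb ia ib => (hx' a ha ia).trans (hx' b hb ib).symm,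
    fun a ha ia e w he hw => ?_⟩
  obtain rfl := hx' a ha ia
  refine ⟨fun h => ((hx w h).resolve_left hw).2.1 e he, fun e' u he' hc hu => ?_⟩
  rcases hx u hu with rfl | k
  · rw [ia e' (he'.symm.mem_star hw)] at hc
    exact zero_ne_one hc
  · exact k.2.2 e w e' he hw he' hc

end Pool.Agent.Lib.MP_c8786f_co.WO
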