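import Pool.Agent.Lib.MP_c8786f_co.WO.Corner
import Pool.Agent.Lib.MP_c8786f_co.WO.Expand

/-!
From an even subgraph with few odd components to a state, and the main theorem.
-/

namespace Pool.Agent.Lib.MP_c8786f_co.WO

open Finset

set_option linter.unusedSectionVars false

variable {V E : Type} [Fintype V] [DecidableEq V] [Fintype E] [DecidableEq E]

theorem flow_of_state {s t : E → V} (hb : Bridgeless s t) {c o : E → ZMod 2} (hS : State s t c o)
    (h4 : (ter s t o).card ≤ 4) : HasFlow s t :=
  reduce_deg (K := 4) rfl le_rfl four_base _ _ V E s t (Nat.lt_succ_self _)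
    ⟨hb, le_rfl, c, o, hS, h4⟩

lemma bd_indicator (s t : E → V) (C : Finset E) (v : V) :
    bd s t (fun e => if e ∈ C then (1 : ZMod 2) else 0) v =
      (((C.filter fun e => s e = v).card + (C.filter fun e => t e = v).card : ℕ) : ZMod 2) := by
  rw [bd_eq_filter, sum_boole, sum_boole, CharTwo.sub_eq_add, Nat.cast_add]
  congr 3 <;> ext e <;> simp [and_comm]

lemma exists_state (s t : E → V) (C : Finset E)
    (hC : ∀ v, Even ((C.filter fun e => s e = v).card + (C.filter fun e => t e = v).card)) :
    ∃ c o, State s t c o ∧ (ter s t o).card ≤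
      {K : (SimpleGraph.fromRel fun u v => ∃ e ∈ C, s e = u ∧ t e = v).ConnectedComponent |
        Odd {v ∈ K.supp | Odd ((univ.filter fun e => s e = v).card +
          (univ.filter fun e => t e = v).card)}.ncard}.ncard := by
  classical
  set G := SimpleGraph.fromRel fun u v => ∃ e ∈ C, s e = u ∧ t e = v with hG
  let r : V → V := fun v => (G.connectedComponentMk v).out
  have hr' : ∀ v, G.connectedComponentMk (r v) = G.connectedComponentMk v := fun v => Quot.out_eq _
  have hr : ∀ v, Conn s t (· ∈ C) v (r v) := by
    intro v
    obtain ⟨p⟩ := SimpleGraph.ConnectedComponent.exact (hr' v).symm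
    generalize r v = w at p
    induction p with
    | nil => exact Conn.refl _ _ _ _
    | cons h _ ih =>
      refine Conn.trans ?_ ih
      rw [hG, SimpleGraph.fromRel_adj] at h
      rcases h.2 with ⟨e, he, rfl, rfl⟩ | ⟨e, he, rfl, rfl⟩
      · exact conn_edge he
      · exact (conn_edge he).symm
  let P : G.ConnectedComponent → Prop := fun K => Odd {v ∈ K.supp |
    Odd ((univ.filter fun e => s e = v).card + (univ.filter fun e => t e = v).card)}.ncard
  let T : Finset V := univ.filter fun w => r w = w ∧ P (G.connectedComponentMk w)
  obtain ⟨J, h1, h2⟩ := exists_of_rep hr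
    (fun v => bd s t (1 : E → ZMod 2) v + if v ∈ T then 1 else 0) (by
      intro w
      by_cases hw : r w = w
      swap
      · refine sum_eq_zero fun v hv => absurd ?_ hw
        rw [← (mem_filter.mp hv).2]
        simp only [r, hr' v]
      have k1 : ∀ v, bd s t (1 : E → ZMod 2) v = if Odd ((univ.filter fun e => s e = v).card +
          (univ.filter fun e => t e = v).card) then 1 else 0 := by
        intro v
        have := bd_indicator s t univ v
        simp only [mem_univ, if_true] at this
        rw [show (1 : E → ZMod 2) = fun _ => 1 from rfl, this]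
        split_ifs with h
        · exact ZMod.natCast_eq_one_iff_odd.mpr h
        · exact ZMod.natCast_eq_zero_iff_even.mpr (Nat.not_odd_iff_even.mp h)
      have k2 : {v ∈ (G.connectedComponentMk w).supp | Odd ((univ.filter fun e => s e = v).card +
          (univ.filter fun e => t e = v).card)} = ↑((univ.filter fun v => r v = w).filter fun v =>
            Odd ((univ.filter fun e => s e = v).card + (univ.filter fun e => t e = v).card)) := by
        ext v
        simp only [SimpleGraph.ConnectedComponent.mem_supp_iff, Set.mem_ofPred_eq, coe_filter,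
          mem_filter, mem_univ, true_and]
        refine and_congr_left fun _ => ⟨fun h => ?_, fun h => by rw [← h, hr']⟩
        rw [← hw]
        simp only [r, h]
      rw [sum_add_distrib, sum_congr rfl fun v _ => k1 v, sum_boole, sum_eq_single w]
      · simp only [T, mem_filter, mem_univ, true_and, hw, P, k2, Set.ncard_coe_finset]
        split_ifs with h
        · rw [ZMod.natCast_eq_one_iff_odd.mpr h]; rfl
        · rw [ZMod.natCast_eq_zero_iff_even.mpr (Nat.not_odd_iff_even.mp h)]; rfl
      · intro v hv hne
        refine if_neg fun h => hne ?_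
        rw [← (mem_filter.mp h).2.1, (mem_filter.mp hv).2]
      · intro h
        exact absurd (by simpa using hw) h)
  refine ⟨fun e => if e ∈ C then 1 else 0, 1 + J, ⟨fun e he => ?_, fun v => ?_⟩, ?_⟩
  · have : e ∉ C := fun h => by simp [h] at he
    simp [h1 e this]
  · rw [bd_indicator]
    exact ZMod.natCast_eq_zero_iff_even.mpr (hC v)
  · have : ter s t (1 + J) = T := by
      ext v
      rw [mem_ter, bd_add, h2, ← add_assoc, CharTwo.add_self_eq_zero, zero_add]
      simp
    rw [this, ← Set.ncard_coe_finset]
    refine Set.ncard_le_ncard_of_injOn G.connectedComponentMk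
      (fun v hv => (mem_filter.mp hv).2.2) (fun u hu v hv h => ?_) (Set.toFinite _)
    rw [← (mem_filter.mp hu).2.1, ← (mem_filter.mp hv).2.1]
    simp only [r, h]

end Pool.Agent.Lib.MP_c8786f_co.WO
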