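import Pool.Agent.Lib.MP_c8786f_co.WO.Surgery
import Pool.Agent.Lib.MP_c8786f_co.WO.Core

/-!
Cuts with at most five edges in a smallest graph of the class without a flow are trivial.
-/

namespace Pool.Agent.Lib.MP_c8786f_co.WO

open Finset

set_option linter.unusedSectionVars false

variable {V E : Type} [Fintype V] [DecidableEq V] [Fintype E] [DecidableEq E]

/-- `X` is the small side of its cut -/
def Triv (s t : E → V) (X : Finset V) : Prop := X.card + 2 ≤ (cut s t X).card ∨ X = ∅

lemma cut_sdiff_card (s t : E → V) {X Y : Finset V} (h : Y ⊆ X) :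
    (cut s t (X \ Y)).card = (cut s t Y \ cut s t X).card + (cut s t X \ cut s t Y).card := by
  rw [← card_union_of_disjoint disjoint_sdiff_sdiff]
  congr 1
  ext e
  have k1 := @h (s e)
  have k2 := @h (t e)
  simp only [mem_cut, mem_sdiff, mem_union]
  tauto

lemma fiber_pair {R : Type} [DecidableEq R] {D : Finset E} {att : E → R} {r : R} {i j : E}
    (hi : i ∈ D) (hj : j ∈ D) (h : ∀ e, att e = r ↔ e = i ∨ e = j) :
    (D.filter fun e => att e = r) = {i, j} := by
  ext e
  simp only [mem_filter, h, mem_insert, mem_singleton]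
  constructor
  · exact fun h => h.2
  · rintro (rfl | rfl) <;> simp [*]

/-- a smallest member of the class without a flow -/
structure Minimal (K m : ℕ) (s t : E → V) (c o : E → ZMod 2) : Prop where
  even : K % 2 = 0
  four : 4 ≤ K
  IH : Smaller K m (Fintype.card V)
  br : Bridgeless s t
  exc : ∑ v, ((cut s t {v}).card - 3) ≤ m
  st : State s t c o
  few : (ter s t o).card ≤ K
  nf : ¬ HasFlow s t

namespace Minimal

variable {K : ℕ} {s t : E → V} {c o : E → ZMod 2}

lemma pole_vertex {m : ℕ} (H : Minimal K m s t c o) {X : Finset V} (hd : (cut s t X).card ≤ 3)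
    (hs : 1 < Xᶜ.card) : ∃ β, NZ (cut s t X) β ∧ Ext s t X β := by
  obtain ⟨β, -, h1, h2, -⟩ := replace (R := Unit) (Q := Empty) H.even H.IH H.exc H.st H.few X
    (fun _ => ()) Empty.elim Empty.elim (by simpa using hs) (by
      intro Y hY W
      have h0 : (cut (Empty.elim : Empty → Unit) Empty.elim W).card = 0 := by simp [cut]
      by_cases hW : () ∈ W
      · have := H.br (X \ Y)
        rw [cut_sdiff_card s t hY] at this
        rw [h0, show ((cut s t X).filter fun e => ¬ (e ∈ cut s t Y ↔ () ∈ W)) =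
          cut s t X \ cut s t Y by ext e; simp [hW]]
        exact this
      · have := H.br Y
        rw [← card_sdiff_add_card_inter (cut s t Y) (cut s t X)] at this
        rw [h0, show ((cut s t X).filter fun e => ¬ (e ∈ cut s t Y ↔ () ∈ W)) =
          cut s t Y ∩ cut s t X by ext e; simp [hW, and_comm]]
        exact this) (fun r => by simpa [cut] using hd) Empty.elim Empty.elim (fun q => q.elim) ()
    (fun r hr => absurd rfl hr) (Or.inr fun r hr => absurd rfl hr)
  exact ⟨β, h1, h2⟩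

lemma cut_three {m : ℕ} (H : Minimal K m s t c o) (X : Finset V) (hd : (cut s t X).card ≤ 3) :
    X.card ≤ 1 ∨ Xᶜ.card ≤ 1 := by
  by_contra hc
  push Not at hc
  obtain ⟨β, h1, h2⟩ := H.pole_vertex hd hc.2
  obtain ⟨β', h1', h2'⟩ := H.pole_vertex (X := Xᶜ) (by rwa [cut_compl]) (by rw [compl_compl]; exact hc.1)
  rw [cut_compl] at h1'
  obtain ⟨N, hF, -, hN⟩ := exists_form (s := s) (t := t) (X := X) (by omega)
  have := hF.small hd h1 h1'
  exact H.nf (Ext.glue ((hN β').mpr (this ▸ (hN β).mp h2)) h2' h1'.1)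

lemma four_le {m : ℕ} (H : Minimal K m s t c o) : 4 ≤ Fintype.card V := by
  by_contra h
  exact H.nf (flow_of_two H.st H.br ((card_le_univ _).trans (by omega)))

lemma deg (H : Minimal K 0 s t c o) (v : V) : (cut s t {v}).card ≤ 3 := by
  have := (sum_eq_zero_iff.mp (Nat.le_zero.mp H.exc)) v (mem_univ v)
  omega

lemma cubic (H : Minimal K 0 s t c o) (v : V) : (cut s t {v}).card = 3 := by
  by_contra h
  have h1 := H.deg v
  have h4 := H.four_le
  obtain ⟨w, hw, h2⟩ : ∃ w, w ≠ v ∧ (cut s t {v, w}).card ≤ 3 := by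
    by_cases h0 : (cut s t {v}).Nonempty
    · obtain ⟨e, he⟩ := h0
      obtain ⟨w, hw, ha⟩ := exists_adj_of_mem_star he
      refine ⟨w, hw, ?_⟩
      have k := sum_deg s t {v, w}
      rw [sum_pair hw.symm] at k
      have : 0 < (inn s t {v, w}).card :=
        card_pos.mpr ⟨e, ha.mem_inn (by simp) (by simp) hw.symm⟩
      have := H.deg w
      omega
    · obtain ⟨w, hw⟩ := Fintype.exists_ne_of_one_lt_card (by omega) v
      refine ⟨w, hw, ?_⟩
      have k := sum_deg s t {v, w}
      rw [sum_pair hw.symm, not_nonempty_iff_eq_empty.mp h0, card_empty] at k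
      have := H.deg w
      omega
  have k1 := card_add_card_compl ({v, w} : Finset V)
  have k2 := card_pair hw.symm
  have := H.cut_three _ h2
  omega

lemma triv_three (H : Minimal K 0 s t c o) (X : Finset V) (hd : (cut s t X).card ≤ 3) :
    Triv s t X ∨ Triv s t Xᶜ := by
  have key : ∀ Y : Finset V, Y.card ≤ 1 → Triv s t Y := by
    intro Y hY
    rcases Y.eq_empty_or_nonempty with h | ⟨v, hv⟩
    · exact Or.inr h
    · have : Y = {v} := (eq_of_subset_of_card_le (by simpa using hv) (by simpa using hY)).symm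
      rw [this]; left; rw [H.cubic]; simp
  exact (H.cut_three X hd).imp (key _) (key _)

lemma twoConn (H : Minimal K 0 s t c o) {X : Finset V} (hd : (cut s t X).card ≤ 5)
    (hd' : 4 ≤ (cut s t X).card) (h1 : ¬ Triv s t X) (h2 : ¬ Triv s t Xᶜ)
    (hs : ∀ Y, (cut s t Y).card < (cut s t X).card → Triv s t Y ∨ Triv s t Yᶜ) :
    TwoConn s t X := by
  unfold Triv at h1 h2
  rw [cut_compl] at h2
  push Not at h1 h2
  have hsub : ∀ Y ⊆ X, (cut s t Y).card < (cut s t X).card →
      (cut s t Y).card = 0 ∨ (1 ≤ Y.card ∧ Y.card + 2 ≤ (cut s t Y).card) := by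
    intro Y hY hlt
    have k : Xᶜ.card ≤ Yᶜ.card := card_le_card (compl_subset_compl.mpr hY)
    rcases Y.eq_empty_or_nonempty with h | h
    · left; rw [h, cut_empty, card_empty]
    · have k1 := card_pos.mpr h
      have k2 := card_pos.mpr h2.2
      rcases hs Y hlt with (h3 | h3) | (h3 | h3)
      · exact Or.inr ⟨k1, h3⟩
      · exact absurd h3 h.ne_empty
      · rw [cut_compl] at h3; omega
      · rw [h3, card_empty] at k; omega
  intro Y hY
  have p1 := hsub Y hY
  have p2 := hsub (X \ Y) sdiff_subset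
  have p3 := H.br Y
  have p4 := H.br (X \ Y)
  have p5 := cut_sdiff_card s t hY
  have p6 := card_sdiff_add_card_inter (cut s t Y) (cut s t X)
  have p7 := card_sdiff_add_card_inter (cut s t X) (cut s t Y)
  have p8 := card_sdiff_add_card_eq_card hY
  rw [inter_comm] at p6
  refine ⟨by omega, fun h0 => ?_⟩
  by_cases h3 : (cut s t X ∩ cut s t Y).card = 0
  · exact Or.inr (disjoint_iff_inter_eq_empty.mpr (card_eq_zero.mp h3))
  · exact Or.inl (sdiff_eq_empty_iff_subset.mp (card_eq_zero.mp (by omega)))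

lemma pole_pair (H : Minimal K 0 s t c o) {X : Finset V} (h2 : TwoConn s t X)
    (hd : (cut s t X).card = 4 ∨ (cut s t X).card = 5) (hs : 2 < Xᶜ.card) {i j : E}
    (hi : i ∈ cut s t X) (hj : j ∈ cut s t X) (ij : i ≠ j) (hc : c i = c j)
    (ho : (X ∩ ter s t o).card + 2 ≤ K ∨ o i = o j) :
    ∃ β, NZ (cut s t X) β ∧ Ext s t X β ∧ β i + β j = 0 := by
  let att : E → Bool := fun e => decide (e = i ∨ e = j)
  have hf : ((cut s t X).filter fun e => att e = true) = {i, j} :=
    fiber_pair hi hj (by simp [att])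
  have hn : ∀ r, ((cut s t X).filter fun e => att e = r).card =
      (fun r => if r then 2 else (cut s t X).card - 2) r := by
    have k := card_filter_add_card_filter_not (s := cut s t X) (fun e => att e = true)
    rw [hf, card_pair ij] at k
    rintro (_ | _)
    · simp only [Bool.not_eq_true] at k
      exact (Nat.sub_eq_of_eq_add (k.symm.trans (add_comm _ _))).symm
    · rw [hf, card_pair ij]; simp
  have hb : ∀ {A : Type} [AddCommGroup A] (g : Empty → A) (r : Bool),
      bd Empty.elim Empty.elim g r = 0 := fun g r => by simp [bd]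
  obtain ⟨β, h, k1, k2, -, k3⟩ := replace (R := Bool) (Q := Empty) H.even H.IH H.exc H.st H.few X
    att Empty.elim Empty.elim (by simpa using hs)
    (h2.pole hn (by rcases hd with hd | hd <;> rw [hd] <;> decide))
    (fun r => by rw [hn]; revert r; rcases hd with hd | hd <;> rw [hd] <;> decide)
    Empty.elim Empty.elim (fun q => q.elim) false
    (fun r hr => by
      rw [show r = true by simpa using hr, hf, sum_pair ij, hc, hb, CharTwo.add_self_eq_zero])
    (ho.imp (fun h => by simp only [Fintype.card_bool]; omega) fun h r hr => by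
      rw [show r = true by simpa using hr, hf, sum_pair ij, h, hb, CharTwo.add_self_eq_zero])
  have := k3 true
  rw [hf, sum_pair ij, hb] at this
  exact ⟨β, k1, k2, this.symm⟩

lemma pole_edge (H : Minimal K 0 s t c o) {X : Finset V} (h2 : TwoConn s t X)
    (hd : (cut s t X).card = 4) (hs : 2 < Xᶜ.card) {i j : E}
    (hi : i ∈ cut s t X) (hj : j ∈ cut s t X) (ij : i ≠ j) (hc : ¬ (c i = c j ∧ o i = o j)) :
    ∃ β, NZ (cut s t X) β ∧ Ext s t X β ∧ β i + β j ≠ 0 := by
  let att : E → Bool := fun e => decide (e = i ∨ e = j)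
  have hf : ((cut s t X).filter fun e => att e = true) = {i, j} :=
    fiber_pair hi hj (by simp [att])
  have hn : ∀ r, ((cut s t X).filter fun e => att e = r).card = (fun _ => 2) r := by
    have k := card_filter_add_card_filter_not (s := cut s t X) (fun e => att e = true)
    rw [hf, card_pair ij] at k
    rintro (_ | _)
    · simp only [Bool.not_eq_true] at k
      simp only; omega
    · rw [hf, card_pair ij]
  have hb : ∀ {A : Type} [AddCommGroup A] (g : Unit → A),
      bd (fun _ => true) (fun _ => false) g true = g () := fun g => by simp [bd]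
  obtain ⟨β, h, k1, k2, k3, k4⟩ := replace (R := Bool) (Q := Unit) H.even H.IH H.exc H.st H.few X
    att (fun _ => true) (fun _ => false) (by simpa using hs) (h2.pole hn (by decide))
    (fun r => by rw [hn]; revert r; decide)
    (fun _ => c i + c j) (fun _ => o i + o j) (fun _ => by
      revert hc
      generalize c i = a; generalize c j = b; generalize o i = x; generalize o j = y
      revert a b x y; decide) false
    (fun r hr => by rw [show r = true by simpa using hr, hf, sum_pair ij, hb])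
    (Or.inr fun r hr => by rw [show r = true by simpa using hr, hf, sum_pair ij, hb])
  have := k4 true
  rw [hf, sum_pair ij, hb] at this
  exact ⟨β, k1, k2, this ▸ k3 ()⟩

lemma pole_tree (H : Minimal K 0 s t c o) {X : Finset V} (h2 : TwoConn s t X) (hs : 3 < Xᶜ.card)
    {i j k l m : E} (L : Lab5 (cut s t X) i j k l m)
    (ho : (X ∩ ter s t o).card + 2 ≤ K ∨ (c i ≠ c j ∧ c k ≠ c l)) :
    ∃ β, NZ (cut s t X) β ∧ Ext s t X β ∧ β i + β j ≠ 0 ∧ β k + β l ≠ 0 := by
  let att : E → Option Bool := fun e =>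
    if e = i ∨ e = j then some true else if e = k ∨ e = l then some false else none
  obtain ⟨hi, hj, hk, hl, hm⟩ := L.mem
  have hf : ((cut s t X).filter fun e => att e = some true) = {i, j} :=
    fiber_pair hi hj (fun e => by simp only [att]; split_ifs <;> simp [*])
  have hf' : ((cut s t X).filter fun e => att e = some false) = {k, l} :=
    fiber_pair hk hl (fun e => by
      simp only [att]
      split_ifs with h1 h2
      · rcases h1 with rfl | rfl <;> simp [L.ik, L.il, L.jk, L.jl]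
      · simp [h2]
      · simp [h2])
  have hn : ∀ r, ((cut s t X).filter fun e => att e = r).card =
      (fun r : Option Bool => if r = none then 1 else 2) r := by
    rintro (_ | _ | _)
    · rw [card_filter, L.sum]
      simp [att, L.ik.symm, L.jk.symm, L.il.symm, L.jl.symm, L.im.symm, L.jm.symm, L.km.symm,
        L.lm.symm]
    · rw [hf', card_pair L.kl]; simp
    · rw [hf, card_pair L.ij]; simp
  have hb : ∀ {A : Type} [AddCommGroup A] (g : Bool → A) (b : Bool),
      bd some (fun _ => none) g (some b) = g b := fun g b => by cases b <;> simp [bd]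
  have hz : ∀ a b : ZMod 2, a ≠ b → a + b ≠ 0 := by decide
  obtain ⟨β, h, k1, k2, k3, k4⟩ := replace (R := Option Bool) (Q := Bool) H.even H.IH H.exc H.st
    H.few X att some (fun _ => none) (by simpa using hs) (h2.pole hn (by decide))
    (fun r => by rw [hn]; revert r; decide)
    (fun b => if b then c i + c j else c k + c l)
    (fun b => if c i ≠ c j ∧ c k ≠ c l then (if b then o i + o j else o k + o l) else 1)
    (fun b hb => by
      split_ifs with h1 h2
      · rw [if_pos h2] at hb; exact absurd hb (hz _ _ h1.1)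
      · rw [if_neg h2] at hb; exact absurd hb (hz _ _ h1.2)
      · rfl) none
    (by
      rintro (_ | _ | _) hr
      · exact absurd rfl hr
      · rw [hf', sum_pair L.kl, hb]; simp
      · rw [hf, sum_pair L.ij, hb]; simp)
    (ho.imp (fun h => by simp only [Fintype.card_option, Fintype.card_bool]; omega) fun h => by
      rintro (_ | _ | _) hr
      · exact absurd rfl hr
      · rw [hf', sum_pair L.kl, hb]; simp [h]
      · rw [hf, sum_pair L.ij, hb]; simp [h])
  have e1 := k4 (some true)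
  have e2 := k4 (some false)
  rw [hf, sum_pair L.ij, hb] at e1
  rw [hf', sum_pair L.kl, hb] at e2
  exact ⟨β, k1, k2, e1 ▸ k3 true, e2 ▸ k3 false⟩

lemma forms (H : Minimal K 0 s t c o) {X : Finset V} (hd : (cut s t X).card ≤ 5) :
    ∃ N N' : (E → ZMod 5) → ℤ, Form (cut s t X) N ∧ Form (cut s t X) N' ∧ (∀ β, 0 ≤ N β) ∧
      (∀ β, 0 ≤ N' β) ∧ (∀ β, NZ (cut s t X) β → N β = 0 ∨ N' β = 0) ∧
      (∀ β, Ext s t X β ↔ N β ≠ 0) ∧ ∀ β, Ext s t Xᶜ β ↔ N' β ≠ 0 := by
  obtain ⟨N, h1, h2, h3⟩ := exists_form (s := s) (t := t) hd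
  obtain ⟨N', h1', h2', h3'⟩ := exists_form (s := s) (t := t) (X := Xᶜ) (by rwa [cut_compl])
  rw [cut_compl] at h1'
  refine ⟨N, N', h1, h1', h2, h2', fun β hβ => ?_, h3, h3'⟩
  by_contra hc
  push Not at hc
  exact H.nf (Ext.glue ((h3 β).mpr hc.1) ((h3' β).mpr hc.2) hβ.1)

lemma triv_four (H : Minimal K 0 s t c o) (X : Finset V) (hd : (cut s t X).card ≤ 4) :
    Triv s t X ∨ Triv s t Xᶜ := by
  by_cases h3 : (cut s t X).card ≤ 3
  · exact H.triv_three X h3
  have h4 : (cut s t X).card = 4 := by omega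
  by_contra hc
  push Not at hc
  have facts : ∀ Y : Finset V, cut s t Y = cut s t X → ¬ Triv s t Y → ¬ Triv s t Yᶜ →
      ∀ i ∈ cut s t X, ∀ j ∈ cut s t X, i ≠ j →
      (c i = c j ∧ o i = o j → ∃ β, NZ (cut s t X) β ∧ Ext s t Y β ∧ β i + β j = 0) ∧
      (¬ (c i = c j ∧ o i = o j) → ∃ β, NZ (cut s t X) β ∧ Ext s t Y β ∧ β i + β j ≠ 0) := by
    intro Y hY h1 h2 i hi j hj ij
    rw [← hY] at h4 hi hj ⊢
    have h5 := H.twoConn (by omega) (by omega) h1 h2 fun Z hZ => H.triv_three Z (by omega)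
    have h6 : 2 < Yᶜ.card := by
      unfold Triv at h2; rw [cut_compl] at h2; omega
    exact ⟨fun h => H.pole_pair h5 (Or.inl h4) h6 hi hj ij h.1 (Or.inr h.2),
      fun h => H.pole_edge h5 h4 h6 hi hj ij h⟩
  have f1 := facts X rfl hc.1 hc.2
  have f2 := facts Xᶜ (cut_compl s t X) hc.2 (by rw [compl_compl]; exact hc.1)
  obtain ⟨N, N', hF, hF', h0, h0', hdis, hN, hN'⟩ := H.forms (X := X) (by omega)
  simp only [hN] at f1
  simp only [hN'] at f2
  obtain ⟨a, b, _, _, L⟩ := exists_lab4 h4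
  rcases cone4 h4 hF hF' h0 h0' hdis with h | h | ⟨i, j, k, l, L, h | h⟩
  · obtain ⟨g1, g2⟩ := f1 a L.mem.1 b L.mem.2.1 L.ij
    by_cases hs : c a = c b ∧ o a = o b
    · obtain ⟨β, k1, k2, -⟩ := g1 hs; exact k2 (h β k1)
    · obtain ⟨β, k1, k2, -⟩ := g2 hs; exact k2 (h β k1)
  · obtain ⟨g1, g2⟩ := f2 a L.mem.1 b L.mem.2.1 L.ij
    by_cases hs : c a = c b ∧ o a = o b
    · obtain ⟨β, k1, k2, -⟩ := g1 hs; exact k2 (h β k1)
    · obtain ⟨β, k1, k2, -⟩ := g2 hs; exact k2 (h β k1)
  · by_cases hs : c i = c j ∧ o i = o j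
    · obtain ⟨β, k1, k2, k3⟩ := (f2 i L.mem.1 j L.mem.2.1 L.ij).1 hs; exact h.2 β k1 k2 k3
    · obtain ⟨β, k1, k2, k3⟩ := (f1 i L.mem.1 j L.mem.2.1 L.ij).2 hs; exact k3 (h.1 β k1 k2)
  · by_cases hs : c i = c j ∧ o i = o j
    · obtain ⟨β, k1, k2, k3⟩ := (f1 i L.mem.1 j L.mem.2.1 L.ij).1 hs; exact h.2 β k1 k2 k3
    · obtain ⟨β, k1, k2, k3⟩ := (f2 i L.mem.1 j L.mem.2.1 L.ij).2 hs; exact k3 (h.1 β k1 k2)

end Minimal

/-- what the induction hypothesis says about one side of a 5-cut -/
structure Facts (D : Finset E) (c o : E → ZMod 2) (rich : Prop) (P : (E → ZMod 5) → Prop) :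
    Prop where
  pair : ∀ i ∈ D, ∀ j ∈ D, i ≠ j → c i = c j → rich ∨ o i = o j →
    ∃ β, NZ D β ∧ P β ∧ β i + β j = 0
  tree : ∀ i j k l m, Lab5 D i j k l m → rich ∨ (c i ≠ c j ∧ c k ≠ c l) →
    ∃ β, NZ D β ∧ P β ∧ β i + β j ≠ 0 ∧ β k + β l ≠ 0

section
variable {D : Finset E} {c o : E → ZMod 2} {r r' : Prop} {P P' : (E → ZMod 5) → Prop}

set_option synthInstance.maxSize 1024 in
lemma Facts.nonempty (hcov : ∀ e, c e = 0 → o e = 1) (F : Facts D c o r P) (hD : D.card = 5) :
    ∃ β, NZ D β ∧ P β := by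
  obtain ⟨i, j, k, l, m, L⟩ := exists_lab5 hD
  obtain ⟨hi, hj, hk, hl, -⟩ := L.mem
  have key : ∀ a ∈ D, ∀ b ∈ D, a ≠ b → c a = c b ∧ o a = o b → ∃ β, NZ D β ∧ P β := by
    intro a ha b hb ab h
    obtain ⟨β, k1, k2, -⟩ := F.pair a ha b hb ab h.1 (Or.inr h.2)
    exact ⟨β, k1, k2⟩
  have : ∀ a b c d x y z w : ZMod 2, (a = 0 → x = 1) → (b = 0 → y = 1) → (c = 0 → z = 1) →
      (d = 0 → w = 1) → (a = b ∧ x = y) ∨ (a = c ∧ x = z) ∨ (a = d ∧ x = w) ∨ (b = c ∧ y = z) ∨
      (b = d ∧ y = w) ∨ (c = d ∧ z = w) := by decide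
  rcases this _ _ _ _ _ _ _ _ (hcov i) (hcov j) (hcov k) (hcov l) with h | h | h | h | h | h
  exacts [key i hi j hj L.ij h, key i hi k hk L.ik h, key i hi l hl L.il h, key j hj k hk L.jk h,
    key j hj l hl L.jl h, key k hk l hl L.kl h]

lemma Facts.not_pair (hcov : ∀ e, c e = 0 → o e = 1) (hev : ∑ e ∈ D, c e = 0)
    (F : Facts D c o r P) (F' : Facts D c o r' P') (hr : r ∨ r') {i j k l m : E}
    (L : Lab5 D i j k l m) : ¬ OutPair D P P' i j := by
  intro h
  obtain ⟨hi, hj, hk, hl, hm⟩ := L.mem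
  rcases hr with hr | hr
  · obtain ⟨β, k1, k2, k3, -⟩ := F.tree _ _ _ _ _ L (Or.inl hr)
    exact k3 (h.1 β k1 k2)
  by_cases hc : c i = c j
  · obtain ⟨β, k1, k2, k3⟩ := F'.pair i hi j hj L.ij hc (Or.inl hr)
    exact h.2 β k1 k2 k3
  rw [L.sum] at hev
  have : ∀ a b c d e z w u : ZMod 2, a ≠ b → a + b + c + d + e = 0 → (c = 0 → z = 1) →
      (d = 0 → w = 1) → (e = 0 → u = 1) →
      (c = d ∧ z = w) ∨ (c = e ∧ z = u) ∨ (d = e ∧ w = u) := by decide
  rcases this _ _ _ _ _ _ _ _ hc hev (hcov k) (hcov l) (hcov m) with g | g | g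
  · obtain ⟨β, k1, k2, k3⟩ := F.pair k hk l hl L.kl g.1 (Or.inr g.2)
    have k4 := h.1 β k1 k2
    obtain ⟨-, -, -, -, n, k5⟩ := L.nz.mp k1
    exact n (by linear_combination k5 - k3 - k4)
  · obtain ⟨β, k1, k2, k3⟩ := F.pair k hk m hm L.km g.1 (Or.inr g.2)
    have k4 := h.1 β k1 k2
    obtain ⟨-, -, -, n, -, k5⟩ := L.nz.mp k1
    exact n (by linear_combination k5 - k3 - k4)
  · obtain ⟨β, k1, k2, k3⟩ := F.pair l hl m hm L.lm g.1 (Or.inr g.2)
    have k4 := h.1 β k1 k2
    obtain ⟨-, -, n, -, -, k5⟩ := L.nz.mp k1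
    exact n (by linear_combination k5 - k3 - k4)

lemma Facts.not_tree (F : Facts D c o r P) (F' : Facts D c o r' P') (hr : r ∨ r') {i j k l m : E}
    (L : Lab5 D i j k l m) : ¬ OutTree D P P' i j k l := by
  intro h
  obtain ⟨hi, hj, hk, hl, hm⟩ := L.mem
  have key : ¬ (r' ∨ (c i ≠ c j ∧ c k ≠ c l)) := by
    intro h1
    obtain ⟨β, k1, k2, k3, k4⟩ := F'.tree _ _ _ _ _ L h1
    rcases h.2 β k1 k2 with k5 | k5
    exacts [k3 k5, k4 k5]
  have hr' : r := by tauto
  by_cases h1 : c i = c j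
  · obtain ⟨β, k1, k2, k3⟩ := F.pair i hi j hj L.ij h1 (Or.inl hr')
    exact (h.1 β k1 k2).1 k3
  · obtain ⟨β, k1, k2, k3⟩ := F.pair k hk l hl L.kl (by tauto) (Or.inl hr')
    exact (h.1 β k1 k2).2 k3

end

lemma Minimal.triv_five {K : ℕ} {s t : E → V} {c o : E → ZMod 2} (H : Minimal K 0 s t c o)
    (X : Finset V) (hd : (cut s t X).card ≤ 5) : Triv s t X ∨ Triv s t Xᶜ := by
  by_cases h4 : (cut s t X).card ≤ 4
  · exact H.triv_four X h4
  have h5 : (cut s t X).card = 5 := by omega
  by_contra hc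
  push Not at hc
  have facts : ∀ Y : Finset V, cut s t Y = cut s t X → ¬ Triv s t Y → ¬ Triv s t Yᶜ →
      Facts (cut s t X) c o ((Y ∩ ter s t o).card + 2 ≤ K) (Ext s t Y) := by
    intro Y hY h1 h2
    rw [← hY] at h5 ⊢
    have h6 := H.twoConn (by omega) (by omega) h1 h2 fun Z hZ => H.triv_four Z (by omega)
    have h7 : 3 < Yᶜ.card := by
      unfold Triv at h2; rw [cut_compl] at h2; omega
    exact ⟨fun i hi j hj ij h h' => H.pole_pair h6 (Or.inr h5) (by omega) hi hj ij h h',
      fun i j k l m L h => H.pole_tree h6 h7 L h⟩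
  have f1 := facts X rfl hc.1 hc.2
  have f2 := facts Xᶜ (cut_compl s t X) hc.2 (by rw [compl_compl]; exact hc.1)
  obtain ⟨N, N', hF, hF', h0, h0', hdis, hN, hN'⟩ := H.forms (X := X) hd
  rw [show Ext s t X = (N · ≠ 0) from funext fun β => propext (hN β)] at f1
  rw [show Ext s t Xᶜ = (N' · ≠ 0) from funext fun β => propext (hN' β)] at f2
  have hr : (X ∩ ter s t o).card + 2 ≤ K ∨ (Xᶜ ∩ ter s t o).card + 2 ≤ K := by
    have k1 := card_inter_add_card_sdiff (ter s t o) X
    rw [inter_comm, sdiff_eq_inter_compl, inter_comm _ Xᶜ] at k1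
    have := H.few
    have := H.four
    omega
  have hev : ∑ e ∈ cut s t X, c e = 0 := by
    rw [← sum_congr rfl fun e _ => out_z2 s X c e, ← sum_bd]
    exact sum_eq_zero fun v _ => H.st.even v
  rcases cone5 h5 hF hF' h0 h0' hdis with h | h | ⟨i, j, k, l, m, L, h | h | h | h⟩
  · obtain ⟨β, k1, k2⟩ := f1.nonempty H.st.cover h5; exact k2 (h β k1)
  · obtain ⟨β, k1, k2⟩ := f2.nonempty H.st.cover h5; exact k2 (h β k1)
  · exact f1.not_pair H.st.cover hev f2 hr L h
  · exact f2.not_pair H.st.cover hev f1 hr.symm L h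
  · exact f1.not_tree f2 hr L h
  · exact f2.not_tree f1 hr.symm L h

/-- the reduction to cubic graphs whose cuts with at most five edges are trivial -/
theorem reduce {K : ℕ} (hK : K % 2 = 0) (h4 : 4 ≤ K)
    (final : ∀ (V E : Type) [Fintype V] [DecidableEq V] [Fintype E] [DecidableEq E] (s t : E → V),
      Bridgeless s t → (∀ v, (cut s t {v}).card = 3) →
      (∀ X, (cut s t X).card ≤ 5 → Triv s t X ∨ Triv s t Xᶜ) →
      ∀ c o, State s t c o → (ter s t o).card ≤ K → HasFlow s t) : ∀ n, Smaller K 0 n := by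
  intro n
  induction n with
  | zero => intro V E _ _ _ _ s t h; omega
  | succ n ih =>
    intro V E _ _ _ _ s t h hC
    by_cases hn : Fintype.card V < n
    · exact ih V E s t hn hC
    obtain ⟨h1, h2, c, o, h3, h5⟩ := hC
    by_contra nf
    have H : Minimal K 0 s t c o :=
      ⟨hK, h4, by rwa [show Fintype.card V = n by omega], h1, h2, h3, h5, nf⟩
    exact nf (final V E s t h1 H.cubic H.triv_five c o h3 h5)

end Pool.Agent.Lib.MP_c8786f_co.WO
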