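import Pool.Agent.Lib.MP_c8786f_co.WO.Basic

/-!
Counting the nowhere-zero `ZMod 5` extensions of boundary values into one side of a cut with at
most five edges: the count is a combination of partition indicators.
-/

namespace Pool.Agent.Lib.MP_c8786f_co.WO

open Finset

set_option linter.unusedSectionVars false

variable {V E : Type} [Fintype V] [DecidableEq V] [Fintype E] [DecidableEq E]

/-- the out-flow values `β` on the cut of `X` extend to a nowhere-zero flow inside `X` -/
def Ext (s t : E → V) (X : Finset V) (β : E → ZMod 5) : Prop :=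
  ∃ g : E → ZMod 5, (∀ e, s e ∈ X → t e ∈ X → g e ≠ 0) ∧
    (∀ e ∈ cut s t X, out s X g e = β e) ∧ ∀ v ∈ X, bd s t g v = 0

lemma Ext.sum {s t : E → V} {X : Finset V} {β : E → ZMod 5} (h : Ext s t X β) :
    ∑ e ∈ cut s t X, β e = 0 := by
  obtain ⟨g, -, h2, h3⟩ := h
  rw [← sum_congr rfl h2, ← sum_bd]
  exact sum_eq_zero h3

lemma Ext.glue {s t : E → V} {X : Finset V} {β : E → ZMod 5} (h : Ext s t X β)
    (h' : Ext s t Xᶜ β) (hβ : ∀ e ∈ cut s t X, β e ≠ 0) : HasFlow s t := by
  obtain ⟨g, h1, h2, h3⟩ := h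
  obtain ⟨g', h1', h2', h3'⟩ := h'
  rw [cut_compl] at h2'
  have heq : ∀ e ∈ cut s t X, g e = - g' e := by
    intro e he
    have a := h2 e he
    have b := h2' e he
    rw [out_compl] at b
    unfold out at a b
    split_ifs at a b
    · rw [a, ← b]
    · rw [neg_neg] at b; rw [b, ← a, neg_neg]
  refine ⟨fun e => if s e ∈ X ∨ t e ∈ X then g e else - g' e, fun e => ?_, fun v => ?_⟩
  · by_cases he : e ∈ cut s t X
    · have a := h2 e he
      have b := hβ e he
      have c : s e ∈ X ∨ t e ∈ X := by rw [mem_cut] at he; tauto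
      simp only [c, if_true]
      intro h0
      unfold out at a
      rw [h0] at a
      simp at a
      exact b a.symm
    · rw [mem_cut] at he
      by_cases hs : s e ∈ X
      · simp only [hs, true_or, if_true]
        exact h1 e hs (by tauto)
      · have ht : t e ∉ X := by tauto
        simp only [hs, ht, or_self, if_false]
        exact neg_ne_zero.mpr (h1' e (mem_compl.mpr hs) (mem_compl.mpr ht))
  · by_cases hv : v ∈ X
    · rw [← h3 v hv]
      refine bd_congr s t fun e he => ?_
      rw [mem_cut, mem_singleton, mem_singleton] at he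
      have : s e ∈ X ∨ t e ∈ X := by
        by_cases h : s e = v
        · exact Or.inl (h ▸ hv)
        · have : t e = v := by tauto
          exact Or.inr (this ▸ hv)
      simp only [this, if_true]
    · have := h3' v (mem_compl.mpr hv)
      rw [← neg_zero, ← this, ← bd_neg]
      refine bd_congr s t fun e he => ?_
      by_cases h : s e ∈ X ∨ t e ∈ X
      · simp only [h, if_true, Pi.neg_apply]
        refine heq e (mem_cut.mpr ?_)
        rw [mem_cut, mem_singleton, mem_singleton] at he
        by_cases h' : s e = v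
        · rw [h'] at h ⊢; tauto
        · have h'' : t e = v := by tauto
          rw [h''] at h ⊢; tauto
      · simp only [h, if_false, Pi.neg_apply]

/-- functions of the boundary values that are combinations of partition indicators -/
def Form (D : Finset E) (N : (E → ZMod 5) → ℤ) : Prop :=
  ∃ (x0 : ℤ) (x : E → E → ℤ), ∀ β : E → ZMod 5, (∀ e ∈ D, β e ≠ 0) → ∑ e ∈ D, β e = 0 →
    N β = x0 + ∑ e ∈ D, ∑ e' ∈ D, if e ≠ e' ∧ β e + β e' = 0 then x e e' else 0

lemma Form.sub {D : Finset E} {N N' : (E → ZMod 5) → ℤ} (h : Form D N) (h' : Form D N') :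
    Form D fun β => N β - N' β := by
  obtain ⟨x0, x, hx⟩ := h
  obtain ⟨y0, y, hy⟩ := h'
  refine ⟨x0 - y0, x - y, fun β h1 h2 => ?_⟩
  simp only
  rw [hx β h1 h2, hy β h1 h2, add_sub_add_comm, ← sum_sub_distrib]
  congr 1
  refine sum_congr rfl fun e _ => ?_
  rw [← sum_sub_distrib]
  refine sum_congr rfl fun e' _ => ?_
  split_ifs <;> simp

lemma two_blocks {D : Finset E} (l : E → V) {e1 e2 : E} (hne : l e1 ≠ l e2)
    (hall : ∀ e ∈ D, l e = l e1 ∨ l e = l e2) (h2 : (D.filter fun e => l e = l e1).card = 2) :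
    ∃ i ∈ D, ∃ j ∈ D, i ≠ j ∧ ∀ β : E → ZMod 5, ∑ e ∈ D, β e = 0 →
      ((∀ w, ∑ e ∈ D with l e = w, β e = 0) ↔ β i + β j = 0) := by
  obtain ⟨i, j, hij, hB⟩ := card_eq_two.mp h2
  have hi : i ∈ D.filter fun e => l e = l e1 := by rw [hB]; simp
  have hj : j ∈ D.filter fun e => l e = l e1 := by rw [hB]; simp
  refine ⟨i, (mem_filter.mp hi).1, j, (mem_filter.mp hj).1, hij, fun β hβ => ⟨fun h => ?_,
    fun h w => ?_⟩⟩
  · have := h (l e1)
    rwa [hB, sum_pair hij] at this
  · have h1 : ∑ e ∈ D with l e = l e1, β e = 0 := by rw [hB, sum_pair hij, h]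
    by_cases hw : w = l e1
    · rw [hw, h1]
    by_cases hw' : w = l e2
    · have h3 := sum_filter_add_sum_filter_not D (fun e => l e = l e1) β
      rw [h1, hβ, zero_add] at h3
      rw [← h3, hw']
      refine sum_congr (filter_congr fun e he => ?_) fun _ _ => rfl
      have := hall e he
      constructor
      · intro h4 h5; exact hne (h5.symm.trans h4)
      · tauto
    · refine sum_eq_zero fun e he => ?_
      rw [mem_filter] at he
      rcases hall e he.1 with h | h
      · exact absurd (he.2.symm.trans h) hw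
      · exact absurd (he.2.symm.trans h) hw'

open Classical in
lemma form_blocks {D : Finset E} (hD : D.card ≤ 5) (l : E → V) (M : ℤ) :
    Form D fun β => if ∀ w, ∑ e ∈ D with l e = w, β e = 0 then M else 0 := by
  by_cases h1 : ∃ e ∈ D, (D.filter fun e' => l e' = l e).card ≤ 1
  · obtain ⟨e, he, h1⟩ := h1
    have h2 : (D.filter fun e' => l e' = l e) = {e} :=
      (eq_of_subset_of_card_le (by simp [he]) (by simpa using h1)).symm
    refine ⟨0, 0, fun β hβ _ => ?_⟩
    have : ¬ ∀ w, ∑ e ∈ D with l e = w, β e = 0 := by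
      intro h
      have := h (l e)
      rw [h2, sum_singleton] at this
      exact hβ e he this
    simp [this]
  push Not at h1
  by_cases h2 : ∀ e ∈ D, ∀ e' ∈ D, l e = l e'
  · refine ⟨M, 0, fun β _ hβ => ?_⟩
    have : ∀ w, ∑ e ∈ D with l e = w, β e = 0 := by
      intro w
      by_cases hw : ∃ e ∈ D, l e = w
      · obtain ⟨e, he, rfl⟩ := hw
        rw [filter_true_of_mem fun e' he' => h2 e' he' e he, hβ]
      · push Not at hw
        rw [filter_false_of_mem hw, sum_empty]
    simp [this]
  push Not at h2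
  obtain ⟨e1, he1, e2, he2, hne⟩ := h2
  have hdis : ∀ a b : V, a ≠ b → Disjoint (D.filter fun e => l e = a) (D.filter fun e => l e = b) := by
    intro a b hab
    rw [disjoint_filter]
    intro e _ h h'
    exact hab (h.symm.trans h')
  have hall : ∀ e ∈ D, l e = l e1 ∨ l e = l e2 := by
    intro e he
    by_contra hc
    push Not at hc
    have k := card_le_card (s := ((D.filter fun e' => l e' = l e1) ∪ (D.filter fun e' => l e' = l e2))
      ∪ (D.filter fun e' => l e' = l e)) (t := D) (by
        refine union_subset (union_subset ?_ ?_) ?_ <;> exact filter_subset _ _)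
    rw [card_union_of_disjoint (disjoint_union_left.mpr ⟨hdis _ _ hc.1.symm, hdis _ _ hc.2.symm⟩),
      card_union_of_disjoint (hdis _ _ hne)] at k
    have := h1 e he
    have := h1 e1 he1
    have := h1 e2 he2
    omega
  have k := card_le_card (s := ((D.filter fun e' => l e' = l e1) ∪ (D.filter fun e' => l e' = l e2)))
    (t := D) (union_subset (filter_subset _ _) (filter_subset _ _))
  rw [card_union_of_disjoint (hdis _ _ hne)] at k
  have k1 := h1 e1 he1
  have k2 := h1 e2 he2
  obtain ⟨i, hi, j, hj, hij, H⟩ : ∃ i ∈ D, ∃ j ∈ D, i ≠ j ∧ ∀ β : E → ZMod 5, ∑ e ∈ D, β e = 0 →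
      ((∀ w, ∑ e ∈ D with l e = w, β e = 0) ↔ β i + β j = 0) := by
    by_cases h : (D.filter fun e => l e = l e1).card = 2
    · exact two_blocks l hne hall h
    · exact two_blocks l hne.symm (fun e he => (hall e he).symm) (by omega)
  refine ⟨0, fun e e' => if e = i ∧ e' = j then M else 0, fun β _ hβ => ?_⟩
  simp only [H β hβ, zero_add]
  rw [sum_eq_single i, sum_eq_single j]
  · simp [hij]
  · intro b _ hb; simp [hb]
  · intro h; exact absurd hj h
  · intro b _ hb; simp [hb]
  · intro h; exact absurd hi h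

open Classical in
/-- extensions that are non-zero on `P` and zero on `Z` -/
noncomputable def exts (s t : E → V) (X : Finset V) (P Z : Finset E) (β : E → ZMod 5) :
    Finset (E → ZMod 5) :=
  univ.filter fun g => (∀ e ∈ P, g e ≠ 0) ∧ (∀ e ∈ Z, g e = 0) ∧
    (∀ e ∈ cut s t X, out s X g e = β e) ∧ ∀ v ∈ X, bd s t g v = 0

lemma mem_exts {s t : E → V} {X : Finset V} {P Z : Finset E} {β g : E → ZMod 5} :
    g ∈ exts s t X P Z β ↔ (∀ e ∈ P, g e ≠ 0) ∧ (∀ e ∈ Z, g e = 0) ∧
    (∀ e ∈ cut s t X, out s X g e = β e) ∧ ∀ v ∈ X, bd s t g v = 0 := by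
  simp [exts]

lemma out_sub (s : E → V) (X : Finset V) (g h : E → ZMod 5) (e : E) :
    out s X (g - h) e = out s X g e - out s X h e := by
  unfold out; split_ifs <;> simp; ring

lemma out_add (s : E → V) (X : Finset V) (g h : E → ZMod 5) (e : E) :
    out s X (g + h) e = out s X g e + out s X h e := by
  unfold out; split_ifs <;> simp; ring

lemma form_base {s t : E → V} {X : Finset V} (hX : (cut s t X).card ≤ 5) {Z : Finset E}
    (hZ : ∀ e ∈ Z, s e ∈ X ∧ t e ∈ X) :
    Form (cut s t X) fun β => ((exts s t X ∅ Z β).card : ℤ) := by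
  classical
  let F : E → Prop := fun e => s e ∈ X ∧ t e ∈ X ∧ e ∉ Z
  obtain ⟨r, hr, hr'⟩ := exists_rep s t F
  let l : E → V := fun e => r (if s e ∈ X then s e else t e)
  have key : ∀ g : E → ZMod 5, (∀ e ∈ Z, g e = 0) → ∀ w,
      ∑ v ∈ X with r v = w, bd s t g v = ∑ e ∈ cut s t X with l e = w, out s X g e := by
    intro g hg w
    rw [sum_bd]
    unfold cut
    rw [filter_filter, sum_filter, sum_filter]
    refine sum_congr rfl fun e _ => ?_
    unfold out
    by_cases h1 : s e ∈ X <;> by_cases h2 : t e ∈ X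
    · by_cases h3 : e ∈ Z
      · simp [hg e h3]
      · have := (hr' _ _).mp (conn_edge (s := s) (t := t) (F := F) ⟨h1, h2, h3⟩)
        simp [h1, h2, this]
    · by_cases h3 : r (s e) = w <;> simp [h1, h2, l, h3]
    · by_cases h3 : r (t e) = w <;> simp [h1, h2, l, h3]
    · simp [h1, h2]
  have hZD : ∀ e ∈ cut s t X, e ∉ Z := by
    intro e he h
    rw [mem_cut] at he
    have := hZ e h
    tauto
  have := form_blocks hX l ((exts s t X ∅ Z 0).card : ℤ)
  refine (congrArg (Form (cut s t X)) (funext fun β => ?_)).mp this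
  split_ifs with h
  · let g0 : E → ZMod 5 := fun e => if e ∈ cut s t X then out s X β e else 0
    have hg0 : ∀ e ∈ cut s t X, out s X g0 e = β e := by
      intro e he
      simp only [out, g0, he, if_true]
      split_ifs <;> simp
    have hg0' : ∀ e ∈ Z, g0 e = 0 := by
      intro e he
      have : e ∉ cut s t X := fun h => hZD e h he
      simp [g0, this]
    obtain ⟨g1, h1, h2⟩ := exists_of_rep hr (fun v => if v ∈ X then - bd s t g0 v else 0) (by
      intro w
      have k := key g0 hg0' w
      rw [sum_congr rfl fun e he => hg0 e (mem_filter.mp he).1, h w] at k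
      rw [← sum_filter, filter_filter, sum_neg_distrib, neg_eq_zero, ← k]
      refine sum_congr ?_ fun _ _ => rfl
      ext v; simp [and_comm])
    have h3 : ∀ e ∈ cut s t X, out s X g1 e = 0 := by
      intro e he
      have : g1 e = 0 := h1 e (by rw [mem_cut] at he; simp only [F]; tauto)
      simp [out, this]
    have h4 : ∀ e ∈ Z, g1 e = 0 := fun e he => h1 e (by simp only [F]; tauto)
    congr 1
    refine card_nbij' (fun g => g + (g0 + g1)) (fun g => g - (g0 + g1)) ?_ ?_ ?_ ?_
    · intro g hg
      rw [mem_coe, mem_exts] at hg ⊢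
      refine ⟨by simp, fun e he => ?_, fun e he => ?_, fun v hv => ?_⟩
      · simp [hg.2.1 e he, hg0' e he, h4 e he]
      · rw [out_add, out_add, hg.2.2.1 e he, hg0 e he, h3 e he]; simp
      · rw [bd_add, bd_add, hg.2.2.2 v hv, h2]; simp [hv]
    · intro g hg
      rw [mem_coe, mem_exts] at hg ⊢
      refine ⟨by simp, fun e he => ?_, fun e he => ?_, fun v hv => ?_⟩
      · simp [hg.2.1 e he, hg0' e he, h4 e he]
      · rw [out_sub, out_add, hg.2.2.1 e he, hg0 e he, h3 e he]; simp
      · rw [bd_sub, bd_add, hg.2.2.2 v hv, h2]; simp [hv]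
    · intro g _; simp
    · intro g _; simp
  · symm
    rw [Nat.cast_eq_zero, card_eq_zero, eq_empty_iff_forall_notMem]
    intro g hg
    rw [mem_exts] at hg
    refine h fun w => ?_
    have k := key g hg.2.1 w
    rw [sum_congr rfl fun e he => hg.2.2.1 e (mem_filter.mp he).1] at k
    rw [← k]
    exact sum_eq_zero fun v hv => hg.2.2.2 v (mem_filter.mp hv).1

lemma form_exts {s t : E → V} {X : Finset V} (hX : (cut s t X).card ≤ 5) (P : Finset E) :
    ∀ Z : Finset E, (∀ e ∈ P, s e ∈ X ∧ t e ∈ X) → (∀ e ∈ Z, s e ∈ X ∧ t e ∈ X) →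
      Form (cut s t X) fun β => ((exts s t X P Z β).card : ℤ) := by
  induction P using Finset.induction_on with
  | empty => exact fun Z _ hZ => form_base hX hZ
  | insert a P ha ih =>
    intro Z hP hZ
    have hP' : ∀ e ∈ P, s e ∈ X ∧ t e ∈ X := fun e he => hP e (mem_insert_of_mem he)
    have := (ih Z hP' hZ).sub (ih (insert a Z) hP' (by
      intro e he
      rcases mem_insert.mp he with rfl | he
      · exact hP _ (mem_insert_self _ _)
      · exact hZ e he))
    refine (congrArg (Form (cut s t X)) (funext fun β => ?_)).mp this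
    have k := card_filter_add_card_filter_not (s := exts s t X P Z β) (fun g => g a = 0)
    have k1 : (exts s t X P Z β).filter (fun g => g a = 0) = exts s t X P (insert a Z) β := by
      ext g; simp only [mem_filter, mem_exts, forall_mem_insert]; tauto
    have k2 : (exts s t X P Z β).filter (fun g => ¬ g a = 0) = exts s t X (insert a P) Z β := by
      ext g; simp only [mem_filter, mem_exts, forall_mem_insert]; tauto
    rw [k1, k2] at k
    omega

theorem exists_form {s t : E → V} {X : Finset V} (hX : (cut s t X).card ≤ 5) :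
    ∃ N : (E → ZMod 5) → ℤ, Form (cut s t X) N ∧ (∀ β, 0 ≤ N β) ∧ ∀ β, Ext s t X β ↔ N β ≠ 0 := by
  refine ⟨_, form_exts hX (univ.filter fun e => s e ∈ X ∧ t e ∈ X) ∅ (by simp) (by simp),
    fun β => Int.natCast_nonneg _, fun β => ?_⟩
  rw [Nat.cast_ne_zero, card_ne_zero]
  unfold Ext Finset.Nonempty
  simp only [mem_exts]
  simp

end Pool.Agent.Lib.MP_c8786f_co.WO
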