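import Pool.Agent.Lib.MP_c8786f_co.WO.Cone

/-!
Replacing one side of a cut by a small pole.
-/

namespace Pool.Agent.Lib.MP_c8786f_co.WO

open Finset

set_option linter.unusedSectionVars false

variable {V E : Type} [Fintype V] [DecidableEq V] [Fintype E] [DecidableEq E]
variable {R Q : Type} [Fintype R] [DecidableEq R] [Fintype Q] [DecidableEq Q]

/-- new position of an end `v` of the edge `e` -/
def emb (X : Finset V) (att : E → R) (e : E) (v : V) : {v // v ∈ X} ⊕ R :=
  if h : v ∈ X then Sum.inl ⟨v, h⟩ else Sum.inr (att e)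

/-- end map of the graph in which the complement of `X` is replaced by a pole -/
def ends (X : Finset V) (att : E → R) (s : E → V) (rs : Q → R) : E ⊕ Q → {v // v ∈ X} ⊕ R :=
  Sum.elim (fun e => emb X att e (s e)) fun q => Sum.inr (rs q)

lemma emb_eq_inl {X : Finset V} {att : E → R} {e : E} {u v : V} {hv : v ∈ X} :
    emb X att e u = Sum.inl ⟨v, hv⟩ ↔ u = v := by
  unfold emb
  split_ifs with h
  · simp
  · simp only [false_iff]; rintro rfl; exact h hv

lemma emb_eq_inr {X : Finset V} {att : E → R} {e : E} {u : V} {r : R} :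
    emb X att e u = Sum.inr r ↔ u ∉ X ∧ att e = r := by
  unfold emb
  split_ifs with h <;> simp [h]

section
variable {A : Type} [AddCommGroup A] (s t : E → V) (X : Finset V) (att : E → R) (rs rt : Q → R)

lemma bd_inl (g : E ⊕ Q → A) (v : V) (hv : v ∈ X) :
    bd (ends X att s rs) (ends X att t rt) g (Sum.inl ⟨v, hv⟩) =
      bd s t (fun e => g (Sum.inl e)) v := by
  unfold bd
  rw [Fintype.sum_sum_type]
  simp [ends, emb_eq_inl]

lemma bd_inr (g : E ⊕ Q → A) (r : R) :
    bd (ends X att s rs) (ends X att t rt) g (Sum.inr r) = bd rs rt (fun q => g (Sum.inr q)) r -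
      ∑ e ∈ cut s t X with att e = r, out s X (fun e => g (Sum.inl e)) e := by
  unfold bd cut
  rw [Fintype.sum_sum_type, add_comm, sub_eq_add_neg, ← sum_neg_distrib, filter_filter, sum_filter]
  congr 1
  · simp [ends]
  · refine sum_congr rfl fun e _ => ?_
    simp only [ends, Sum.elim_inl, emb_eq_inr, out]
    by_cases h1 : s e ∈ X <;> by_cases h2 : t e ∈ X <;> by_cases h3 : att e = r <;>
      simp [h1, h2, h3]

lemma card_cut_ends (Y' : Finset ({v // v ∈ X} ⊕ R)) (Y : Finset V) (W : Finset R) (hYX : Y ⊆ X)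
    (hY : ∀ v (hv : v ∈ X), Sum.inl ⟨v, hv⟩ ∈ Y' ↔ v ∈ Y) (hW : ∀ r, Sum.inr r ∈ Y' ↔ r ∈ W) :
    (cut (ends X att s rs) (ends X att t rt) Y').card = (cut s t Y \ cut s t X).card +
      ((cut s t X).filter fun e => ¬ (e ∈ cut s t Y ↔ att e ∈ W)).card + (cut rs rt W).card := by
  have h1 : (cut s t Y \ cut s t X).card = ∑ e, if e ∈ cut s t Y ∧ e ∉ cut s t X then 1 else 0 := by
    rw [← card_filter]; congr 1; ext e; simp
  have h2 : ((cut s t X).filter fun e => ¬ (e ∈ cut s t Y ↔ att e ∈ W)).card =
      ∑ e, if e ∈ cut s t X ∧ ¬ (e ∈ cut s t Y ↔ att e ∈ W) then 1 else 0 := by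
    rw [← card_filter]; congr 1; ext e; simp
  rw [h1, h2, ← sum_add_distrib]
  unfold cut
  rw [card_filter, card_filter, Fintype.sum_sum_type]
  congr 1
  · refine sum_congr rfl fun e _ => ?_
    have k1 := @hYX (s e)
    have k2 := @hYX (t e)
    simp only [ends, Sum.elim_inl, emb, mem_filter, mem_univ, true_and]
    by_cases h1 : s e ∈ X <;> by_cases h2 : t e ∈ X
    · simp only [h1, h2, dite_true, hY]; simp
    · have : t e ∉ Y := fun h => h2 (k2 h)
      simp only [h1, h2, dite_true, dite_false, hY, hW]; simp [this]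
    · have : s e ∉ Y := fun h => h1 (k1 h)
      simp only [h1, h2, dite_true, dite_false, hY, hW]
      by_cases h3 : t e ∈ Y <;> simp [this, h3]
    · have : s e ∉ Y := fun h => h1 (k1 h)
      have : t e ∉ Y := fun h => h2 (k2 h)
      simp [*]
  · simp [ends, hW]

end

/-- bridgeless graphs with degree excess at most `m` and a state having at most `k` odd vertices -/
def Cls (k m : ℕ) (s t : E → V) : Prop :=
  Bridgeless s t ∧ ∑ v, ((cut s t {v}).card - 3) ≤ m ∧
    ∃ c j, State s t c j ∧ (ter s t j).card ≤ k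

/-- all smaller members of the class have a flow -/
def Smaller (k m n : ℕ) : Prop :=
  ∀ (V E : Type) [Fintype V] [DecidableEq V] [Fintype E] [DecidableEq E] (s t : E → V),
    Fintype.card V < n → Cls k m s t → HasFlow s t

lemma out_z2 (s : E → V) (X : Finset V) (g : E → ZMod 2) (e : E) : out s X g e = g e := by
  unfold out; split_ifs <;> simp

theorem replace {k m : ℕ} (hk : k % 2 = 0) (IH : Smaller k m (Fintype.card V)) {s t : E → V}
    (hdeg : ∑ v, ((cut s t {v}).card - 3) ≤ m) {c j : E → ZMod 2} (hS : State s t c j)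
    (hT : (ter s t j).card ≤ k) (X : Finset V) (att : E → R) (rs rt : Q → R)
    (hsize : Fintype.card R < Xᶜ.card)
    (hbr : ∀ Y ⊆ X, ∀ W : Finset R, (cut s t Y \ cut s t X).card +
      ((cut s t X).filter fun e => ¬ (e ∈ cut s t Y ↔ att e ∈ W)).card + (cut rs rt W).card ≠ 1)
    (hdegR : ∀ r, ((cut s t X).filter fun e => att e = r).card + (cut rs rt {r}).card ≤ 3)
    (c' j' : Q → ZMod 2) (hcov : ∀ q, c' q = 0 → j' q = 1) (r0 : R)
    (hev : ∀ r, r ≠ r0 → bd rs rt c' r = ∑ e ∈ cut s t X with att e = r, c e)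
    (hcost : (X ∩ ter s t j).card + Fintype.card R ≤ k + 1 ∨
      ∀ r, r ≠ r0 → bd rs rt j' r = ∑ e ∈ cut s t X with att e = r, j e) :
    ∃ (β : E → ZMod 5) (h : Q → ZMod 5), NZ (cut s t X) β ∧ Ext s t X β ∧ (∀ q, h q ≠ 0) ∧
      ∀ r, bd rs rt h r = ∑ e ∈ cut s t X with att e = r, β e := by
  have hev' : ∀ r, bd rs rt c' r = ∑ e ∈ cut s t X with att e = r, c e := by
    intro r
    by_cases hr : r = r0
    · subst hr
      have h1 := sum_bd_univ rs rt c'
      have h2 : ∑ r, ∑ e ∈ cut s t X with att e = r, c e = 0 := by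
        rw [sum_fiberwise, ← sum_congr rfl fun e _ => out_z2 s X c e, ← sum_bd]
        exact sum_eq_zero fun v _ => hS.even v
      rw [← add_sum_erase _ _ (mem_univ r)] at h1 h2
      rw [sum_congr rfl fun r' hr' => hev r' (ne_of_mem_erase hr')] at h1
      exact add_right_cancel (h1.trans h2.symm)
    · exact hev r hr
  obtain ⟨g, hg, hg'⟩ := IH _ _ (ends X att s rs) (ends X att t rt) (by
      have := card_add_card_compl X
      simp only [Fintype.card_sum, Fintype.card_coe]
      omega) ⟨fun Y' => by
      rw [card_cut_ends s t X att rs rt Y' (X.filter fun v => ∃ hv : v ∈ X, Sum.inl ⟨v, hv⟩ ∈ Y')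
        (univ.filter fun r => Sum.inr r ∈ Y') (filter_subset _ _) (fun v hv => by simp [hv])
        (fun r => by simp)]
      exact hbr _ (filter_subset _ _) _, by
      have k1 : ∀ v : {v // v ∈ X}, (cut (ends X att s rs) (ends X att t rt) {Sum.inl v}).card =
          (cut s t {v.1}).card := by
        rintro ⟨v, hv⟩
        rw [card_cut_ends s t X att rs rt _ {v} ∅ (by simpa using hv) (fun v hv => by simp)
          (fun r => by simp), cut_empty, card_empty]
        have h1 := card_sdiff_add_card_inter (cut s t {v}) (cut s t X)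
        have h2 : ((cut s t X).filter fun e => ¬ (e ∈ cut s t {v} ↔ att e ∈ (∅ : Finset R))) =
            cut s t {v} ∩ cut s t X := by ext e; simp [and_comm]
        rw [h2]; exact h1
      have k2 : ∀ r, (cut (ends X att s rs) (ends X att t rt) {Sum.inr r}).card - 3 = 0 := by
        intro r
        rw [card_cut_ends s t X att rs rt _ ∅ {r} (empty_subset _) (fun v hv => by simp)
          (fun r => by simp), cut_empty, Nat.sub_eq_zero_iff_le]
        simpa using hdegR r
      rw [Fintype.sum_sum_type, sum_congr rfl fun r _ => k2 r, sum_const_zero, add_zero,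
        sum_congr rfl fun v _ => congrArg (· - 3) (k1 v),
        sum_coe_sort X fun v => (cut s t {v}).card - 3]
      exact (sum_le_sum_of_subset (subset_univ X)).trans hdeg,
      Sum.elim c c', Sum.elim j j', ⟨by rintro (e | q); exacts [hS.cover e, hcov q], by
        rintro (⟨v, hv⟩ | r)
        · rw [bd_inl]; exact hS.even v
        · rw [bd_inr, sum_congr rfl fun e _ => out_z2 s X _ e]
          exact sub_eq_zero.mpr (hev' r)⟩, by
      have h1 := ter_even (ends X att s rs) (ends X att t rt) (Sum.elim j j')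
      have h2 : (ter (ends X att s rs) (ends X att t rt) (Sum.elim j j')).card =
          (X ∩ ter s t j).card + (univ.filter fun r =>
            bd rs rt j' r ≠ ∑ e ∈ cut s t X with att e = r, j e).card := by
        unfold ter
        rw [card_filter, Fintype.sum_sum_type, card_filter, ← filter_mem_eq_inter, card_filter,
          ← sum_coe_sort X]
        congr 1
        · refine sum_congr rfl fun v _ => ?_
          rw [bd_inl]
          simp
        · refine sum_congr rfl fun r _ => ?_
          rw [bd_inr, sum_congr rfl fun e _ => out_z2 s X _ e]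
          simp [sub_eq_zero]
      have h3 : (X ∩ ter s t j).card ≤ (ter s t j).card := card_le_card inter_subset_right
      rcases hcost with h | h
      · have := card_le_univ (univ.filter fun r =>
            bd rs rt j' r ≠ ∑ e ∈ cut s t X with att e = r, j e)
        omega
      · have : (univ.filter fun r => bd rs rt j' r ≠ ∑ e ∈ cut s t X with att e = r, j e).card ≤
            ({r0} : Finset R).card := by
          refine card_le_card fun r hr => ?_
          by_contra hne
          exact (mem_filter.mp hr).2 (h r (by simpa using hne))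
        rw [card_singleton] at this
        omega⟩
  have hE : Ext s t X (out s X fun e => g (Sum.inl e)) :=
    ⟨fun e => g (Sum.inl e), fun e _ _ => hg _, fun e _ => rfl,
      fun v hv => by rw [← bd_inl s t X att rs rt g v hv, hg']⟩
  refine ⟨out s X fun e => g (Sum.inl e), fun q => g (Sum.inr q), ⟨fun e _ => ?_, hE.sum⟩, hE,
    fun q => hg _, fun r => ?_⟩
  · unfold out; split_ifs <;> simp [hg]
  · have := hg' (Sum.inr r)
    rw [bd_inr] at this
    exact sub_eq_zero.mp this

/-- the side `X` is 2-edge-connected -/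
def TwoConn (s t : E → V) (X : Finset V) : Prop :=
  ∀ Y ⊆ X, (cut s t Y \ cut s t X).card ≠ 1 ∧ ((cut s t Y \ cut s t X).card = 0 →
    cut s t X ⊆ cut s t Y ∨ Disjoint (cut s t X) (cut s t Y))

lemma TwoConn.pole {s t : E → V} {X : Finset V} (h : TwoConn s t X) {att : E → R} {rs rt : Q → R}
    {n : R → ℕ} (hn : ∀ r, ((cut s t X).filter fun e => att e = r).card = n r)
    (hp : ∀ W : Finset R, ∑ r ∈ W, n r + (cut rs rt W).card ≠ 1) :
    ∀ Y ⊆ X, ∀ W : Finset R, (cut s t Y \ cut s t X).card +
      ((cut s t X).filter fun e => ¬ (e ∈ cut s t Y ↔ att e ∈ W)).card +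
        (cut rs rt W).card ≠ 1 := by
  have hW : ∀ W : Finset R, ((cut s t X).filter fun e => att e ∈ W).card = ∑ r ∈ W, n r := by
    intro W
    rw [← sum_card_fiberwise_eq_card_filter]
    exact sum_congr rfl fun r _ => hn r
  intro Y hY W hc
  obtain ⟨h1, h2⟩ := h Y hY
  have h3 : (cut s t Y \ cut s t X).card = 0 := by omega
  rcases h2 h3 with h4 | h4
  · have := hp Wᶜ
    rw [← hW, cut_compl] at this
    rw [h3, filter_congr (q := fun e => att e ∈ Wᶜ) (fun e he => by simp [h4 he])] at hc
    omega
  · have := hp W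
    rw [← hW] at this
    rw [h3, filter_congr (q := fun e => att e ∈ W)
      (fun e he => by simp [disjoint_left.mp h4 he])] at hc
    omega

end Pool.Agent.Lib.MP_c8786f_co.WO
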